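import Pool.Agent.Lib.MP_26bfe6_an.Lp

/-!
# The base case of the `L^p` inequality, on `(ℤ/4)²`
-/

set_option autoImplicit false

namespace Pool.Agent.Lib.MP_26bfe6_an

open Finset Filter Topology

/-- the pairing `i^{ξ·r}` on `(ℤ/4)^D` -/
noncomputable def chi {D : Type*} [Fintype D] (ξ r : D → ZMod 4) : ℂ :=
  ∏ i, Complex.I ^ ((ξ i).val * (r i).val)

theorem I_pow_mod (n : ℕ) : Complex.I ^ n = Complex.I ^ (n % 4) := by
  conv_lhs => rw [← Nat.div_add_mod n 4, pow_add, pow_mul, Complex.I_pow_four, one_pow, one_mul]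

theorem chi_add {D : Type*} [Fintype D] (ξ r s : D → ZMod 4) :
    chi ξ (r + s) = chi ξ r * chi ξ s := by
  unfold chi
  rw [← Finset.prod_mul_distrib]
  apply Finset.prod_congr rfl
  intro i _
  rw [← pow_add, I_pow_mod, I_pow_mod (_ + _)]
  congr 1
  have : ∀ a b c : ZMod 4, a.val * (b + c).val % 4 = (a.val * b.val + a.val * c.val) % 4 := by
    decide
  exact this _ _ _

theorem chi_norm {D : Type*} [Fintype D] (ξ r : D → ZMod 4) : ‖chi ξ r‖ = 1 := by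
  unfold chi
  rw [norm_prod]
  apply Finset.prod_eq_one
  intro i _
  rw [norm_pow, Complex.norm_I, one_pow]

theorem chi_zero {D : Type*} [Fintype D] (ξ : D → ZMod 4) : chi ξ 0 = 1 := by
  unfold chi
  apply Finset.prod_eq_one
  intro i _
  simp

theorem chi_ne {D : Type*} [Fintype D] (ξ r : D → ZMod 4) : chi ξ r ≠ 0 := by
  intro h
  have := chi_norm ξ r
  rw [h, norm_zero] at this
  exact zero_ne_one this

/-- the four shifts -/
def a0 : Fin 4 → Fin 2 → ZMod 4 := ![![0, 0], ![3, 0], ![0, 3], ![1, 1]]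

/-- a primitive 16th root of unity with `ζ ^ 4 = i` -/
noncomputable def zeta : ℂ := Complex.exp (2 * Real.pi * Complex.I / 16)

theorem zeta_pow_four : zeta ^ 4 = Complex.I := by
  unfold zeta
  rw [← Complex.exp_nat_mul]
  have : ((4 : ℕ) : ℂ) * (2 * Real.pi * Complex.I / 16) = Real.pi / 2 * Complex.I := by
    push_cast; ring
  rw [this, Complex.exp_pi_div_two_mul_I]

theorem zeta_norm : ‖zeta‖ = 1 := by
  unfold zeta
  have : (2 * Real.pi * Complex.I / 16 : ℂ) = ((2 * Real.pi / 16 : ℝ) : ℂ) * Complex.I := by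
    push_cast; ring
  rw [this, Complex.norm_exp_ofReal_mul_I]

theorem zeta_ne : zeta ≠ 0 := Complex.exp_ne_zero _

theorem zeta_pow_16 : zeta ^ 16 = 1 := by
  have : zeta ^ 16 = (zeta ^ 4) ^ 4 := by rw [← pow_mul]
  rw [this, zeta_pow_four, Complex.I_pow_four]

/-- the target values -/
noncomputable def tau : Fin 4 → ℂ := ![1, zeta, zeta⁻¹, 1]

theorem tau_norm (k : Fin 4) : ‖tau k‖ = 1 := by
  fin_cases k <;> simp [tau, zeta_norm]

theorem tau_ne (k : Fin 4) : tau k ≠ 0 := by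
  intro h
  have := tau_norm k
  rw [h, norm_zero] at this
  exact zero_ne_one this

/-- the weights -/
noncomputable def w0 (k : Fin 4) : ℂ := (tau k)⁻¹ / 4

theorem w0_norm (k : Fin 4) : ‖w0 k‖ = 1 / 4 := by
  unfold w0
  rw [norm_div, norm_inv, tau_norm]; norm_num

/-- equality case -/
theorem aligned_of_norm {z : Fin 4 → ℂ} (hz : ∀ k, ‖z k‖ ≤ 1) (h : 1 ≤ ‖∑ k, z k / 4‖) :
    ∃ e : ℂ, ‖e‖ = 1 ∧ ∀ k, z k = e := by
  set S : ℂ := ∑ k, z k / 4 with hS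
  have hS1 : ‖S‖ ≤ 1 := by
    calc ‖S‖ ≤ ∑ k, ‖z k / 4‖ := norm_sum_le _ _
      _ ≤ ∑ _k : Fin 4, (1/4 : ℝ) := by
          apply Finset.sum_le_sum
          intro k _
          rw [norm_div]
          have := hz k
          norm_num
          linarith
      _ = 1 := by simp
  have hSn : ‖S‖ = 1 := le_antisymm hS1 h
  refine ⟨S, hSn, ?_⟩
  have hre : ∀ k, ((starRingEnd ℂ) S * z k).re ≤ 1 := by
    intro k
    calc ((starRingEnd ℂ) S * z k).re ≤ ‖(starRingEnd ℂ) S * z k‖ := Complex.re_le_norm _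
      _ ≤ 1 := by
        rw [norm_mul, Complex.norm_conj, hSn, one_mul]; exact hz k
  have hsum : ∑ k, ((starRingEnd ℂ) S * z k).re = 4 := by
    have e1 : (starRingEnd ℂ) S * S = 1 := by
      rw [mul_comm, Complex.mul_conj, Complex.normSq_eq_norm_sq, hSn]; norm_num
    have e2 : ∑ k, (starRingEnd ℂ) S * z k = 4 * ((starRingEnd ℂ) S * S) := by
      rw [← Finset.mul_sum]
      have : ∑ k, z k = 4 * S := by
        rw [hS, Finset.mul_sum]
        apply Finset.sum_congr rfl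
        intro k _; ring
      rw [this]; ring
    rw [e1] at e2
    have := congrArg Complex.re e2
    rw [Complex.re_sum] at this
    rw [this]; norm_num
  have heq : ∀ k, ((starRingEnd ℂ) S * z k).re = 1 := by
    intro k
    by_contra hk
    have hlt : ((starRingEnd ℂ) S * z k).re < 1 := lt_of_le_of_ne (hre k) hk
    have : ∑ k, ((starRingEnd ℂ) S * z k).re < ∑ _k : Fin 4, (1:ℝ) :=
      Finset.sum_lt_sum (fun i _ => hre i) ⟨k, Finset.mem_univ _, hlt⟩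
    rw [hsum] at this
    simp at this
  intro k
  have h1 := heq k
  have h2 := hz k
  have h3 : ‖z k - S‖ ^ 2 ≤ 0 := by
    rw [← Complex.normSq_eq_norm_sq, Complex.normSq_sub, Complex.normSq_eq_norm_sq,
      Complex.normSq_eq_norm_sq, hSn]
    have h4 : (z k * (starRingEnd ℂ) S).re = 1 := by rw [mul_comm]; exact h1
    rw [h4]
    nlinarith [norm_nonneg (z k)]
  have h5 : ‖z k - S‖ = 0 := by
    have := sq_nonneg ‖z k - S‖
    exact pow_eq_zero_iff (two_ne_zero) |>.1 (le_antisymm h3 this)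
  exact sub_eq_zero.1 (norm_eq_zero.1 h5)

theorem chi_pow_four {D : Type*} [Fintype D] (ξ r : D → ZMod 4) : chi ξ r ^ 4 = 1 := by
  unfold chi
  rw [← Finset.prod_pow]
  apply Finset.prod_eq_one
  intro i _
  rw [← pow_mul, mul_comm, pow_mul, Complex.I_pow_four, one_pow]

/-- local relations -/
theorem local_rel {u : (Fin 2 → ZMod 4) → ℂ}
    (h : ∀ ρ, ∃ ξ, ∃ e, ∀ k, (tau k)⁻¹ * chi ξ (a0 k) * u (ρ + a0 k) = e) (ρ : Fin 2 → ZMod 4) :
    u (ρ + a0 0) * u (ρ + a0 1) * u (ρ + a0 2) * u (ρ + a0 3) = u (ρ + a0 0) ^ 4 ∧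
    u (ρ + a0 1) ^ 4 = Complex.I * u (ρ + a0 0) ^ 4 ∧
    u (ρ + a0 2) ^ 4 * Complex.I = u (ρ + a0 0) ^ 4 := by
  obtain ⟨ξ, e, he⟩ := h ρ
  have h0 := he 0
  have h1 := he 1
  have h2 := he 2
  have h3 := he 3
  have c0 := chi_pow_four ξ (a0 0)
  have c1 := chi_pow_four ξ (a0 1)
  have c2 := chi_pow_four ξ (a0 2)
  have z4 := zeta_pow_four
  have zn := zeta_ne
  simp only [tau] at h0 h1 h2 h3
  simp only [Matrix.cons_val_zero, Matrix.cons_val_one, Matrix.cons_val, inv_one, one_mul,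
    inv_inv] at h0 h1 h2 h3
  have hprod : chi ξ (a0 0) * chi ξ (a0 1) * chi ξ (a0 2) * chi ξ (a0 3) = 1 := by
    rw [← chi_add, ← chi_add, ← chi_add]
    have : a0 0 + a0 1 + a0 2 + a0 3 = 0 := by decide
    rw [this, chi_zero]
  have e0 : e ^ 4 = u (ρ + a0 0) ^ 4 := by
    rw [← h0, mul_pow, c0, one_mul]
  refine ⟨?_, ?_, ?_⟩
  · have : e ^ 4 = (chi ξ (a0 0) * u (ρ + a0 0)) * (zeta⁻¹ * chi ξ (a0 1) * u (ρ + a0 1)) *
        (zeta * chi ξ (a0 2) * u (ρ + a0 2)) * (chi ξ (a0 3) * u (ρ + a0 3)) := by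
      rw [h0, h1, h2, h3]; ring
    rw [← e0, this]
    have hz : zeta⁻¹ * zeta = 1 := inv_mul_cancel₀ zn
    calc u (ρ + a0 0) * u (ρ + a0 1) * u (ρ + a0 2) * u (ρ + a0 3)
        = (chi ξ (a0 0) * chi ξ (a0 1) * chi ξ (a0 2) * chi ξ (a0 3)) * (zeta⁻¹ * zeta) *
          (u (ρ + a0 0) * u (ρ + a0 1) * u (ρ + a0 2) * u (ρ + a0 3)) := by
          rw [hprod, hz]; ring
      _ = _ := by ring
  · have : e ^ 4 = (zeta⁻¹) ^ 4 * chi ξ (a0 1) ^ 4 * u (ρ + a0 1) ^ 4 := by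
      rw [← h1]; ring
    rw [c1, inv_pow, z4, e0] at this
    rw [this]
    have hI : Complex.I * Complex.I⁻¹ = 1 := mul_inv_cancel₀ Complex.I_ne_zero
    calc u (ρ + a0 1) ^ 4 = (Complex.I * Complex.I⁻¹) * u (ρ + a0 1) ^ 4 := by rw [hI, one_mul]
      _ = _ := by ring
  · have : e ^ 4 = zeta ^ 4 * chi ξ (a0 2) ^ 4 * u (ρ + a0 2) ^ 4 := by
      rw [← h2]; ring
    rw [c2, z4, e0] at this
    rw [this]; ring

theorem no_perfect {u : (Fin 2 → ZMod 4) → ℂ} (hu : ∀ ρ, u ρ ≠ 0)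
    (h : ∀ ρ, ∃ ξ, ∃ e, ∀ k, (tau k)⁻¹ * chi ξ (a0 k) * u (ρ + a0 k) = e) : False := by
  have L : ∀ x y : ZMod 4,
      u ![x - 1, y] * u ![x, y - 1] * u ![x + 1, y + 1] = u ![x, y] ^ 3 ∧
      u ![x - 1, y] ^ 4 = Complex.I * u ![x, y] ^ 4 ∧
      u ![x, y - 1] ^ 4 * Complex.I = u ![x, y] ^ 4 := by
    intro x y
    have := local_rel h ![x, y]
    have e0 : (![x, y] : Fin 2 → ZMod 4) + a0 0 = ![x, y] := by
      have : ∀ x y : ZMod 4, (![x, y] : Fin 2 → ZMod 4) + a0 0 = ![x, y] := by decide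
      exact this x y
    have e1 : (![x, y] : Fin 2 → ZMod 4) + a0 1 = ![x - 1, y] := by
      have : ∀ x y : ZMod 4, (![x, y] : Fin 2 → ZMod 4) + a0 1 = ![x - 1, y] := by decide
      exact this x y
    have e2 : (![x, y] : Fin 2 → ZMod 4) + a0 2 = ![x, y - 1] := by
      have : ∀ x y : ZMod 4, (![x, y] : Fin 2 → ZMod 4) + a0 2 = ![x, y - 1] := by decide
      exact this x y
    have e3 : (![x, y] : Fin 2 → ZMod 4) + a0 3 = ![x + 1, y + 1] := by
      have : ∀ x y : ZMod 4, (![x, y] : Fin 2 → ZMod 4) + a0 3 = ![x + 1, y + 1] := by decide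
      exact this x y
    rw [e0, e1, e2, e3] at this
    refine ⟨?_, this.2.1, this.2.2⟩
    have h1 := this.1
    have h2 := hu ![x, y]
    apply mul_left_cancel₀ h2
    calc u ![x, y] * (u ![x - 1, y] * u ![x, y - 1] * u ![x + 1, y + 1])
        = u ![x, y] * u ![x - 1, y] * u ![x, y - 1] * u ![x + 1, y + 1] := by ring
      _ = u ![x, y] ^ 4 := h1
      _ = _ := by ring
  have r00 := (L 0 0).1
  have r01 := (L 0 1).1
  have r10 := (L 1 0).1
  have r33 := (L 3 3).1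
  have r02 := (L 0 2).1
  have r03 := (L 0 3).1
  have r12 := (L 1 2).1
  have r31 := (L 3 1).1
  have n (a b : ZMod 4) : u ![a, b] ≠ 0 := hu _
  have q1 : (0 : ZMod 4) - 1 = 3 := by decide
  have q2 : (1 : ZMod 4) - 1 = 0 := by decide
  have q3 : (2 : ZMod 4) - 1 = 1 := by decide
  have q4 : (3 : ZMod 4) - 1 = 2 := by decide
  have q5 : (0 : ZMod 4) + 1 = 1 := by decide
  have q6 : (1 : ZMod 4) + 1 = 2 := by decide
  have q7 : (2 : ZMod 4) + 1 = 3 := by decide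
  have q8 : (3 : ZMod 4) + 1 = 0 := by decide
  simp only [q1, q2, q3, q4, q5, q6, q7, q8] at r00 r01 r10 r33 r02 r03 r12 r31
  -- the fourth powers
  have X : ∀ x y : ZMod 4, u ![x - 1, y] ^ 4 = Complex.I * u ![x, y] ^ 4 := fun x y => (L x y).2.1
  have Y : ∀ x y : ZMod 4, u ![x, y - 1] ^ 4 * Complex.I = u ![x, y] ^ 4 := fun x y => (L x y).2.2
  have x01 := X 1 1
  have x10 := X 1 0
  have y01 := Y 0 1
  have y02 := Y 0 2
  have y03 := Y 0 3
  have x11 := X 1 2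
  have x20 := X 2 0
  have x30 := X 3 0
  have x31 := X 3 1
  have x21 := X 2 1
  have x33 := X 3 3
  have x23 := X 2 3
  have x13 := X 1 3
  simp only [q1, q2, q3, q4] at x01 x10 y01 y02 y03 x11 x20 x30 x31 x21 x33 x23 x13
  have I2 : Complex.I ^ 2 = -1 := Complex.I_sq
  -- express everything through `U = u00 ^ 4`
  have hI := Complex.I_ne_zero
  have main : u ![0, 3] ^ 4 * u ![3, 1] ^ 4 * u ![1, 2] ^ 4 =
      u ![0, 1] ^ 4 * u ![1, 0] ^ 4 * u ![3, 3] ^ 4 := by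
    have hne : u ![3, 0] * u ![1, 1] * u ![0, 0] ^ 3 * u ![1, 3] * u ![2, 1] * u ![2, 3] *
        u ![3, 2] * u ![0, 2] ^ 3 ≠ 0 := by
      have := n
      simp [this]
    apply mul_left_cancel₀ hne
    calc u ![3, 0] * u ![1, 1] * u ![0, 0] ^ 3 * u ![1, 3] * u ![2, 1] * u ![2, 3] *
          u ![3, 2] * u ![0, 2] ^ 3 * (u ![0, 3] ^ 4 * u ![3, 1] ^ 4 * u ![1, 2] ^ 4)
        = (u ![3, 0] * u ![0, 3] * u ![1, 1]) * (u ![3, 1] * u ![0, 0] * u ![1, 2]) *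
          (u ![0, 0] * u ![1, 3] * u ![2, 1]) * (u ![2, 3] * u ![3, 2] * u ![0, 0]) *
          (u ![0, 2] ^ 3) * (u ![0, 3] ^ 3) * (u ![1, 2] ^ 3) * (u ![3, 1] ^ 3) := by ring
      _ = u ![0, 0] ^ 3 * u ![0, 1] ^ 3 * u ![1, 0] ^ 3 * u ![3, 3] ^ 3 *
          (u ![3, 2] * u ![0, 1] * u ![1, 3]) * (u ![3, 3] * u ![0, 2] * u ![1, 0]) *
          (u ![0, 2] * u ![1, 1] * u ![2, 3]) * (u ![2, 1] * u ![3, 0] * u ![0, 2]) := by
          rw [r00, r01, r10, r33, r02, r03, r12, r31]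
      _ = _ := by ring
  -- now evaluate
  have f01 : u ![0, 1] ^ 4 = u ![0, 0] ^ 4 * Complex.I := y01.symm
  have f02 : u ![0, 2] ^ 4 = u ![0, 0] ^ 4 * Complex.I ^ 2 := by rw [← y02, f01]; ring
  have f03 : u ![0, 3] ^ 4 = u ![0, 0] ^ 4 * Complex.I ^ 3 := by rw [← y03, f02]; ring
  have f10 : Complex.I * u ![1, 0] ^ 4 = u ![0, 0] ^ 4 := x10.symm
  have f12 : Complex.I * u ![1, 2] ^ 4 = u ![0, 0] ^ 4 * Complex.I ^ 2 := by rw [← x11, f02]
  have f31 : Complex.I ^ 3 * u ![3, 1] ^ 4 = u ![0, 0] ^ 4 * Complex.I := by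
    calc Complex.I ^ 3 * u ![3, 1] ^ 4 = Complex.I ^ 2 * (Complex.I * u ![3, 1] ^ 4) := by ring
      _ = Complex.I ^ 2 * u ![2, 1] ^ 4 := by rw [← x31]
      _ = Complex.I * (Complex.I * u ![2, 1] ^ 4) := by ring
      _ = Complex.I * u ![1, 1] ^ 4 := by rw [← x21]
      _ = u ![0, 1] ^ 4 := by rw [← x01]
      _ = _ := f01
  have f33 : Complex.I ^ 3 * u ![3, 3] ^ 4 = u ![0, 0] ^ 4 * Complex.I ^ 3 := by
    calc Complex.I ^ 3 * u ![3, 3] ^ 4 = Complex.I ^ 2 * (Complex.I * u ![3, 3] ^ 4) := by ring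
      _ = Complex.I ^ 2 * u ![2, 3] ^ 4 := by rw [← x33]
      _ = Complex.I * (Complex.I * u ![2, 3] ^ 4) := by ring
      _ = Complex.I * u ![1, 3] ^ 4 := by rw [← x23]
      _ = u ![0, 3] ^ 4 := by rw [← x13]
      _ = _ := f03
  -- multiply `main` by `I ^ 7`
  have m2 : Complex.I ^ 4 * (u ![0, 3] ^ 4 * u ![3, 1] ^ 4 * u ![1, 2] ^ 4) =
      u ![0, 0] ^ 12 * Complex.I ^ 6 := by
    calc Complex.I ^ 4 * (u ![0, 3] ^ 4 * u ![3, 1] ^ 4 * u ![1, 2] ^ 4)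
        = u ![0, 3] ^ 4 * (Complex.I ^ 3 * u ![3, 1] ^ 4) * (Complex.I * u ![1, 2] ^ 4) := by ring
      _ = _ := by rw [f03, f31, f12]; ring
  have m3 : Complex.I ^ 4 * (u ![0, 1] ^ 4 * u ![1, 0] ^ 4 * u ![3, 3] ^ 4) =
      u ![0, 0] ^ 12 * Complex.I ^ 4 := by
    calc Complex.I ^ 4 * (u ![0, 1] ^ 4 * u ![1, 0] ^ 4 * u ![3, 3] ^ 4)
        = u ![0, 1] ^ 4 * (Complex.I * u ![1, 0] ^ 4) * (Complex.I ^ 3 * u ![3, 3] ^ 4) := by ring
      _ = _ := by rw [f01, f10, f33]; ring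
  rw [main, m3] at m2
  have i4 : Complex.I ^ 4 = 1 := Complex.I_pow_four
  have i6 : Complex.I ^ 6 = -1 := by
    calc Complex.I ^ 6 = Complex.I ^ 4 * Complex.I ^ 2 := by ring
      _ = -1 := by rw [i4, I2]; ring
  rw [i4, i6] at m2
  have : u ![0, 0] ^ 12 = 0 := by linear_combination m2 / 2
  exact hu _ (pow_eq_zero_iff (by norm_num) |>.1 this)

end Pool.Agent.Lib.MP_26bfe6_an
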