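import Pool.Agent.Lib.MP_26bfe6_an.Base

/-!
# The base case of the `L^p` inequality: compactness argument
-/

set_option autoImplicit false

namespace Pool.Agent.Lib.MP_26bfe6_an

open Finset Filter Topology

/-- base group -/
abbrev G0 : Type := Fin 2 → ZMod 4

/-- the local transform -/
noncomputable def loc (H : G0 → ℂ) (ρ ξ : G0) : ℂ := ∑ k, w0 k * chi ξ (a0 k) * H (ρ + a0 k)

theorem loc_eq (H : G0 → ℂ) (ρ ξ : G0) :
    loc H ρ ξ = ∑ k, ((tau k)⁻¹ * chi ξ (a0 k) * H (ρ + a0 k)) / 4 := by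
  unfold loc w0
  apply Finset.sum_congr rfl
  intro k _; ring

theorem term_norm (H : G0 → ℂ) (ρ ξ : G0) (k : Fin 4) :
    ‖(tau k)⁻¹ * chi ξ (a0 k) * H (ρ + a0 k)‖ = ‖H (ρ + a0 k)‖ := by
  rw [norm_mul, norm_mul, norm_inv, tau_norm, chi_norm]; simp

theorem loc_norm_le (H : G0 → ℂ) (ρ ξ : G0) : ‖loc H ρ ξ‖ ≤ (∑ k, ‖H (ρ + a0 k)‖) / 4 := by
  rw [loc_eq, Finset.sum_div]
  refine (norm_sum_le _ _).trans (Finset.sum_le_sum fun k _ => ?_)
  rw [norm_div, term_norm]; norm_num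

theorem loc_pow_le (H : G0 → ℂ) (ρ ξ : G0) (m : ℕ) :
    ‖loc H ρ ξ‖ ^ (2 * m) ≤ ((∑ k, ‖H (ρ + a0 k)‖ ^ m) / 4) ^ 2 := by
  have h1 : ‖loc H ρ ξ‖ ^ m ≤ (∑ k, ‖H (ρ + a0 k)‖ ^ m) / 4 := by
    calc ‖loc H ρ ξ‖ ^ m ≤ ((∑ k, ‖H (ρ + a0 k)‖) / 4) ^ m :=
          pow_le_pow_left₀ (norm_nonneg _) (loc_norm_le H ρ ξ) m
      _ = (∑ k : Fin 4, (1/4 : ℝ) * ‖H (ρ + a0 k)‖) ^ m := by
          congr 1; rw [← Finset.mul_sum]; ring
      _ ≤ ∑ k : Fin 4, (1/4 : ℝ) * ‖H (ρ + a0 k)‖ ^ m := by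
          apply Real.pow_arith_mean_le_arith_mean_pow
          · intro i _; norm_num
          · simp
          · intro i _; exact norm_nonneg _
      _ = _ := by rw [← Finset.mul_sum]; ring
  calc ‖loc H ρ ξ‖ ^ (2 * m) = (‖loc H ρ ξ‖ ^ m) ^ 2 := by rw [← pow_mul, mul_comm]
    _ ≤ _ := pow_le_pow_left₀ (by positivity) h1 2

/-- uniqueness of the aligned character -/
theorem aligned_unique {H : G0 → ℂ} {ρ ξ ξ' : G0} {e e' : ℂ} (he : ‖e‖ = 1)
    (h : ∀ k, (tau k)⁻¹ * chi ξ (a0 k) * H (ρ + a0 k) = e)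
    (h' : ∀ k, (tau k)⁻¹ * chi ξ' (a0 k) * H (ρ + a0 k) = e') : ξ = ξ' := by
  have hz : a0 0 = 0 := by decide
  have e1 : e = e' := by
    have a := h 0
    have b := h' 0
    rw [hz, chi_zero] at a b
    rw [← a, ← b]
  have key : ∀ k, chi ξ (a0 k) = chi ξ' (a0 k) := by
    intro k
    have a := h k
    have b := h' k
    rw [← e1, ← a] at b
    have hH : H (ρ + a0 k) ≠ 0 := by
      intro h0
      rw [h0, mul_zero] at a
      rw [← a, norm_zero] at he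
      exact zero_ne_one he
    have ht : (tau k)⁻¹ ≠ 0 := inv_ne_zero (tau_ne k)
    have := mul_right_cancel₀ hH b
    exact (mul_left_cancel₀ ht this).symm
  have inj : ∀ a b : ZMod 4, Complex.I ^ (a.val * (3 : ZMod 4).val) =
      Complex.I ^ (b.val * (3 : ZMod 4).val) → a = b := by
    intro a b hab
    have h3 : (3 : ZMod 4).val = 3 := by decide
    rw [h3] at hab
    have I2 : Complex.I ^ 2 = -1 := Complex.I_sq
    have I3 : Complex.I ^ 3 = -Complex.I := by rw [pow_succ, I2]; ring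
    have I4 : Complex.I ^ 4 = 1 := Complex.I_pow_four
    have I6 : Complex.I ^ 6 = -1 := by rw [show 6 = 4 + 2 from rfl, pow_add, I4, I2]; ring
    have I9 : Complex.I ^ 9 = Complex.I := by
      rw [show 9 = 4 * 2 + 1 from rfl, pow_add, pow_mul, I4]; ring
    have v0 : (0 : ZMod 4).val = 0 := by decide
    have v1 : (1 : ZMod 4).val = 1 := by decide
    have v2 : (2 : ZMod 4).val = 2 := by decide
    have v3 : (3 : ZMod 4).val = 3 := by decide
    have c : ∀ x : ZMod 4, x = 0 ∨ x = 1 ∨ x = 2 ∨ x = 3 := by decide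
    have p0 : Complex.I ^ (0 * 3) = 1 := by norm_num
    have p1 : Complex.I ^ (1 * 3) = -Complex.I := by norm_num [I3]
    have p2 : Complex.I ^ (2 * 3) = -1 := by norm_num [I6]
    have p3 : Complex.I ^ (3 * 3) = Complex.I := by norm_num [I9]
    rcases c a with rfl | rfl | rfl | rfl <;> rcases c b with rfl | rfl | rfl | rfl <;>
      simp only [v0, v1, v2, v3, p0, p1, p2, p3] at hab ⊢ <;>
      (exfalso; simp [Complex.ext_iff] at hab) <;> norm_num at hab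
  funext i
  have k1 := key 1
  have k2 := key 2
  simp only [chi, Fin.prod_univ_two] at k1 k2
  have a10 : a0 1 0 = 3 := by decide
  have a11 : a0 1 1 = 0 := by decide
  have a20 : a0 2 0 = 0 := by decide
  have a21 : a0 2 1 = 3 := by decide
  rw [a10, a11] at k1
  rw [a20, a21] at k2
  simp only [ZMod.val_zero, mul_zero, pow_zero, mul_one, one_mul] at k1 k2
  fin_cases i
  · exact inj _ _ k1
  · exact inj _ _ k2

/-- sum over all shifts -/
theorem sum_shift (f : G0 → ℝ) : ∑ ρ, (∑ k, f (ρ + a0 k)) / 4 = ∑ σ, f σ := by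
  rw [← Finset.sum_div, Finset.sum_comm]
  have : ∀ k : Fin 4, ∑ ρ, f (ρ + a0 k) = ∑ σ, f σ := fun k =>
    Equiv.sum_comp (Equiv.addRight (a0 k)) f
  simp_rw [this]
  simp

theorem base_ineq : ∃ m : ℕ, 1 ≤ m ∧ ∃ c : ℝ, 0 ≤ c ∧ c < 1 ∧ LpB (2 * m) c a0 w0 (chi (D := Fin 2)) := by
  by_contra hcon
  push Not at hcon
  -- sequence of counterexamples
  have hseq : ∀ n : ℕ, ∃ H : G0 → ℂ, (∀ σ, ‖H σ‖ ≤ 1) ∧ (∃ σ, ‖H σ‖ = 1) ∧
      (1 - 1 / ((n : ℝ) + 1)) * ∑ σ, (‖H σ‖ ^ (n + 1)) ^ 2 <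
        ∑ ρ, ∑ ξ, ‖loc H ρ ξ‖ ^ (2 * (n + 1)) := by
    intro n
    have hc0 : 0 ≤ 1 - 1 / ((n : ℝ) + 1) := by
      rw [sub_nonneg, div_le_one (by positivity)]; linarith [Nat.cast_nonneg (α := ℝ) n]
    have hc1 : 1 - 1 / ((n : ℝ) + 1) < 1 := by
      have : 0 < 1 / ((n : ℝ) + 1) := by positivity
      linarith
    have := hcon (n + 1) (by omega) (1 - 1 / ((n : ℝ) + 1)) hc0 hc1
    unfold LpB at this
    push Not at this
    obtain ⟨H, hH⟩ := this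
    -- normalise
    obtain ⟨σ₀, -, hσ₀⟩ := Finset.exists_max_image (Finset.univ : Finset G0) (fun σ => ‖H σ‖)
      ⟨0, Finset.mem_univ _⟩
    have hpos : 0 < ‖H σ₀‖ := by
      by_contra h0
      have hz : ∀ σ, H σ = 0 := by
        intro σ
        have h1 := hσ₀ σ (Finset.mem_univ _)
        have : ‖H σ‖ ≤ 0 := h1.trans (not_lt.1 h0)
        exact norm_le_zero_iff.1 this
      simp only [hz, mul_zero, Finset.sum_const_zero, norm_zero] at hH
      have : (0:ℝ) ^ (2 * (n + 1)) = 0 := by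
        apply zero_pow; omega
      simp [this] at hH
    set t : ℝ := ‖H σ₀‖ with ht
    refine ⟨fun σ => H σ / t, ?_, ⟨σ₀, ?_⟩, ?_⟩
    · intro σ
      rw [norm_div, Complex.norm_real, Real.norm_of_nonneg hpos.le, div_le_one hpos]
      exact hσ₀ σ (Finset.mem_univ _)
    · rw [norm_div, Complex.norm_real, Real.norm_of_nonneg hpos.le, ← ht, div_self hpos.ne']
    · have hloc : ∀ ρ ξ, loc (fun σ => H σ / t) ρ ξ = loc H ρ ξ / t := by
        intro ρ ξ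
        unfold loc
        rw [Finset.sum_div]
        apply Finset.sum_congr rfl
        intro k _; ring
      simp_rw [hloc]
      have e1 : ∀ σ, (‖H σ / (t:ℂ)‖ ^ (n + 1)) ^ 2 = ‖H σ‖ ^ (2 * (n + 1)) / t ^ (2 * (n + 1)) := by
        intro σ
        rw [norm_div, Complex.norm_real, Real.norm_of_nonneg hpos.le, ← pow_mul, div_pow,
          mul_comm (n + 1) 2]
      have e2 : ∀ ρ ξ, ‖loc H ρ ξ / (t:ℂ)‖ ^ (2 * (n + 1)) =
          ‖loc H ρ ξ‖ ^ (2 * (n + 1)) / t ^ (2 * (n + 1)) := by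
        intro ρ ξ
        rw [norm_div, Complex.norm_real, Real.norm_of_nonneg hpos.le, div_pow]
      simp_rw [e1, e2, ← Finset.sum_div]
      rw [← mul_div_assoc]
      exact div_lt_div_of_pos_right hH (by positivity)
  choose H hH1 hH2 hH3 using hseq
  -- compactness
  let K : Set ((G0 → ℂ) × (G0 → ℝ)) :=
    (Set.pi Set.univ fun _ => Metric.closedBall (0:ℂ) 1) ×ˢ
      (Set.pi Set.univ fun _ => Set.Icc (0:ℝ) 1)
  have hK : IsCompact K :=
    (isCompact_univ_pi fun _ => isCompact_closedBall _ _).prod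
      (isCompact_univ_pi fun _ => isCompact_Icc)
  have hmem : ∀ n, (H n, fun σ => ‖H n σ‖ ^ (n + 1)) ∈ K := by
    intro n
    refine ⟨fun σ _ => ?_, fun σ _ => ⟨by positivity, ?_⟩⟩
    · rw [mem_closedBall_zero_iff]; exact hH1 n σ
    · exact pow_le_one₀ (norm_nonneg _) (hH1 n σ)
  obtain ⟨⟨Hl, s⟩, hl, φ, hφ, hlim⟩ := hK.tendsto_subseq hmem
  have hlim1 : ∀ σ, Tendsto (fun n => H (φ n) σ) atTop (𝓝 (Hl σ)) := by
    intro σ
    have h1 : Tendsto (fun n => (H (φ n), fun σ => ‖H (φ n) σ‖ ^ (φ n + 1)).1 σ) atTop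
        (𝓝 ((Hl, s).1 σ)) :=
      ((continuous_apply σ).comp continuous_fst).continuousAt.tendsto.comp hlim
    exact h1
  have hlim2 : ∀ σ, Tendsto (fun n => ‖H (φ n) σ‖ ^ (φ n + 1)) atTop (𝓝 (s σ)) := by
    intro σ
    have h1 : Tendsto (fun n => (H (φ n), fun σ => ‖H (φ n) σ‖ ^ (φ n + 1)).2 σ) atTop
        (𝓝 ((Hl, s).2 σ)) :=
      ((continuous_apply σ).comp continuous_snd).continuousAt.tendsto.comp hlim
    exact h1
  have hHl1 : ∀ σ, ‖Hl σ‖ ≤ 1 := by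
    intro σ
    have := hl.1 σ (Set.mem_univ _)
    rwa [mem_closedBall_zero_iff] at this
  have hs0 : ∀ σ, 0 ≤ s σ := fun σ => (hl.2 σ (Set.mem_univ _)).1
  -- limit transform
  have hlocl : ∀ ρ ξ, Tendsto (fun n => loc (H (φ n)) ρ ξ) atTop (𝓝 (loc Hl ρ ξ)) := by
    intro ρ ξ
    unfold loc
    apply tendsto_finsetSum
    intro k _
    exact (hlim1 _).const_mul _
  -- upper bounds
  classical
  let U : ℕ → G0 → G0 → ℝ := fun n ρ ξ =>
    if ‖loc Hl ρ ξ‖ < 1 then ‖loc (H (φ n)) ρ ξ‖ ^ (2 * (φ n + 1))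
    else ((∑ k, ‖H (φ n) (ρ + a0 k)‖ ^ (φ n + 1)) / 4) ^ 2
  let Ul : G0 → G0 → ℝ := fun ρ ξ =>
    if ‖loc Hl ρ ξ‖ < 1 then 0 else ((∑ k, s (ρ + a0 k)) / 4) ^ 2
  have hU : ∀ n ρ ξ, ‖loc (H (φ n)) ρ ξ‖ ^ (2 * (φ n + 1)) ≤ U n ρ ξ := by
    intro n ρ ξ
    simp only [U]
    split_ifs with hlt
    · exact le_rfl
    · exact loc_pow_le _ _ _ _
  have hUl : ∀ ρ ξ, Tendsto (fun n => U n ρ ξ) atTop (𝓝 (Ul ρ ξ)) := by
    intro ρ ξ
    simp only [U, Ul]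
    split_ifs with hlt
    · -- geometric decay
      have h1 : Tendsto (fun n => ‖loc (H (φ n)) ρ ξ‖) atTop (𝓝 ‖loc Hl ρ ξ‖) := (hlocl ρ ξ).norm
      set r := (1 + ‖loc Hl ρ ξ‖) / 2 with hr
      have hr1 : r < 1 := by rw [hr]; linarith
      have hr0 : 0 ≤ r := by rw [hr]; positivity
      have h2 : ∀ᶠ n in atTop, ‖loc (H (φ n)) ρ ξ‖ ≤ r := by
        have : ‖loc Hl ρ ξ‖ < r := by rw [hr]; linarith
        exact (h1.eventually (gt_mem_nhds this)).mono fun n hn => hn.le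
      have h3 : Tendsto (fun n => r ^ (2 * (φ n + 1))) atTop (𝓝 0) := by
        have h4 : Tendsto (fun n => 2 * (φ n + 1)) atTop atTop := by
          apply tendsto_atTop_mono (fun n => ?_) hφ.tendsto_atTop
          show φ n ≤ 2 * (φ n + 1)
          omega
        exact (tendsto_pow_atTop_nhds_zero_of_lt_one hr0 hr1).comp h4
      refine squeeze_zero' (Eventually.of_forall fun n => by positivity) ?_ h3
      filter_upwards [h2] with n hn
      exact pow_le_pow_left₀ (norm_nonneg _) hn _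
    · apply Tendsto.pow
      apply Tendsto.div_const
      apply tendsto_finsetSum
      intro k _
      exact hlim2 _
  -- the limit inequality
  have hc : Tendsto (fun n => (1 - 1 / ((φ n : ℝ) + 1))) atTop (𝓝 1) := by
    have h1 : Tendsto (fun n : ℕ => 1 / ((n : ℝ) + 1)) atTop (𝓝 0) :=
      tendsto_one_div_add_atTop_nhds_zero_nat
    have h2 := (h1.comp hφ.tendsto_atTop).const_sub 1
    simpa using h2
  have hmain : ∑ σ, s σ ^ 2 ≤ ∑ ρ, ∑ ξ, Ul ρ ξ := by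
    have hL : Tendsto (fun n => (1 - 1 / ((φ n : ℝ) + 1)) *
        ∑ σ, (‖H (φ n) σ‖ ^ (φ n + 1)) ^ 2) atTop (𝓝 (1 * ∑ σ, s σ ^ 2)) := by
      apply hc.mul
      apply tendsto_finsetSum
      intro σ _
      exact (hlim2 σ).pow 2
    have hR : Tendsto (fun n => ∑ ρ, ∑ ξ, U n ρ ξ) atTop (𝓝 (∑ ρ, ∑ ξ, Ul ρ ξ)) := by
      apply tendsto_finsetSum
      intro ρ _
      apply tendsto_finsetSum
      intro ξ _
      exact hUl ρ ξ
    rw [one_mul] at hL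
    refine le_of_tendsto_of_tendsto' hL hR fun n => ?_
    refine (hH3 (φ n)).le.trans ?_
    exact Finset.sum_le_sum fun ρ _ => Finset.sum_le_sum fun ξ _ => hU n ρ ξ
  -- aligned points
  have hal : ∀ ρ ξ, ¬ ‖loc Hl ρ ξ‖ < 1 → ∃ e : ℂ, ‖e‖ = 1 ∧
      ∀ k, (tau k)⁻¹ * chi ξ (a0 k) * Hl (ρ + a0 k) = e := by
    intro ρ ξ h
    apply aligned_of_norm
    · intro k; rw [term_norm]; exact hHl1 _
    · rw [← loc_eq]; exact not_lt.1 h
  have hbound : ∀ ρ, ∑ ξ, Ul ρ ξ ≤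
      if (∃ ξ, ¬ ‖loc Hl ρ ξ‖ < 1) then ((∑ k, s (ρ + a0 k)) / 4) ^ 2 else 0 := by
    intro ρ
    split_ifs with hex
    · obtain ⟨ξ₀, hξ₀⟩ := hex
      have : ∀ ξ, ξ ≠ ξ₀ → Ul ρ ξ = 0 := by
        intro ξ hne
        simp only [Ul]
        rw [if_pos]
        by_contra hnl
        obtain ⟨e, he, h1⟩ := hal ρ ξ hnl
        obtain ⟨e', he', h2⟩ := hal ρ ξ₀ hξ₀
        exact hne (aligned_unique he h1 h2)
      rw [Finset.sum_eq_single ξ₀ (fun ξ _ hne => this ξ hne)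
        (fun h => absurd (Finset.mem_univ _) h)]
      simp only [Ul]
      rw [if_neg hξ₀]
    · push Not at hex
      apply le_of_eq
      apply Finset.sum_eq_zero
      intro ξ _
      simp only [Ul]
      rw [if_pos (hex ξ)]
  -- compare with quadratic means
  have hQ : ∀ ρ, ((∑ k, s (ρ + a0 k)) / 4) ^ 2 ≤ (∑ k, s (ρ + a0 k) ^ 2) / 4 := by
    intro ρ
    simp only [Fin.sum_univ_four]
    nlinarith [sq_nonneg (s (ρ + a0 0) - s (ρ + a0 1)), sq_nonneg (s (ρ + a0 0) - s (ρ + a0 2)),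
      sq_nonneg (s (ρ + a0 0) - s (ρ + a0 3)), sq_nonneg (s (ρ + a0 1) - s (ρ + a0 2)),
      sq_nonneg (s (ρ + a0 1) - s (ρ + a0 3)), sq_nonneg (s (ρ + a0 2) - s (ρ + a0 3))]
  have hle : ∀ ρ, ∑ ξ, Ul ρ ξ ≤ (∑ k, s (ρ + a0 k) ^ 2) / 4 := by
    intro ρ
    refine (hbound ρ).trans ?_
    split_ifs
    · exact hQ ρ
    · have : 0 ≤ ∑ k, s (ρ + a0 k) ^ 2 := Finset.sum_nonneg fun k _ => sq_nonneg _
      linarith
  have heq : ∀ ρ, ∑ ξ, Ul ρ ξ = (∑ k, s (ρ + a0 k) ^ 2) / 4 := by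
    intro ρ
    by_contra hne
    have hlt : ∑ ξ, Ul ρ ξ < (∑ k, s (ρ + a0 k) ^ 2) / 4 := lt_of_le_of_ne (hle ρ) hne
    have : ∑ ρ, ∑ ξ, Ul ρ ξ < ∑ ρ, (∑ k, s (ρ + a0 k) ^ 2) / 4 :=
      Finset.sum_lt_sum (fun ρ _ => hle ρ) ⟨ρ, Finset.mem_univ _, hlt⟩
    rw [sum_shift (fun σ => s σ ^ 2)] at this
    linarith
  -- nonvanishing
  have hs1 : 1 ≤ ∑ σ, s σ ^ 2 := by
    have hL : Tendsto (fun n => ∑ σ, (‖H (φ n) σ‖ ^ (φ n + 1)) ^ 2) atTop (𝓝 (∑ σ, s σ ^ 2)) := by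
      apply tendsto_finsetSum
      intro σ _
      exact (hlim2 σ).pow 2
    refine ge_of_tendsto' hL fun n => ?_
    obtain ⟨σ, hσ⟩ := hH2 (φ n)
    have : (‖H (φ n) σ‖ ^ (φ n + 1)) ^ 2 ≤ ∑ σ, (‖H (φ n) σ‖ ^ (φ n + 1)) ^ 2 :=
      Finset.single_le_sum (f := fun σ => (‖H (φ n) σ‖ ^ (φ n + 1)) ^ 2)
        (fun σ _ => sq_nonneg _) (Finset.mem_univ σ)
    rw [hσ] at this
    simpa using this
  have hstep : ∀ σ, s σ ≠ 0 → (∃ ξ, ¬ ‖loc Hl σ ξ‖ < 1) ∧ ∀ k, s (σ + a0 k) ≠ 0 := by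
    intro σ hσ
    have h1 := heq σ
    have h2 := hbound σ
    have hz : a0 0 = 0 := by decide
    have hpos : 0 < (∑ k, s (σ + a0 k) ^ 2) / 4 := by
      have : s (σ + a0 0) ^ 2 ≤ ∑ k, s (σ + a0 k) ^ 2 :=
        Finset.single_le_sum (f := fun k => s (σ + a0 k) ^ 2)
          (fun k _ => sq_nonneg _) (Finset.mem_univ 0)
      rw [hz, add_zero] at this
      have h3 : 0 < s σ ^ 2 := by positivity
      linarith
    have hex : ∃ ξ, ¬ ‖loc Hl σ ξ‖ < 1 := by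
      by_contra hno
      rw [if_neg hno] at h2
      linarith
    refine ⟨hex, ?_⟩
    rw [if_pos hex, h1] at h2
    simp only [Fin.sum_univ_four] at h2
    have hz' : s (σ + a0 0) = s σ := by rw [hz, add_zero]
    have eq1 : s (σ + a0 1) = s (σ + a0 0) := by
      nlinarith [sq_nonneg (s (σ + a0 0) - s (σ + a0 1)), sq_nonneg (s (σ + a0 0) - s (σ + a0 2)),
      sq_nonneg (s (σ + a0 0) - s (σ + a0 3)), sq_nonneg (s (σ + a0 1) - s (σ + a0 2)),
      sq_nonneg (s (σ + a0 1) - s (σ + a0 3)), sq_nonneg (s (σ + a0 2) - s (σ + a0 3))]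
    have eq2 : s (σ + a0 2) = s (σ + a0 0) := by
      nlinarith [sq_nonneg (s (σ + a0 0) - s (σ + a0 1)), sq_nonneg (s (σ + a0 0) - s (σ + a0 2)),
      sq_nonneg (s (σ + a0 0) - s (σ + a0 3)), sq_nonneg (s (σ + a0 1) - s (σ + a0 2)),
      sq_nonneg (s (σ + a0 1) - s (σ + a0 3)), sq_nonneg (s (σ + a0 2) - s (σ + a0 3))]
    have eq3 : s (σ + a0 3) = s (σ + a0 0) := by
      nlinarith [sq_nonneg (s (σ + a0 0) - s (σ + a0 1)), sq_nonneg (s (σ + a0 0) - s (σ + a0 2)),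
      sq_nonneg (s (σ + a0 0) - s (σ + a0 3)), sq_nonneg (s (σ + a0 1) - s (σ + a0 2)),
      sq_nonneg (s (σ + a0 1) - s (σ + a0 3)), sq_nonneg (s (σ + a0 2) - s (σ + a0 3))]
    intro k
    fin_cases k
    · simp only [Fin.zero_eta]; rw [hz']; exact hσ
    · show s (σ + a0 1) ≠ 0
      rw [eq1, hz']; exact hσ
    · show s (σ + a0 2) ≠ 0
      rw [eq2, hz']; exact hσ
    · show s (σ + a0 3) ≠ 0
      rw [eq3, hz']; exact hσ
  obtain ⟨σ₀, hσ₀⟩ : ∃ σ, s σ ≠ 0 := by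
    by_contra hno
    push Not at hno
    simp only [hno] at hs1
    norm_num at hs1
  -- propagate
  have hall : ∀ σ, s σ ≠ 0 := by
    have st1 : ∀ (n : ℕ) σ, s σ ≠ 0 → s (σ + n • a0 1) ≠ 0 := by
      intro n
      induction n with
      | zero => intro σ h; simpa using h
      | succ n ih =>
        intro σ h
        rw [succ_nsmul, ← add_assoc]
        exact (hstep _ (ih σ h)).2 1
    have st2 : ∀ (n : ℕ) σ, s σ ≠ 0 → s (σ + n • a0 2) ≠ 0 := by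
      intro n
      induction n with
      | zero => intro σ h; simpa using h
      | succ n ih =>
        intro σ h
        rw [succ_nsmul, ← add_assoc]
        exact (hstep _ (ih σ h)).2 2
    intro σ
    have hgen : ∀ d : G0, ∃ n m : Fin 4, d = n.val • a0 1 + m.val • a0 2 := by decide
    obtain ⟨n, m, hd⟩ := hgen (σ - σ₀)
    have : σ = (σ₀ + n.val • a0 1) + m.val • a0 2 := by
      rw [add_assoc, ← hd]; abel
    rw [this]
    exact st2 _ _ (st1 _ _ hσ₀)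
  -- contradiction
  apply no_perfect (u := Hl)
  · intro ρ
    obtain ⟨⟨ξ, hξ⟩, -⟩ := hstep ρ (hall ρ)
    obtain ⟨e, he, h⟩ := hal ρ ξ hξ
    have h0 := h 0
    have hz : a0 0 = 0 := by decide
    rw [hz, add_zero] at h0
    intro hzero
    rw [hzero, mul_zero] at h0
    rw [← h0, norm_zero] at he
    exact zero_ne_one he
  · intro ρ
    obtain ⟨⟨ξ, hξ⟩, -⟩ := hstep ρ (hall ρ)
    obtain ⟨e, he, h⟩ := hal ρ ξ hξ
    exact ⟨ξ, e, h⟩

end Pool.Agent.Lib.MP_26bfe6_an
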