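import Pool.Agent.Lib.MP_26bfe6_an.Orbit

/-!
# The bound for single-transformation correlation sequences
-/

set_option autoImplicit false

namespace Pool.Agent.Lib.MP_26bfe6_an

open Finset Filter Topology MeasureTheory

variable {D : Type*} [Fintype D] [DecidableEq D] {K : Type*} [Fintype K]

/-- the time -/
def tt (a : K → D → ZMod 4) (ρ : D → ZMod 4) (κ : K) (m s : D → ℕ) : D → ℕ :=
  3 • uu a ρ κ m + vv ρ s

section
variable {X : Type*} [MeasurableSpace X] {μ : Measure X} [IsProbabilityMeasure μ] {T : X → X}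
  {f₁ f₂ f₃ : X → ℂ}

theorem integrable_triple (hT : MeasurePreserving T μ μ) (h₁ : AEStronglyMeasurable f₁ μ)
    (h₂ : AEStronglyMeasurable f₂ μ) (h₃ : AEStronglyMeasurable f₃ μ) {C : ℝ}
    (b₁ : ∀ᵐ x ∂μ, ‖f₁ x‖ ≤ C) (b₂ : ∀ᵐ x ∂μ, ‖f₂ x‖ ≤ C) (b₃ : ∀ᵐ x ∂μ, ‖f₃ x‖ ≤ C)
    (e₁ e₂ e₃ : ℕ) :
    Integrable (fun x => f₃ (T^[e₃] x) * f₂ (T^[e₂] x) * f₁ (T^[e₁] x)) μ := by
  have m₁ := h₁.comp_measurePreserving (hT.iterate e₁)
  have m₂ := h₂.comp_measurePreserving (hT.iterate e₂)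
  have m₃ := h₃.comp_measurePreserving (hT.iterate e₃)
  have c₁ := (hT.iterate e₁).quasiMeasurePreserving.ae b₁
  have c₂ := (hT.iterate e₂).quasiMeasurePreserving.ae b₂
  have c₃ := (hT.iterate e₃).quasiMeasurePreserving.ae b₃
  apply Integrable.of_bound ((m₃.mul m₂).mul m₁) (C * C * C)
  filter_upwards [c₁, c₂, c₃] with x d₁ d₂ d₃
  have hC : 0 ≤ C := (norm_nonneg _).trans d₁
  simp only [Pi.mul_apply, Function.comp_apply, norm_mul]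
  exact mul_le_mul (mul_le_mul d₃ d₂ (norm_nonneg _) hC) d₁ (norm_nonneg _) (by positivity)

theorem shift_triple (hT : MeasurePreserving T μ μ) (h₁ : AEStronglyMeasurable f₁ μ)
    (h₂ : AEStronglyMeasurable f₂ μ) (h₃ : AEStronglyMeasurable f₃ μ) (e₁ e₂ e₃ j : ℕ) :
    ∫ x, f₃ (T^[e₃] x) * f₂ (T^[e₂] x) * f₁ (T^[e₁] x) ∂μ =
      ∫ x, f₃ (T^[e₃ + j] x) * f₂ (T^[e₂ + j] x) * f₁ (T^[e₁ + j] x) ∂μ := by
  have m₁ := h₁.comp_measurePreserving (hT.iterate e₁)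
  have m₂ := h₂.comp_measurePreserving (hT.iterate e₂)
  have m₃ := h₃.comp_measurePreserving (hT.iterate e₃)
  have hm := (m₃.mul m₂).mul m₁
  have hj := hT.iterate j
  have hm' : AEStronglyMeasurable (f₃ ∘ T^[e₃] * f₂ ∘ T^[e₂] * f₁ ∘ T^[e₁])
      (Measure.map T^[j] μ) := by rw [hj.map_eq]; exact hm
  have := integral_map (μ := μ) hj.measurable.aemeasurable hm'
  rw [hj.map_eq] at this
  simp only [Pi.mul_apply, Function.comp_apply] at this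
  rw [this]
  simp_rw [Function.iterate_add_apply]

theorem dot_le_dot {q v w : D → ℕ} (h : ∀ i, v i ≤ w i) : dot q v ≤ dot q w :=
  Finset.sum_le_sum fun i _ => Nat.mul_le_mul_right _ (h i)

/-- The bound on the averages of a single-transformation correlation sequence. -/
theorem B_bound {a : K → D → ZMod 4} {w : K → ℂ} {M : ℕ} (hM : 0 < M) {δ : ℝ}
    (hVV : ∀ φ : (D → ℕ) → ℂ, (∀ v, ‖φ v‖ ≤ 1) → ∀ Θ, VV a w M φ Θ ≤ δ) (R : ℕ) (hR : 0 < R)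
    (q : D → ℕ) (hT : MeasurePreserving T μ μ) (h₁ : AEStronglyMeasurable f₁ μ)
    (h₂ : AEStronglyMeasurable f₂ μ) (h₃ : AEStronglyMeasurable f₃ μ) {C : ℝ} (hC : 0 < C)
    (b₁ : ∀ᵐ x ∂μ, ‖f₁ x‖ ≤ C) (b₂ : ∀ᵐ x ∂μ, ‖f₂ x‖ ≤ C) (b₃ : ∀ᵐ x ∂μ, ‖f₃ x‖ ≤ C) :
    ‖∑ ρ : D → ZMod 4, ∑ κ, ∑ m ∈ box D M, ∑ s ∈ box D R, w κ *
      ∫ x, f₃ (T^[2 * dot q (tt a ρ κ m s)] x) * f₂ (T^[3 * dot q (tt a ρ κ m s)] x) *
        f₁ (T^[6 * dot q (tt a ρ κ m s)] x) ∂μ‖ ≤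
      C ^ 3 * ((4:ℝ) ^ Fintype.card D * δ * (M:ℝ) ^ Fintype.card D *
        (Real.sqrt ((R : ℝ) ^ Fintype.card D) *
          Real.sqrt (((R + 4 * M : ℕ) : ℝ) ^ Fintype.card D))) := by
  set Z : ℕ := dot q (fun _ => 24 * M + 12 * R + 48) with hZ
  -- shifting
  have hshift : ∀ ρ : D → ZMod 4, ∀ κ : K, ∀ m ∈ box D M, ∀ s ∈ box D R,
      ∫ x, f₃ (T^[2 * dot q (tt a ρ κ m s)] x) * f₂ (T^[3 * dot q (tt a ρ κ m s)] x) *
        f₁ (T^[6 * dot q (tt a ρ κ m s)] x) ∂μ =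
      ∫ x, f₃ (T^[Z - dot q (vv ρ s)] x) * f₂ (T^[Z + 3 * dot q (uu a ρ κ m)] x) *
        f₁ (T^[Z + 12 * dot q (uu a ρ κ m) + 3 * dot q (vv ρ s)] x) ∂μ := by
    intro ρ κ m hm s hs
    have hle : dot q (vv ρ s) + 2 * dot q (tt a ρ κ m s) ≤ Z := by
      rw [← dot_smul, ← dot_add, hZ]
      apply dot_le_dot
      intro i
      have h1 := mem_box.1 hm i
      have h2 := mem_box.1 hs i
      have h3 : ((ρ + a κ) i).val < 4 := ZMod.val_lt _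
      have h4 : (ρ i).val < 4 := ZMod.val_lt _
      simp only [Pi.add_apply] at h3
      simp only [tt, uu, vv, lift, Pi.add_apply, Pi.smul_apply, smul_eq_mul]
      have h5 : (4 : D → ℕ) i = 4 := rfl
      rw [h5]
      omega
    have htt : dot q (tt a ρ κ m s) = 3 * dot q (uu a ρ κ m) + dot q (vv ρ s) := by
      unfold tt
      rw [dot_add, dot_smul]
    rw [shift_triple hT h₁ h₂ h₃ _ _ _ (Z - (dot q (vv ρ s) + 2 * dot q (tt a ρ κ m s)))]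
    have e3 : 2 * dot q (tt a ρ κ m s) + (Z - (dot q (vv ρ s) + 2 * dot q (tt a ρ κ m s))) =
        Z - dot q (vv ρ s) := by omega
    have e2 : 3 * dot q (tt a ρ κ m s) + (Z - (dot q (vv ρ s) + 2 * dot q (tt a ρ κ m s))) =
        Z + 3 * dot q (uu a ρ κ m) := by omega
    have e1 : 6 * dot q (tt a ρ κ m s) + (Z - (dot q (vv ρ s) + 2 * dot q (tt a ρ κ m s))) =
        Z + 12 * dot q (uu a ρ κ m) + 3 * dot q (vv ρ s) := by omega
    rw [e3, e2, e1]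
  have hsum : ∑ ρ : D → ZMod 4, ∑ κ, ∑ m ∈ box D M, ∑ s ∈ box D R, w κ *
      ∫ x, f₃ (T^[2 * dot q (tt a ρ κ m s)] x) * f₂ (T^[3 * dot q (tt a ρ κ m s)] x) *
        f₁ (T^[6 * dot q (tt a ρ κ m s)] x) ∂μ =
      ∫ x, ∑ ρ : D → ZMod 4, ∑ κ, ∑ m ∈ box D M, ∑ s ∈ box D R, w κ *
        (f₃ (T^[Z - dot q (vv ρ s)] x) * f₂ (T^[Z + 3 * dot q (uu a ρ κ m)] x) *
        f₁ (T^[Z + 12 * dot q (uu a ρ κ m) + 3 * dot q (vv ρ s)] x)) ∂μ := by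
    have hint : ∀ (ρ : D → ZMod 4) (κ : K) (m s : D → ℕ), Integrable (fun x => w κ *
        (f₃ (T^[Z - dot q (vv ρ s)] x) * f₂ (T^[Z + 3 * dot q (uu a ρ κ m)] x) *
        f₁ (T^[Z + 12 * dot q (uu a ρ κ m) + 3 * dot q (vv ρ s)] x))) μ := fun ρ κ m s =>
      (integrable_triple hT h₁ h₂ h₃ b₁ b₂ b₃ _ _ _).const_mul _
    rw [integral_finsetSum _ fun ρ _ => integrable_finsetSum _ fun κ _ =>
      integrable_finsetSum _ fun m _ => integrable_finsetSum _ fun s _ => hint ρ κ m s]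
    apply Finset.sum_congr rfl
    intro ρ _
    rw [integral_finsetSum _ fun κ _ =>
      integrable_finsetSum _ fun m _ => integrable_finsetSum _ fun s _ => hint ρ κ m s]
    apply Finset.sum_congr rfl
    intro κ _
    rw [integral_finsetSum _ fun m _ => integrable_finsetSum _ fun s _ => hint ρ κ m s]
    apply Finset.sum_congr rfl
    intro m hm
    rw [integral_finsetSum _ fun s _ => hint ρ κ m s]
    apply Finset.sum_congr rfl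
    intro s hs
    rw [integral_const_mul, hshift ρ κ m hm s hs]
  rw [hsum]
  have hae : ∀ᵐ x ∂μ, ‖∑ ρ : D → ZMod 4, ∑ κ, ∑ m ∈ box D M, ∑ s ∈ box D R, w κ *
        (f₃ (T^[Z - dot q (vv ρ s)] x) * f₂ (T^[Z + 3 * dot q (uu a ρ κ m)] x) *
        f₁ (T^[Z + 12 * dot q (uu a ρ κ m) + 3 * dot q (vv ρ s)] x))‖ ≤
      C ^ 3 * ((4:ℝ) ^ Fintype.card D * δ * (M:ℝ) ^ Fintype.card D *
        (Real.sqrt ((R : ℝ) ^ Fintype.card D) *
          Real.sqrt (((R + 4 * M : ℕ) : ℝ) ^ Fintype.card D))) := by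
    have c₁ : ∀ᵐ x ∂μ, ∀ j : ℕ, ‖f₁ (T^[j] x)‖ ≤ C :=
      ae_all_iff.2 fun j => (hT.iterate j).quasiMeasurePreserving.ae b₁
    have c₂ : ∀ᵐ x ∂μ, ∀ j : ℕ, ‖f₂ (T^[j] x)‖ ≤ C :=
      ae_all_iff.2 fun j => (hT.iterate j).quasiMeasurePreserving.ae b₂
    have c₃ : ∀ᵐ x ∂μ, ∀ j : ℕ, ‖f₃ (T^[j] x)‖ ≤ C :=
      ae_all_iff.2 fun j => (hT.iterate j).quasiMeasurePreserving.ae b₃
    filter_upwards [c₁, c₂, c₃] with x d₁ d₂ d₃
    have hCc : (C : ℂ) ≠ 0 := by exact_mod_cast hC.ne'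
    have hnorm : ∀ (g : X → ℂ), (∀ j : ℕ, ‖g (T^[j] x)‖ ≤ C) →
        ∀ j : ℕ, ‖(C : ℂ)⁻¹ * g (T^[j] x)‖ ≤ 1 := by
      intro g hg j
      rw [norm_mul, norm_inv, Complex.norm_real, Real.norm_eq_abs, abs_of_pos hC,
        inv_mul_le_iff₀ hC, mul_one]
      exact hg j
    have key := orbit_bound hM hVV R hR q Z (fun j => (C : ℂ)⁻¹ * f₃ (T^[j] x))
      (fun j => (C : ℂ)⁻¹ * f₂ (T^[j] x)) (fun j => (C : ℂ)⁻¹ * f₁ (T^[j] x))
      (hnorm f₃ d₃) (hnorm f₂ d₂) (hnorm f₁ d₁)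
    have heq : ∑ ρ : D → ZMod 4, ∑ κ, ∑ m ∈ box D M, ∑ s ∈ box D R, w κ *
        (f₃ (T^[Z - dot q (vv ρ s)] x) * f₂ (T^[Z + 3 * dot q (uu a ρ κ m)] x) *
        f₁ (T^[Z + 12 * dot q (uu a ρ κ m) + 3 * dot q (vv ρ s)] x)) =
        (C : ℂ) ^ 3 * ∑ ρ : D → ZMod 4, ∑ κ, ∑ m ∈ box D M, ∑ s ∈ box D R, w κ *
        ((C : ℂ)⁻¹ * f₃ (T^[Z - dot q (vv ρ s)] x) *
          ((C : ℂ)⁻¹ * f₂ (T^[Z + 3 * dot q (uu a ρ κ m)] x)) *
        ((C : ℂ)⁻¹ * f₁ (T^[Z + 12 * dot q (uu a ρ κ m) + 3 * dot q (vv ρ s)] x))) := by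
      simp_rw [Finset.mul_sum]
      apply Finset.sum_congr rfl; intro ρ _
      apply Finset.sum_congr rfl; intro κ _
      apply Finset.sum_congr rfl; intro m _
      apply Finset.sum_congr rfl; intro s _
      field_simp
    rw [heq, norm_mul, norm_pow, Complex.norm_real, Real.norm_eq_abs, abs_of_pos hC]
    exact mul_le_mul_of_nonneg_left key (by positivity)
  have := norm_integral_le_of_norm_le_const hae
  simpa using this

end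

end Pool.Agent.Lib.MP_26bfe6_an
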