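import Mathlib

/-!
# Limits of finite systems
-/

set_option autoImplicit false

namespace Pool.Agent.Lib.MP_26bfe6_an

open Finset Filter Topology MeasureTheory

/-- the alphabet -/
abbrev VV1 : Type := Metric.closedBall (0:ℂ) 1

instance : CompactSpace VV1 := isCompact_iff_compactSpace.1 (isCompact_closedBall _ _)

/-- the symbolic space -/
abbrev Om : Type := ℤ × ℤ → Fin 3 → VV1

/-- the shifts -/
def sh (u : ℤ × ℤ) : Om ≃ₜ Om where
  toFun ω := fun v => ω (v + u)
  invFun ω := fun v => ω (v - u)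
  left_inv ω := by funext v; simp
  right_inv ω := by funext v; simp
  continuous_toFun := continuous_pi fun v => continuous_apply (v + u)
  continuous_invFun := continuous_pi fun v => continuous_apply (v - u)

theorem sh_apply (u : ℤ × ℤ) (ω : Om) (v : ℤ × ℤ) : sh u ω v = ω (v + u) := rfl

theorem sh_iterate (u : ℤ × ℤ) (n : ℕ) (ω : Om) (v : ℤ × ℤ) :
    (sh u)^[n] ω v = ω (v + n • u) := by
  induction n generalizing v with
  | zero => simp
  | succ n ih =>
    rw [Function.iterate_succ_apply', sh_apply, ih]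
    congr 1
    rw [succ_nsmul]; abel

section
variable {X : Type*} [Fintype X] [Nonempty X]

/-- the coding map -/
def cod (S₁ S₂ : Equiv.Perm X) (g : Fin 3 → X → VV1) (x : X) : Om :=
  fun v i => g i ((S₁ ^ v.1 * S₂ ^ v.2 : Equiv.Perm X) x)

/-- the measure of a finite system on the symbolic space -/
noncomputable def finMeas (π : X → Om) : Measure Om :=
  (Fintype.card X : ENNReal)⁻¹ • ∑ x, Measure.dirac (π x)

instance finMeas_prob (π : X → Om) : IsProbabilityMeasure (finMeas π) := by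
  constructor
  unfold finMeas
  simp only [Measure.smul_apply, Measure.coe_finsetSum, Finset.sum_apply, measure_univ,
    smul_eq_mul, Finset.sum_const, Finset.card_univ, nsmul_eq_mul, mul_one]
  apply ENNReal.inv_mul_cancel
  · simp
  · simp

theorem finMeas_integral (π : X → Om) {E : Type*} [NormedAddCommGroup E] [NormedSpace ℝ E]
    [CompleteSpace E] (f : Om → E) (hf : StronglyMeasurable f) :
    ∫ ω, f ω ∂(finMeas π) = (Fintype.card X : ℝ)⁻¹ • ∑ x, f (π x) := by
  unfold finMeas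
  rw [integral_smul_measure, integral_finsetSum_measure]
  · simp
  · intro x _
    exact integrable_dirac' hf (by simp)

theorem sh_cod (S₁ S₂ : Equiv.Perm X) (hc : Commute S₁ S₂) (g : Fin 3 → X → VV1) (u : ℤ × ℤ)
    (x : X) : sh u (cod S₁ S₂ g x) = cod S₁ S₂ g ((S₁ ^ u.1 * S₂ ^ u.2 : Equiv.Perm X) x) := by
  funext v i
  show g i ((S₁ ^ (v + u).1 * S₂ ^ (v + u).2 : Equiv.Perm X) x) =
    g i ((S₁ ^ v.1 * S₂ ^ v.2 : Equiv.Perm X) ((S₁ ^ u.1 * S₂ ^ u.2 : Equiv.Perm X) x))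
  rw [← Equiv.Perm.mul_apply]
  congr 2
  rw [Prod.fst_add, Prod.snd_add, zpow_add, zpow_add]
  have h : S₁ ^ u.1 * S₂ ^ v.2 = S₂ ^ v.2 * S₁ ^ u.1 := (hc.zpow_zpow _ _).eq
  calc S₁ ^ v.1 * S₁ ^ u.1 * (S₂ ^ v.2 * S₂ ^ u.2)
      = S₁ ^ v.1 * (S₁ ^ u.1 * S₂ ^ v.2) * S₂ ^ u.2 := by group
    _ = S₁ ^ v.1 * (S₂ ^ v.2 * S₁ ^ u.1) * S₂ ^ u.2 := by rw [h]
    _ = _ := by group

end

/-- Limits of finite commuting systems. -/
theorem exists_limit (X : ℕ → Type) [∀ K, Fintype (X K)] [∀ K, Nonempty (X K)]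
    (S₁ S₂ : ∀ K, Equiv.Perm (X K)) (hc : ∀ K, Commute (S₁ K) (S₂ K))
    (g : ∀ K, Fin 3 → X K → VV1) :
    ∃ (ν : Measure Om) (U : Ultrafilter ℕ), IsProbabilityMeasure ν ∧ (U : Filter ℕ) ≤ atTop ∧
      (∀ u, MeasurePreserving (sh u) ν ν) ∧
      ∀ f : Om → ℂ, Continuous f → Tendsto (fun K => (Fintype.card (X K) : ℝ)⁻¹ •
        ∑ x, f (cod (S₁ K) (S₂ K) (g K) x)) U (𝓝 (∫ ω, f ω ∂ν)) := by
  classical
  let νK : ℕ → ProbabilityMeasure Om := fun K =>
    ⟨finMeas (cod (S₁ K) (S₂ K) (g K)), inferInstance⟩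
  let U : Ultrafilter ℕ := Ultrafilter.of atTop
  have hU : (U : Filter ℕ) ≤ atTop := Ultrafilter.of_le atTop
  let ν : ProbabilityMeasure Om := (U.map νK).lim
  have hlim : Tendsto νK U (𝓝 ν) := by
    have := Ultrafilter.le_nhds_lim (U.map νK)
    exact this
  have hconv : ∀ f : Om → ℂ, Continuous f → Tendsto (fun K => (Fintype.card (X K) : ℝ)⁻¹ •
        ∑ x, f (cod (S₁ K) (S₂ K) (g K) x)) U (𝓝 (∫ ω, f ω ∂(ν : Measure Om))) := by
    intro f hf
    have h1 := (ProbabilityMeasure.tendsto_iff_forall_integral_rclike_tendsto ℂ).1 hlim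
      (BoundedContinuousFunction.mkOfCompact ⟨f, hf⟩)
    have h2 : ∀ K, ∫ ω, (BoundedContinuousFunction.mkOfCompact ⟨f, hf⟩ : Om → ℂ) ω
        ∂(νK K : Measure Om) = (Fintype.card (X K) : ℝ)⁻¹ •
        ∑ x, f (cod (S₁ K) (S₂ K) (g K) x) := by
      intro K
      exact finMeas_integral _ f hf.stronglyMeasurable
    simp_rw [h2] at h1
    exact h1
  refine ⟨ν, U, inferInstance, hU, ?_, hconv⟩
  intro u
  refine ⟨(sh u).continuous.measurable, ?_⟩
  have : IsProbabilityMeasure (Measure.map (sh u) (ν : Measure Om)) :=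
    Measure.isProbabilityMeasure_map (sh u).continuous.measurable.aemeasurable
  letI : MetricSpace Om := TopologicalSpace.metrizableSpaceMetric Om
  apply ext_of_forall_integral_eq_of_IsFiniteMeasure
  intro f
  rw [integral_map (sh u).continuous.measurable.aemeasurable
    f.continuous.stronglyMeasurable.aestronglyMeasurable]
  have hfc : Continuous (fun ω : Om => (f ω : ℂ)) := Complex.continuous_ofReal.comp f.continuous
  have h1 := hconv _ hfc
  have h2 := hconv _ (hfc.comp (sh u).continuous)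
  have h3 : ∀ K, ∑ x, (fun ω : Om => (f ω : ℂ)) (cod (S₁ K) (S₂ K) (g K) x) =
      ∑ x, ((fun ω : Om => (f ω : ℂ)) ∘ sh u) (cod (S₁ K) (S₂ K) (g K) x) := by
    intro K
    symm
    simp only [Function.comp_apply]
    simp_rw [sh_cod (S₁ K) (S₂ K) (hc K) (g K) u]
    exact Equiv.sum_comp ((S₁ K) ^ u.1 * (S₂ K) ^ u.2)
      (fun x => (f (cod (S₁ K) (S₂ K) (g K) x) : ℂ))
  simp_rw [h3] at h1
  have h4 := tendsto_nhds_unique h2 h1
  simp only [Function.comp_apply] at h4
  have h5 : ((∫ ω, f (sh u ω) ∂(ν : Measure Om) : ℝ) : ℂ) =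
      ((∫ ω, f ω ∂(ν : Measure Om) : ℝ) : ℂ) := by
    rw [← integral_complex_ofReal, ← integral_complex_ofReal]
    exact h4
  exact_mod_cast h5

end Pool.Agent.Lib.MP_26bfe6_an
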