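import Pool.Agent.Lib.MP_26bfe6_an.Digits
import Pool.Agent.Lib.MP_26bfe6_an.Symb

/-!
# The commuting system
-/

set_option autoImplicit false

namespace Pool.Agent.Lib.MP_26bfe6_an

open Finset Filter Topology MeasureTheory

/-- the digits of a block -/
def blk (l x : ℕ) : Fin 2 → ZMod 4 := ![dg (2 * l) x, dg (2 * l + 1) x]

/-- products over blocks -/
noncomputable def hh (t K x y : ℕ) : ℂ := ∏ l ∈ range K, zeta ^ look t (blk l x) (blk l y)

theorem hh_norm (t K x y : ℕ) : ‖hh t K x y‖ = 1 := by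
  unfold hh
  rw [norm_prod]
  apply Finset.prod_eq_one
  intro l _
  rw [norm_pow, zeta_norm, one_pow]

theorem blk_mod {K l : ℕ} (hl : l < K) (x : ℕ) : blk l (x % qq (2 * K)) = blk l x := by
  unfold blk
  rw [dg_mod (qq_dvd (by omega)), dg_mod (qq_dvd (by omega))]

theorem hh_mod_left (t K x y : ℕ) : hh t K (x % qq (2 * K)) y = hh t K x y := by
  unfold hh
  apply Finset.prod_congr rfl
  intro l hl
  rw [blk_mod (Finset.mem_range.1 hl)]

theorem hh_mod_right (t K x y : ℕ) : hh t K x (y % qq (2 * K)) = hh t K x y := by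
  unfold hh
  apply Finset.prod_congr rfl
  intro l hl
  rw [blk_mod (Finset.mem_range.1 hl)]

/-- the integrand of the finite system -/
noncomputable def Psi (K n x y : ℕ) : ℂ :=
  hh tab0 K x y * hh tab1 K (x + n) y * hh tab2 K x (y + n)

theorem Psi_norm (K n x y : ℕ) : ‖Psi K n x y‖ = 1 := by
  unfold Psi
  rw [norm_mul, norm_mul, hh_norm, hh_norm, hh_norm]; norm_num

theorem blk_good {V : ℕ → ℕ} {kk : ℕ → Fin 4}
    (hk : ∀ l, ∀ t : Fin 2, (V (2 * l + t.val) : ZMod 4) = - a0 (kk l) t) {K x : ℕ}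
    (hx : good V (2 * K) x) {l : ℕ} (hl : l < K) :
    blk l (x + low V (2 * K)) = blk l x - a0 (kk l) := by
  unfold blk
  rw [dg_good hx (by omega), dg_good hx (by omega)]
  have h0 := hk l 0
  have h1 := hk l 1
  simp only [Fin.val_zero, Fin.val_one, add_zero] at h0 h1
  rw [h0, h1]
  funext t
  fin_cases t
  · simp [sub_eq_add_neg]
  · simp [sub_eq_add_neg]

theorem Psi_good {V : ℕ → ℕ} {kk : ℕ → Fin 4}
    (hk : ∀ l, ∀ t : Fin 2, (V (2 * l + t.val) : ZMod 4) = - a0 (kk l) t) {K x y : ℕ}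
    (hx : good V (2 * K) x) (hy : good V (2 * K) y) :
    Psi K (low V (2 * K)) x y = ∏ l ∈ range K, tau (kk l) := by
  unfold Psi hh
  rw [← Finset.prod_mul_distrib, ← Finset.prod_mul_distrib]
  apply Finset.prod_congr rfl
  intro l hl
  rw [Finset.mem_range] at hl
  rw [blk_good hk hx hl, blk_good hk hy hl]
  exact tab_zeta _ _ _

theorem avg_bound {V : ℕ → ℕ} {kk : ℕ → Fin 4} {r j₀ : ℕ} (hV : ∀ i, V i ≤ r)
    (h0 : ∀ i < j₀, V i = 0)
    (hk : ∀ l, ∀ t : Fin 2, (V (2 * l + t.val) : ZMod 4) = - a0 (kk l) t) (K : ℕ) :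
    ‖(((qq (2 * K) : ℝ) * (qq (2 * K) : ℝ))⁻¹ : ℝ) • ∑ x ∈ range (qq (2 * K)),
      ∑ y ∈ range (qq (2 * K)), Psi K (low V (2 * K)) x y - ∏ l ∈ range K, tau (kk l)‖ ≤
      4 * (r * (1/2) ^ j₀) := by
  set Q := qq (2 * K) with hQ
  have hQ0 : (0:ℝ) < Q := by exact_mod_cast qq_pos _
  set P : ℂ := ∏ l ∈ range K, tau (kk l) with hP
  have hP1 : ‖P‖ = 1 := by
    rw [hP, norm_prod]
    exact Finset.prod_eq_one fun l _ => tau_norm _
  have e1 : (((Q : ℝ) * (Q : ℝ))⁻¹ : ℝ) • ∑ x ∈ range Q,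
      ∑ y ∈ range Q, Psi K (low V (2 * K)) x y - P =
      (((Q : ℝ) * (Q : ℝ))⁻¹ : ℝ) • ∑ x ∈ range Q,
      ∑ y ∈ range Q, (Psi K (low V (2 * K)) x y - P) := by
    simp_rw [Finset.sum_sub_distrib, Finset.sum_const, Finset.card_range, smul_sub]
    congr 1
    rw [nsmul_eq_mul, nsmul_eq_mul, Complex.real_smul]
    push_cast
    have : (Q : ℂ) ≠ 0 := by exact_mod_cast (qq_pos _).ne'
    field_simp
  rw [e1, norm_smul, norm_inv, Real.norm_eq_abs, abs_of_pos (mul_pos hQ0 hQ0)]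
  have hbad := bad_frac hV h0 (2 * K)
  rw [← hQ] at hbad
  set B := ((range Q).filter fun x => ¬ good V (2 * K) x).card with hB
  have h2 : ‖∑ x ∈ range Q, ∑ y ∈ range Q, (Psi K (low V (2 * K)) x y - P)‖ ≤
      4 * ((B : ℝ) * Q) := by
    have h3 : ∀ x ∈ range Q, ∀ y ∈ range Q, ‖Psi K (low V (2 * K)) x y - P‖ ≤
        2 * (if ¬ good V (2 * K) x then (1:ℝ) else 0) +
          2 * (if ¬ good V (2 * K) y then (1:ℝ) else 0) := by
      intro x _ y _
      by_cases hx : good V (2 * K) x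
      · by_cases hy : good V (2 * K) y
        · rw [Psi_good hk hx hy]
          simp [hx, hy, hP]
        · rw [if_neg (not_not.2 hx), if_pos hy]
          calc _ ≤ ‖Psi K (low V (2 * K)) x y‖ + ‖P‖ := norm_sub_le _ _
            _ = 2 := by rw [Psi_norm, hP1]; norm_num
            _ ≤ _ := by norm_num
      · rw [if_pos hx]
        have h4 : (0:ℝ) ≤ (if ¬ good V (2 * K) y then (1:ℝ) else 0) := by split_ifs <;> norm_num
        calc _ ≤ ‖Psi K (low V (2 * K)) x y‖ + ‖P‖ := norm_sub_le _ _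
          _ = 2 := by rw [Psi_norm, hP1]; norm_num
          _ ≤ _ := by linarith
    have h5 : ∑ x ∈ range Q, (if ¬ good V (2 * K) x then (1:ℝ) else 0) = B := by
      rw [Finset.sum_ite, hB]; simp
    calc _ ≤ ∑ x ∈ range Q, ∑ y ∈ range Q, ‖Psi K (low V (2 * K)) x y - P‖ :=
          (norm_sum_le _ _).trans (Finset.sum_le_sum fun x _ => norm_sum_le _ _)
      _ ≤ ∑ x ∈ range Q, ∑ y ∈ range Q, (2 * (if ¬ good V (2 * K) x then (1:ℝ) else 0) +
          2 * (if ¬ good V (2 * K) y then (1:ℝ) else 0)) :=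
          Finset.sum_le_sum fun x hx => Finset.sum_le_sum fun y hy => h3 x hx y hy
      _ = 4 * ((B : ℝ) * Q) := by
          simp_rw [Finset.sum_add_distrib, ← Finset.mul_sum, h5]
          simp only [Finset.sum_const, Finset.card_range, nsmul_eq_mul, ← Finset.mul_sum]
          rw [h5]
          ring
  rw [inv_mul_le_iff₀ (mul_pos hQ0 hQ0)]
  calc _ ≤ 4 * ((B : ℝ) * Q) := h2
    _ ≤ 4 * (((Q : ℝ) * (r * (1/2) ^ j₀)) * Q) := by
        apply mul_le_mul_of_nonneg_left _ (by norm_num)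
        exact mul_le_mul_of_nonneg_right hbad hQ0.le
    _ = _ := by ring

instance (j : ℕ) : NeZero (qq j) := ⟨(qq_pos j).ne'⟩

/-- the finite state spaces -/
abbrev XK (K : ℕ) : Type := ZMod (qq (2 * K)) × ZMod (qq (2 * K))

/-- horizontal shift -/
def S1 (K : ℕ) : Equiv.Perm (XK K) := Equiv.prodCongr (Equiv.addRight 1) (Equiv.refl _)

/-- vertical shift -/
def S2 (K : ℕ) : Equiv.Perm (XK K) := Equiv.prodCongr (Equiv.refl _) (Equiv.addRight 1)

theorem S_comm (K : ℕ) : Commute (S1 K) (S2 K) := by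
  show S1 K * S2 K = S2 K * S1 K
  ext x <;> rfl

theorem S1_pow (K n : ℕ) (x : XK K) : (S1 K ^ n) x = (x.1 + n, x.2) := by
  induction n with
  | zero => simp
  | succ n ih =>
    rw [pow_succ', Equiv.Perm.mul_apply, ih]
    show (x.1 + n + 1, x.2) = _
    push_cast
    rw [add_assoc]

theorem S2_pow (K n : ℕ) (x : XK K) : (S2 K ^ n) x = (x.1, x.2 + n) := by
  induction n with
  | zero => simp
  | succ n ih =>
    rw [pow_succ', Equiv.Perm.mul_apply, ih]
    show (x.1, x.2 + n + 1) = _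
    push_cast
    rw [add_assoc]

/-- the three tables -/
def tabs : Fin 3 → ℕ := ![tab0, tab1, tab2]

/-- the functions -/
noncomputable def gK (K : ℕ) (i : Fin 3) (x : XK K) : VV1 :=
  ⟨hh (tabs i) K x.1.val x.2.val, by
    rw [mem_closedBall_zero_iff, hh_norm]⟩

theorem sum_zmod {Q : ℕ} [NeZero Q] {A : Type*} [AddCommMonoid A] (f : ℕ → A) :
    ∑ x : ZMod Q, f x.val = ∑ x ∈ range Q, f x := by
  refine Finset.sum_nbij' ZMod.val (fun k => (k : ZMod Q)) ?_ ?_ ?_ ?_ ?_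
  · intro x _; exact Finset.mem_range.2 (ZMod.val_lt x)
  · intro x _; exact Finset.mem_univ _
  · intro x _; exact ZMod.natCast_zmod_val x
  · intro x hx; exact ZMod.val_cast_of_lt (Finset.mem_range.1 hx)
  · intro x _; rfl

/-- the test function -/
noncomputable def FF (n : ℕ) (ω : Om) : ℂ :=
  (ω (0, 0) 0 : ℂ) * (ω (n, 0) 1 : ℂ) * (ω (0, n) 2 : ℂ)

theorem FF_cont (n : ℕ) : Continuous (FF n) := by
  unfold FF
  have h : ∀ (v : ℤ × ℤ) (i : Fin 3), Continuous fun ω : Om => (ω v i : ℂ) := by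
    intro v i
    exact continuous_subtype_val.comp ((continuous_apply i).comp (continuous_apply v))
  exact ((h _ _).mul (h _ _)).mul (h _ _)

theorem FF_cod (K n : ℕ) (x : XK K) :
    FF n (cod (S1 K) (S2 K) (gK K) x) = Psi K n x.1.val x.2.val := by
  unfold FF cod Psi
  simp only [zpow_zero, mul_one, one_mul, Equiv.Perm.coe_one, id_eq, zpow_natCast]
  rw [S1_pow, S2_pow]
  have h1 : ∀ (z : ZMod (qq (2 * K))), (z + (n : ZMod (qq (2 * K)))).val =
      (z.val + n) % qq (2 * K) := by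
    intro z
    rw [ZMod.val_add, ZMod.val_natCast, Nat.add_mod_mod]
  unfold gK tabs
  simp only [h1, hh_mod_left, hh_mod_right]
  rfl

/-- The commuting system. -/
theorem C_side : ∃ ν : Measure Om, IsProbabilityMeasure ν ∧ (∀ u, MeasurePreserving (sh u) ν ν) ∧
    ∀ (V : ℕ → ℕ) (kk : ℕ → Fin 4) (r j₀ L : ℕ), (∀ i, V i ≤ r) → (∀ i < j₀, V i = 0) →
      (∀ i, 2 * L ≤ i → V i = 0) → (∀ l, L ≤ l → kk l = 0) →
      (∀ l, ∀ t : Fin 2, (V (2 * l + t.val) : ZMod 4) = - a0 (kk l) t) →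
      ‖∫ ω, FF (low V (2 * L)) ω ∂ν - ∏ l ∈ range L, tau (kk l)‖ ≤ 4 * (r * (1/2) ^ j₀) := by
  obtain ⟨ν, U, hν, hU, hpres, hlim⟩ := exists_limit XK S1 S2 S_comm gK
  refine ⟨ν, hν, hpres, ?_⟩
  intro V kk r j₀ L hV h0 hL hkL hk
  have h1 := hlim (FF (low V (2 * L))) (FF_cont _)
  have h2 : Tendsto (fun K => ‖(Fintype.card (XK K) : ℝ)⁻¹ •
      ∑ x, FF (low V (2 * L)) (cod (S1 K) (S2 K) (gK K) x) - ∏ l ∈ range L, tau (kk l)‖) U
      (𝓝 ‖∫ ω, FF (low V (2 * L)) ω ∂ν - ∏ l ∈ range L, tau (kk l)‖) :=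
    (h1.sub tendsto_const_nhds).norm
  refine le_of_tendsto h2 ?_
  have h3 : ∀ᶠ K : ℕ in (U : Filter ℕ), L ≤ K := hU (eventually_ge_atTop L)
  filter_upwards [h3] with K hK
  have h4 : low V (2 * L) = low V (2 * K) := by
    unfold low
    apply Finset.sum_subset
    · intro i hi
      rw [Finset.mem_range] at hi ⊢
      omega
    · intro i _ hi
      rw [Finset.mem_range] at hi
      rw [hL i (by omega), zero_mul]
  have h5 : ∏ l ∈ range L, tau (kk l) = ∏ l ∈ range K, tau (kk l) := by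
    apply Finset.prod_subset
    · intro i hi
      rw [Finset.mem_range] at hi ⊢
      omega
    · intro i _ hi
      rw [Finset.mem_range] at hi
      rw [hkL i (by omega)]
      simp [tau]
  rw [h4, h5]
  simp_rw [FF_cod]
  rw [Fintype.card_prod, ZMod.card, Fintype.sum_prod_type]
  have h6 := avg_bound hV h0 hk K
  rw [← sum_zmod] at h6
  simp_rw [← sum_zmod (Q := qq (2 * K))] at h6
  push_cast
  exact h6

end Pool.Agent.Lib.MP_26bfe6_an
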