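import Pool.Agent.Lib.MP_26bfe6_an.Bside
import Pool.Agent.Lib.MP_26bfe6_an.Cside

/-!
# The separation
-/

set_option autoImplicit false

namespace Pool.Agent.Lib.MP_26bfe6_an

open Finset Filter Topology MeasureTheory

theorem exists_R (M d : ℕ) : ∃ R : ℕ, 0 < R ∧
    Real.sqrt ((R : ℝ) ^ d) * Real.sqrt (((R + 4 * M : ℕ) : ℝ) ^ d) ≤ 2 * (R : ℝ) ^ d := by
  refine ⟨4 * M * d + 1, Nat.succ_pos _, ?_⟩
  set R : ℕ := 4 * M * d + 1 with hR
  have hR0 : (0:ℝ) < R := by positivity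
  have h1 : ((R + 4 * M : ℕ) : ℝ) ^ d ≤ 4 * (R : ℝ) ^ d := by
    have h2 : ((R + 4 * M : ℕ) : ℝ) = R * (4 * M / R + 1) := by
      push_cast; field_simp; ring
    rw [h2, mul_pow, mul_comm]
    apply mul_le_mul_of_nonneg_right _ (by positivity)
    have h3 : (4 * M / R + 1 : ℝ) ≤ Real.exp (4 * M / R) := Real.add_one_le_exp _
    calc (4 * M / R + 1 : ℝ) ^ d ≤ Real.exp (4 * M / R) ^ d :=
          pow_le_pow_left₀ (by positivity) h3 d
      _ = Real.exp (d * (4 * M / R)) := by rw [← Real.exp_nat_mul]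
      _ ≤ Real.exp 1 := by
          apply Real.exp_le_exp.2
          rw [mul_div_assoc', div_le_one hR0, hR]
          push_cast
          nlinarith
      _ ≤ 4 := by linarith [Real.exp_one_lt_d9]
  calc Real.sqrt ((R : ℝ) ^ d) * Real.sqrt (((R + 4 * M : ℕ) : ℝ) ^ d)
      ≤ Real.sqrt ((R : ℝ) ^ d) * Real.sqrt (4 * (R : ℝ) ^ d) :=
        mul_le_mul_of_nonneg_left (Real.sqrt_le_sqrt h1) (Real.sqrt_nonneg _)
    _ = Real.sqrt ((R : ℝ) ^ d) * (2 * Real.sqrt ((R : ℝ) ^ d)) := by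
        rw [Real.sqrt_mul (by norm_num), show (4:ℝ) = 2 ^ 2 by norm_num,
          Real.sqrt_sq (by norm_num)]
    _ = 2 * (Real.sqrt ((R : ℝ) ^ d) * Real.sqrt ((R : ℝ) ^ d)) := by ring
    _ = _ := by rw [Real.mul_self_sqrt (by positivity)]

/-- the units of a stage -/
def stq (N l₀ : ℕ) : Fin N × Fin 2 → ℕ := fun p => qq (2 * (l₀ + p.1.val) + p.2.val)

/-- digit sequence of a stage -/
def stV (N l₀ : ℕ) (v : Fin N × Fin 2 → ℕ) : ℕ → ℕ := fun j =>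
  if h : 2 * l₀ ≤ j ∧ (j - 2 * l₀) / 2 < N then
    v (⟨(j - 2 * l₀) / 2, h.2⟩, ⟨(j - 2 * l₀) % 2, Nat.mod_lt _ two_pos⟩) else 0

/-- residue pattern of a stage -/
def stk (N l₀ : ℕ) (κ : Fin N → Fin 4) : ℕ → Fin 4 := fun l =>
  if h : l₀ ≤ l ∧ l - l₀ < N then κ ⟨l - l₀, h.2⟩ else 0

theorem stV_at (N l₀ : ℕ) (v : Fin N × Fin 2 → ℕ) (i : Fin N) (t : Fin 2) :
    stV N l₀ v (2 * (l₀ + i.val) + t.val) = v (i, t) := by
  unfold stV
  have ht := t.isLt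
  have h1 : (2 * (l₀ + i.val) + t.val - 2 * l₀) / 2 = i.val := by omega
  have h2 : (2 * (l₀ + i.val) + t.val - 2 * l₀) % 2 = t.val := by omega
  rw [dif_pos ⟨by omega, by rw [h1]; exact i.isLt⟩]
  congr 2
  · ext; exact h1
  · ext; exact h2

theorem stV_lt (N l₀ : ℕ) (v : Fin N × Fin 2 → ℕ) {j : ℕ} (h : j < 2 * l₀) :
    stV N l₀ v j = 0 := by
  unfold stV
  rw [dif_neg]; omega

theorem stV_ge (N l₀ : ℕ) (v : Fin N × Fin 2 → ℕ) {j : ℕ} (h : 2 * (l₀ + N) ≤ j) :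
    stV N l₀ v j = 0 := by
  unfold stV
  rw [dif_neg]; omega

theorem stk_at (N l₀ : ℕ) (κ : Fin N → Fin 4) (i : Fin N) : stk N l₀ κ (l₀ + i.val) = κ i := by
  unfold stk
  have h1 : l₀ + i.val - l₀ = i.val := by omega
  rw [dif_pos ⟨by omega, by rw [h1]; exact i.isLt⟩]
  congr 1
  ext; exact h1

theorem stk_lt (N l₀ : ℕ) (κ : Fin N → Fin 4) {l : ℕ} (h : l < l₀) : stk N l₀ κ l = 0 := by
  unfold stk
  rw [dif_neg]; omega

theorem stk_ge (N l₀ : ℕ) (κ : Fin N → Fin 4) {l : ℕ} (h : l₀ + N ≤ l) : stk N l₀ κ l = 0 := by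
  unfold stk
  rw [dif_neg]; omega

theorem sum_range_two_mul {A : Type*} [AddCommMonoid A] (L : ℕ) (f : ℕ → A) :
    ∑ j ∈ range (2 * L), f j = ∑ l ∈ range L, ∑ t : Fin 2, f (2 * l + t.val) := by
  induction L with
  | zero => simp
  | succ L ih =>
    rw [show 2 * (L + 1) = 2 * L + 1 + 1 by ring, Finset.sum_range_succ, Finset.sum_range_succ, ih,
      Finset.sum_range_succ, Fin.sum_univ_two]
    simp [add_assoc]

theorem low_stV (N l₀ : ℕ) (v : Fin N × Fin 2 → ℕ) :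
    low (stV N l₀ v) (2 * (l₀ + N)) = dot (stq N l₀) v := by
  unfold low
  rw [sum_range_two_mul, Finset.sum_range_add]
  have h1 : ∑ l ∈ range l₀, ∑ t : Fin 2, stV N l₀ v (2 * l + t.val) * qq (2 * l + t.val) = 0 := by
    apply Finset.sum_eq_zero
    intro l hl
    apply Finset.sum_eq_zero
    intro t _
    have := Finset.mem_range.1 hl
    have := t.isLt
    rw [stV_lt _ _ _ (by omega), zero_mul]
  rw [h1, zero_add, Finset.sum_range]
  unfold dot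
  rw [Fintype.sum_prod_type]
  apply Finset.sum_congr rfl
  intro i _
  apply Finset.sum_congr rfl
  intro t _
  rw [stV_at]
  rfl

theorem prod_stk (N l₀ : ℕ) (κ : Fin N → Fin 4) :
    ∏ l ∈ range (l₀ + N), tau (stk N l₀ κ l) = ∏ i, tau (κ i) := by
  rw [Finset.prod_range_add]
  have h1 : ∏ l ∈ range l₀, tau (stk N l₀ κ l) = 1 := by
    apply Finset.prod_eq_one
    intro l hl
    rw [stk_lt _ _ _ (Finset.mem_range.1 hl)]
    simp [tau]
  rw [h1, one_mul, Finset.prod_range]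
  apply Finset.prod_congr rfl
  intro i _
  rw [stk_at]

theorem tt_mod (N : ℕ) (ρ : Fin N × Fin 2 → ZMod 4) (κ : Fin N → Fin 4)
    (m s : Fin N × Fin 2 → ℕ) (p : Fin N × Fin 2) :
    ((tt (aN N) ρ κ m s p : ℕ) : ZMod 4) = - a0 (κ p.1) p.2 := by
  simp only [tt, uu, vv, lift, Pi.add_apply, Pi.smul_apply, smul_eq_mul]
  have h4 : (4 : Fin N × Fin 2 → ℕ) p = 4 := rfl
  rw [h4]
  push_cast
  rw [ZMod.natCast_zmod_val, ZMod.natCast_zmod_val]
  have h5 : (4 : ZMod 4) = 0 := rfl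
  rw [h5]
  unfold aN
  have h6 : ∀ a b : ZMod 4, 3 * (a + b + 0 * (0:ZMod 4)) + (a + 0 * (0:ZMod 4) + 0) = - b := by
    decide
  have := h6 (ρ p) (a0 (κ p.1) p.2)
  simp only [zero_mul, add_zero] at this ⊢
  exact this

theorem tt_le (N : ℕ) (ρ : Fin N × Fin 2 → ZMod 4) (κ : Fin N → Fin 4) {M R : ℕ}
    {m s : Fin N × Fin 2 → ℕ} (hm : m ∈ box (Fin N × Fin 2) M) (hs : s ∈ box (Fin N × Fin 2) R)
    (p : Fin N × Fin 2) : tt (aN N) ρ κ m s p ≤ 12 * M + 4 * R + 20 := by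
  have h1 := mem_box.1 hm p
  have h2 := mem_box.1 hs p
  have h3 : ((ρ + aN N κ) p).val < 4 := ZMod.val_lt _
  have h4 : (ρ p).val < 4 := ZMod.val_lt _
  simp only [tt, uu, vv, lift, Pi.add_apply, Pi.smul_apply, smul_eq_mul]
  simp only [Pi.add_apply] at h3
  have h5 : (4 : Fin N × Fin 2 → ℕ) p = 4 := rfl
  rw [h5]
  omega

theorem tt_pos (N : ℕ) (ρ : Fin N × Fin 2 → ZMod 4) (κ : Fin N → Fin 4)
    (m s : Fin N × Fin 2 → ℕ) (p : Fin N × Fin 2) : 1 ≤ tt (aN N) ρ κ m s p := by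
  simp only [tt, vv, Pi.add_apply]
  have h5 : (4 : Fin N × Fin 2 → ℕ) p = 4 := rfl
  rw [h5]
  omega

theorem sum_wN_tau (N : ℕ) : ∑ κ : Fin N → Fin 4, wN N κ * ∏ i, tau (κ i) = 1 := by
  have h1 : ∀ κ : Fin N → Fin 4, wN N κ * ∏ i, tau (κ i) = (1/4 : ℂ) ^ N := by
    intro κ
    unfold wN w0
    rw [← Finset.prod_mul_distrib]
    have : ∀ i ∈ (Finset.univ : Finset (Fin N)), (tau (κ i))⁻¹ / 4 * tau (κ i) = 1/4 := by
      intro i _
      have := tau_ne (κ i)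
      field_simp
    rw [Finset.prod_congr rfl this]
    simp
  simp_rw [h1]
  rw [Finset.sum_const, Finset.card_univ]
  simp only [Fintype.card_fun, Fintype.card_fin, nsmul_eq_mul]
  push_cast
  rw [← mul_pow]; norm_num

/-- the main separation statement -/
theorem separation : ∃ ν : Measure Om, IsProbabilityMeasure ν ∧
    (∀ u, MeasurePreserving (sh u) ν ν) ∧
    ∀ {X : Type*} [MeasurableSpace X] (μ : Measure X) [IsProbabilityMeasure μ] (T : X → X),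
      MeasurePreserving T μ μ → ∀ f₁ f₂ f₃ : X → ℂ, MemLp f₁ ⊤ μ → MemLp f₂ ⊤ μ →
      MemLp f₃ ⊤ μ → ∀ ε : ℝ, ε < 1 → ∃ n : ℕ, 1 ≤ n ∧
        ε < ‖∫ ω, FF n ω ∂ν - ∫ x, f₃ (T^[2 * n] x) * f₂ (T^[3 * n] x) * f₁ (T^[6 * n] x) ∂μ‖ := by
  obtain ⟨ν, hν, hpres, hν2⟩ := C_side
  refine ⟨ν, hν, hpres, ?_⟩
  intro X _ μ _ T hT f₁ f₂ f₃ m₁ m₂ m₃ ε hε
  by_contra hcon
  push Not at hcon
  have hε0 : 0 ≤ ε := (norm_nonneg _).trans (hcon 1 le_rfl)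
  -- bounds
  have hb : ∀ f : X → ℂ, MemLp f ⊤ μ → ∃ C : ℝ, 0 ≤ C ∧ ∀ᵐ x ∂μ, ‖f x‖ ≤ C := by
    intro f hf
    refine ⟨(eLpNormEssSup f μ).toReal, ENNReal.toReal_nonneg, ?_⟩
    have h1 : eLpNormEssSup f μ < ⊤ := by
      have := hf.eLpNorm_lt_top
      rwa [eLpNorm_exponent_top] at this
    filter_upwards [ae_le_eLpNormEssSup (f := f) (μ := μ)] with x hx
    have h2 := ENNReal.toReal_mono h1.ne hx
    simpa using h2
  obtain ⟨C₁, hC₁, b₁⟩ := hb f₁ m₁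
  obtain ⟨C₂, hC₂, b₂⟩ := hb f₂ m₂
  obtain ⟨C₃, hC₃, b₃⟩ := hb f₃ m₃
  set C : ℝ := C₁ + C₂ + C₃ + 1 with hC
  have hCpos : 0 < C := by positivity
  have b₁' : ∀ᵐ x ∂μ, ‖f₁ x‖ ≤ C := by filter_upwards [b₁] with x hx; linarith
  have b₂' : ∀ᵐ x ∂μ, ‖f₂ x‖ ≤ C := by filter_upwards [b₂] with x hx; linarith
  have b₃' : ∀ᵐ x ∂μ, ‖f₃ x‖ ≤ C := by filter_upwards [b₃] with x hx; linarith
  -- parameters
  set δ : ℝ := (1 - ε) / (8 * C ^ 3) with hδ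
  have hδ0 : 0 < δ := by
    have : 0 < 1 - ε := by linarith
    positivity
  obtain ⟨N, M, hN, hM, hVV⟩ := VV_small hδ0
  set d := Fintype.card (Fin N × Fin 2) with hd
  obtain ⟨R, hR, hR2⟩ := exists_R M d
  set r : ℕ := 12 * M + 4 * R + 20 with hr
  have hpos : 0 < (1 - ε) / (16 * r) := by
    have h1 : 0 < 1 - ε := by linarith
    have h2 : (0:ℝ) < r := by rw [hr]; positivity
    positivity
  obtain ⟨l₀, hl₀⟩ := exists_pow_lt_of_lt_one hpos (show (1/2 : ℝ) < 1 by norm_num)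
  have hη : 4 * ((r:ℝ) * (1/2) ^ (2 * l₀)) ≤ (1 - ε) / 4 := by
    have h1 : (1/2 : ℝ) ^ (2 * l₀) ≤ (1/2) ^ l₀ :=
      pow_le_pow_of_le_one (by norm_num) (by norm_num) (by omega)
    have h2 : (0:ℝ) < r := by rw [hr]; positivity
    have h3 : (1/2 : ℝ) ^ (2 * l₀) ≤ (1 - ε) / (16 * r) := h1.trans hl₀.le
    calc 4 * ((r:ℝ) * (1/2) ^ (2 * l₀)) ≤ 4 * ((r:ℝ) * ((1 - ε) / (16 * r))) := by
          apply mul_le_mul_of_nonneg_left _ (by norm_num)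
          exact mul_le_mul_of_nonneg_left h3 h2.le
      _ = (1 - ε) / 4 := by field_simp; ring
  set q := stq N l₀ with hq
  set c : ℕ → ℂ := fun n => ∫ ω, FF n ω ∂ν with hc
  set b : ℕ → ℂ := fun n => ∫ x, f₃ (T^[2 * n] x) * f₂ (T^[3 * n] x) * f₁ (T^[6 * n] x) ∂μ with hbdef
  -- the values of `c`
  have hcval : ∀ (ρ : Fin N × Fin 2 → ZMod 4) (κ : Fin N → Fin 4),
      ∀ m ∈ box (Fin N × Fin 2) M, ∀ s ∈ box (Fin N × Fin 2) R,
      ‖c (dot q (tt (aN N) ρ κ m s)) - ∏ i, tau (κ i)‖ ≤ (1 - ε) / 4 := by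
    intro ρ κ m hm s hs
    have key := hν2 (stV N l₀ (tt (aN N) ρ κ m s)) (stk N l₀ κ) r (2 * l₀) (l₀ + N) ?_ ?_ ?_ ?_ ?_
    · rw [low_stV, prod_stk] at key
      exact key.trans hη
    · intro i
      unfold stV
      split_ifs with h
      · exact tt_le N ρ κ hm hs _
      · exact Nat.zero_le _
    · intro i hi
      exact stV_lt N l₀ _ hi
    · intro i hi
      exact stV_ge N l₀ _ hi
    · intro l hl
      exact stk_ge N l₀ κ hl
    · intro l t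
      have ht := t.isLt
      by_cases h1 : l < l₀
      · rw [stV_lt _ _ _ (by omega), stk_lt _ _ _ h1]
        fin_cases t <;> simp [a0]
      · by_cases h2 : l₀ + N ≤ l
        · rw [stV_ge _ _ _ (by omega), stk_ge _ _ _ h2]
          fin_cases t <;> simp [a0]
        · have h3 : l = l₀ + (⟨l - l₀, by omega⟩ : Fin N).val := by
            simp only; omega
          rw [h3, stV_at, stk_at]
          exact tt_mod N ρ κ m s _
  -- positivity of the times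
  have hpos : ∀ (ρ : Fin N × Fin 2 → ZMod 4) (κ : Fin N → Fin 4) (m s : Fin N × Fin 2 → ℕ),
      1 ≤ dot q (tt (aN N) ρ κ m s) := by
    intro ρ κ m s
    unfold dot
    have p₀ : Fin N × Fin 2 := (⟨0, hN⟩, 0)
    calc 1 ≤ tt (aN N) ρ κ m s p₀ * q p₀ :=
          Nat.mul_pos (tt_pos N ρ κ m s p₀) (qq_pos _)
      _ ≤ _ := Finset.single_le_sum (f := fun p => tt (aN N) ρ κ m s p * q p)
          (fun _ _ => Nat.zero_le _) (Finset.mem_univ p₀)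
  -- total mass
  set Tot : ℝ := (4:ℝ) ^ d * (M:ℝ) ^ d * (R:ℝ) ^ d with hTot
  have hTot0 : 0 < Tot := by
    have h1 : (0:ℝ) < M := by exact_mod_cast hM
    have h2 : (0:ℝ) < R := by exact_mod_cast hR
    positivity
  have hcardρ : ((Finset.univ : Finset (Fin N × Fin 2 → ZMod 4)).card : ℝ) = (4:ℝ) ^ d := by
    rw [Finset.card_univ, Fintype.card_fun, ZMod.card]; push_cast; rfl
  -- general summation bound
  have hgen : ∀ (g : (Fin N × Fin 2 → ZMod 4) → (Fin N → Fin 4) → (Fin N × Fin 2 → ℕ) →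
      (Fin N × Fin 2 → ℕ) → ℂ) (A : ℝ),
      (∀ (ρ : Fin N × Fin 2 → ZMod 4) (κ : Fin N → Fin 4), ∀ m ∈ box (Fin N × Fin 2) M,
        ∀ s ∈ box (Fin N × Fin 2) R, ‖g ρ κ m s‖ ≤ A) →
      ‖∑ ρ : Fin N × Fin 2 → ZMod 4, ∑ κ, ∑ m ∈ box (Fin N × Fin 2) M,
        ∑ s ∈ box (Fin N × Fin 2) R, wN N κ * g ρ κ m s‖ ≤ Tot * A := by
    intro g A hg
    calc _ ≤ ∑ ρ : Fin N × Fin 2 → ZMod 4, ∑ κ, ∑ m ∈ box (Fin N × Fin 2) M,
        ∑ s ∈ box (Fin N × Fin 2) R, ‖wN N κ * g ρ κ m s‖ :=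
          (norm_sum_le _ _).trans (Finset.sum_le_sum fun ρ _ =>
            (norm_sum_le _ _).trans (Finset.sum_le_sum fun κ _ =>
              (norm_sum_le _ _).trans (Finset.sum_le_sum fun m _ => norm_sum_le _ _)))
      _ ≤ ∑ ρ : Fin N × Fin 2 → ZMod 4, ∑ κ, ∑ m ∈ box (Fin N × Fin 2) M,
        ∑ s ∈ box (Fin N × Fin 2) R, ‖wN N κ‖ * A := by
          refine Finset.sum_le_sum fun ρ _ => Finset.sum_le_sum fun κ _ =>
            Finset.sum_le_sum fun m hm => Finset.sum_le_sum fun s hs => ?_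
          rw [norm_mul]
          exact mul_le_mul_of_nonneg_left (hg ρ κ m hm s hs) (norm_nonneg _)
      _ = Tot * A := by
          simp only [Finset.sum_const, nsmul_eq_mul, card_box]
          rw [hcardρ, ← Finset.mul_sum, ← Finset.mul_sum, ← Finset.sum_mul, wN_norm_sum]
          push_cast
          rw [hTot, ← hd]; ring
  -- the three sums
  set Sc : ℂ := ∑ ρ : Fin N × Fin 2 → ZMod 4, ∑ κ, ∑ m ∈ box (Fin N × Fin 2) M,
        ∑ s ∈ box (Fin N × Fin 2) R, wN N κ * c (dot q (tt (aN N) ρ κ m s)) with hSc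
  set Sb : ℂ := ∑ ρ : Fin N × Fin 2 → ZMod 4, ∑ κ, ∑ m ∈ box (Fin N × Fin 2) M,
        ∑ s ∈ box (Fin N × Fin 2) R, wN N κ * b (dot q (tt (aN N) ρ κ m s)) with hSb
  have hSτ : ∑ ρ : Fin N × Fin 2 → ZMod 4, ∑ κ : Fin N → Fin 4, ∑ m ∈ box (Fin N × Fin 2) M,
        ∑ s ∈ box (Fin N × Fin 2) R, wN N κ * ∏ i, tau (κ i) = (Tot : ℂ) := by
    simp only [Finset.sum_const, nsmul_eq_mul, card_box]
    rw [← Finset.mul_sum, ← Finset.mul_sum, sum_wN_tau]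
    have : ((Finset.univ : Finset (Fin N × Fin 2 → ZMod 4)).card : ℂ) = (4:ℂ) ^ d := by
      exact_mod_cast hcardρ
    rw [this, hTot, ← hd]
    push_cast
    ring
  have h1 : ‖Sc - (Tot : ℂ)‖ ≤ Tot * ((1 - ε) / 4) := by
    rw [← hSτ, hSc]
    simp_rw [← Finset.sum_sub_distrib, ← mul_sub]
    exact hgen (fun ρ κ m s => c (dot q (tt (aN N) ρ κ m s)) - ∏ i, tau (κ i)) _ hcval
  have h2 : ‖Sc - Sb‖ ≤ Tot * ε := by
    rw [hSc, hSb]
    simp_rw [← Finset.sum_sub_distrib, ← mul_sub]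
    exact hgen (fun ρ κ m s => c (dot q (tt (aN N) ρ κ m s)) - b (dot q (tt (aN N) ρ κ m s))) _
      (fun ρ κ m _ s _ => hcon _ (hpos ρ κ m s))
  have h3 : ‖Sb‖ ≤ Tot * ((1 - ε) / 4) := by
    have key := B_bound hM hVV R hR q hT m₁.1 m₂.1 m₃.1 hCpos b₁' b₂' b₃'
    have h4 : ‖Sb‖ ≤ C ^ 3 * ((4:ℝ) ^ d * δ * (M:ℝ) ^ d * (2 * (R : ℝ) ^ d)) := by
      refine le_trans key ?_
      apply mul_le_mul_of_nonneg_left _ (by positivity)
      exact mul_le_mul_of_nonneg_left hR2 (by positivity)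
    refine h4.trans (le_of_eq ?_)
    rw [hδ, hTot]
    field_simp
    ring
  have h4 : Tot ≤ Tot * ((1 - ε) / 4) + Tot * ε + Tot * ((1 - ε) / 4) := by
    calc Tot = ‖(Tot : ℂ)‖ := by
          rw [Complex.norm_real, Real.norm_eq_abs, abs_of_pos hTot0]
      _ = ‖-(Sc - (Tot : ℂ)) + (Sc - Sb) + Sb‖ := by congr 1; ring
      _ ≤ ‖-(Sc - (Tot : ℂ))‖ + ‖Sc - Sb‖ + ‖Sb‖ := norm_add₃_le
      _ ≤ _ := by rw [norm_neg]; linarith
  nlinarith

end Pool.Agent.Lib.MP_26bfe6_an
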