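import Pool.Agent.Lib.MP_26bfe6_an.Defs
import Pool.Agent.Lib.MP_26bfe6_an.Final

/-!
# The separation in terms of the classes of sequences
-/

set_option autoImplicit false

namespace Pool.Agent.Lib.MP_26bfe6_an

open MeasureTheory
open Pool.Agent.MP_26bfe6_an

theorem core.{u} : ∃ c ∈ CSeq.{0} 3, (∀ n, ‖c n‖ ≤ 1) ∧
      ∀ b ∈ BSeq.{u} 3, ∀ ε : ℝ, ε < 1 → ∃ n, 1 ≤ n ∧ ε < ‖c n - b n‖ := by
  obtain ⟨ν, hν, hpres, hsep⟩ := separation
  set c : ℕ → ℂ := fun n => ∫ ω, FF n ω ∂ν with hc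
  have hev : ∀ (v : ℤ × ℤ) (i : Fin 3), Continuous fun ω : Om => (ω v i : ℂ) := by
    intro v i
    exact continuous_subtype_val.comp ((continuous_apply i).comp (continuous_apply v))
  have hle : ∀ (v : ℤ × ℤ) (i : Fin 3) (ω : Om), ‖(ω v i : ℂ)‖ ≤ 1 := by
    intro v i ω
    exact mem_closedBall_zero_iff.1 (ω v i).2
  have hC : c ∈ CSeq.{0} 3 := by
    refine ⟨Om, inferInstance, ν, hν,
      fun i => (sh ((![(0, 0), (1, 0), (0, 1)] : Fin 3 → ℤ × ℤ) i)).toMeasurableEquiv,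
      fun i ω => (ω (0, 0) i : ℂ), fun i => hpres _, ?_, ?_, ?_⟩
    · intro i j ω
      funext v
      show ω (v + _ + _) = ω (v + _ + _)
      congr 1
      abel
    · intro i
      exact memLp_top_of_bound (hev _ _).aestronglyMeasurable 1
        (Filter.Eventually.of_forall fun ω => hle _ _ ω)
    · intro n
      show ∫ ω, FF n ω ∂ν = _
      congr 1
      funext ω
      rw [Fin.prod_univ_three]
      have h1 : ∀ (u : ℤ × ℤ) (i : Fin 3),
          (((sh u).toMeasurableEquiv : Om → Om)^[n] ω (0, 0) i : ℂ) = (ω (n • u) i : ℂ) := by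
        intro u i
        have h2 : (((sh u).toMeasurableEquiv : Om → Om)^[n] ω) (0, 0) = ω ((0, 0) + n • u) :=
          sh_iterate u n ω (0, 0)
        rw [h2]
        congr 2
        simp
      show FF n ω = ((((sh (0, 0)).toMeasurableEquiv : Om → Om)^[n] ω (0, 0) 0 : ℂ)) *
        ((((sh (1, 0)).toMeasurableEquiv : Om → Om)^[n] ω (0, 0) 1 : ℂ)) *
        ((((sh (0, 1)).toMeasurableEquiv : Om → Om)^[n] ω (0, 0) 2 : ℂ))
      rw [h1, h1, h1]
      unfold FF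
      simp
  have hnorm : ∀ n, ‖c n‖ ≤ 1 := by
    intro n
    have h1 : ∀ᵐ ω ∂ν, ‖FF n ω‖ ≤ 1 := by
      refine Filter.Eventually.of_forall fun ω => ?_
      unfold FF
      rw [norm_mul, norm_mul]
      exact mul_le_one₀ (mul_le_one₀ (hle _ _ ω) (norm_nonneg _) (hle _ _ ω)) (norm_nonneg _)
        (hle _ _ ω)
    have := norm_integral_le_of_norm_le_const h1
    simpa using this
  have hB : ∀ b ∈ BSeq.{u} 3, ∀ ε : ℝ, ε < 1 → ∃ n, 1 ≤ n ∧ ε < ‖c n - b n‖ := by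
    rintro b ⟨X, mX, μ, hμ, T, f, hT, hf, hb⟩ ε hε
    obtain ⟨n, hn, h⟩ := hsep μ T hT (f 0) (f 1) (f 2) (hf 0) (hf 1) (hf 2) ε hε
    refine ⟨n, hn, ?_⟩
    have h1 : b n = ∫ x, f 2 (T^[2 * n] x) * f 1 (T^[3 * n] x) * f 0 (T^[6 * n] x) ∂μ := by
      rw [hb n]
      congr 1
      funext x
      rw [Fin.prod_univ_three]
      have e0 : Nat.factorial 3 / (((0 : Fin 3) : ℕ) + 1) * n = 6 * n := rfl
      have e1 : Nat.factorial 3 / (((1 : Fin 3) : ℕ) + 1) * n = 3 * n := rfl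
      have e2 : Nat.factorial 3 / (((2 : Fin 3) : ℕ) + 1) * n = 2 * n := rfl
      rw [e0, e1, e2]
      ring
    rw [h1]
    exact h
  exact ⟨c, hC, hnorm, hB⟩

end Pool.Agent.Lib.MP_26bfe6_an
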