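import Mathlib

/-!
# Exponentials on boxes and the wide window estimate
-/

set_option autoImplicit false

namespace Pool.Agent.Lib.MP_26bfe6_an

open Finset

/-- `e(x) = exp(2π i x)` -/
noncomputable def ee (x : ℝ) : ℂ := Complex.exp (2 * Real.pi * Complex.I * x)

theorem ee_add (x y : ℝ) : ee (x + y) = ee x * ee y := by
  unfold ee
  rw [← Complex.exp_add]; congr 1; push_cast; ring

theorem ee_zero : ee 0 = 1 := by simp [ee]

theorem ee_norm (x : ℝ) : ‖ee x‖ = 1 := by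
  unfold ee
  have : (2 * Real.pi * Complex.I * x : ℂ) = ((2 * Real.pi * x : ℝ) : ℂ) * Complex.I := by
    push_cast; ring
  rw [this, Complex.norm_exp_ofReal_mul_I]

theorem ee_ne (x : ℝ) : ee x ≠ 0 := Complex.exp_ne_zero _

theorem ee_neg (x : ℝ) : ee (-x) = (starRingEnd ℂ) (ee x) := by
  unfold ee
  rw [← Complex.exp_conj]
  congr 1
  simp
  left
  exact (map_ofNat (starRingEnd ℂ) 2).symm

theorem ee_conj_mul (x : ℝ) : (starRingEnd ℂ) (ee x) * ee x = 1 := by
  rw [← ee_neg, ← ee_add]; simp [ee_zero]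

theorem ee_eq_one_iff (x : ℝ) : ee x = 1 ↔ ∃ n : ℤ, x = n := by
  unfold ee
  rw [Complex.exp_eq_one_iff]
  constructor
  · rintro ⟨n, hn⟩
    refine ⟨n, ?_⟩
    have h2 : (2 * Real.pi * Complex.I : ℂ) ≠ 0 := Complex.two_pi_I_ne_zero
    have : (2 * Real.pi * Complex.I : ℂ) * x = (2 * Real.pi * Complex.I) * n := by
      rw [hn]; ring
    have := mul_left_cancel₀ h2 this
    exact_mod_cast this
  · rintro ⟨n, hn⟩
    refine ⟨n, ?_⟩
    rw [hn]; push_cast; ring

theorem ee_int (n : ℤ) : ee n = 1 := (ee_eq_one_iff _).2 ⟨n, rfl⟩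

theorem ee_nat (n : ℕ) : ee n = 1 := by
  have := ee_int n
  simpa using this

theorem ee_nat_mul (n : ℕ) (x : ℝ) : ee (n * x) = ee x ^ n := by
  unfold ee
  rw [← Complex.exp_nat_mul]; congr 1; push_cast; ring

theorem ee_sum {ι : Type*} (s : Finset ι) (f : ι → ℝ) : ee (∑ i ∈ s, f i) = ∏ i ∈ s, ee (f i) := by
  unfold ee
  rw [← Complex.exp_sum]; congr 1; push_cast; rw [Finset.mul_sum]

theorem ee_sub_one_le (x : ℝ) : ‖ee x - 1‖ ≤ 2 * Real.pi * |x| := by
  unfold ee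
  have : (2 * Real.pi * Complex.I * x : ℂ) = Complex.I * ((2 * Real.pi * x : ℝ) : ℂ) := by
    push_cast; ring
  rw [this]
  have h := Real.norm_exp_I_mul_ofReal_sub_one_le (x := 2 * Real.pi * x)
  refine h.trans ?_
  rw [Real.norm_eq_abs, abs_mul, abs_of_nonneg (by positivity : (0:ℝ) ≤ 2 * Real.pi)]

theorem ee_lip (x y : ℝ) : ‖ee x - ee y‖ ≤ 2 * Real.pi * |x - y| := by
  have : ee x - ee y = ee y * (ee (x - y) - 1) := by
    rw [mul_sub, ← ee_add]; simp
  rw [this, norm_mul, ee_norm, one_mul]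
  exact ee_sub_one_le _

/-- geometric sums -/
theorem geom_norm_le (x : ℝ) (hx : ee x ≠ 1) (M : ℕ) :
    ‖∑ j ∈ range M, ee (j * x)‖ ≤ 2 / ‖ee x - 1‖ := by
  simp_rw [ee_nat_mul]
  rw [geom_sum_eq hx, norm_div]
  apply div_le_div_of_nonneg_right _ (norm_nonneg _)
  calc ‖ee x ^ M - 1‖ ≤ ‖ee x ^ M‖ + ‖(1:ℂ)‖ := norm_sub_le _ _
    _ = 2 := by rw [norm_pow, ee_norm]; norm_num

theorem geom_zero (P : ℕ) (hP : 0 < P) (x y : ℕ) (hx : x < P) (hy : y < P) :
    ∑ j ∈ range P, ee (j * (((x:ℝ) - y) / P)) = if x = y then (P : ℂ) else 0 := by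
  split_ifs with h
  · subst h
    simp [ee_zero]
  · have hP' : (P : ℝ) ≠ 0 := by positivity
    have hne : ee (((x:ℝ) - y) / P) ≠ 1 := by
      intro h1
      obtain ⟨n, hn⟩ := (ee_eq_one_iff _).1 h1
      rw [div_eq_iff hP'] at hn
      have h2 : (x : ℤ) - y = n * P := by exact_mod_cast hn
      have h3 : |(x : ℤ) - y| < P := by
        rw [abs_lt]; constructor <;> omega
      rw [h2, abs_mul] at h3
      have hn0 : n = 0 := by
        by_contra hn0
        have : 1 ≤ |n| := Int.one_le_abs hn0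
        have h4 : |(P : ℤ)| = P := abs_of_nonneg (by positivity)
        rw [h4] at h3
        nlinarith [(by positivity : (0:ℤ) < P)]
      rw [hn0] at h2
      omega
    simp_rw [ee_nat_mul]
    rw [geom_sum_eq hne]
    have : ee (((x:ℝ) - y) / P) ^ P = 1 := by
      rw [← ee_nat_mul, mul_div_cancel₀ _ hP']
      have := ee_int ((x:ℤ) - y)
      simpa using this
    rw [this]; simp

variable {D : Type*} [Fintype D] [DecidableEq D]

/-- the box `[0, M)^D` -/
def box (D : Type*) [Fintype D] [DecidableEq D] (M : ℕ) : Finset (D → ℕ) :=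
  Fintype.piFinset fun _ => range M

theorem mem_box {M : ℕ} {v : D → ℕ} : v ∈ box D M ↔ ∀ i, v i < M := by
  simp [box, Fintype.mem_piFinset]

theorem card_box (M : ℕ) : (box D M).card = M ^ Fintype.card D := by
  simp [box, Fintype.card_piFinset]

/-- the exponential `e(θ·v)` -/
noncomputable def ph (θ : D → ℝ) (v : D → ℕ) : ℂ := ee (∑ i, θ i * v i)

theorem ph_norm (θ : D → ℝ) (v : D → ℕ) : ‖ph θ v‖ = 1 := ee_norm _

theorem ph_add (θ : D → ℝ) (v w : D → ℕ) : ph θ (v + w) = ph θ v * ph θ w := by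
  unfold ph
  rw [← ee_add]; congr 1
  rw [← Finset.sum_add_distrib]
  apply Finset.sum_congr rfl
  intro i _
  simp only [Pi.add_apply]; push_cast; ring

/-- orthogonality -/
theorem orth (P : ℕ) (hP : 0 < P) (x y : D → ℕ) (hx : ∀ i, x i < P) (hy : ∀ i, y i < P) :
    ∑ k ∈ box D P, ph (fun i => (k i : ℝ) / P) x * (starRingEnd ℂ) (ph (fun i => (k i : ℝ) / P) y) =
      if x = y then ((P : ℂ)) ^ Fintype.card D else 0 := by
  have h1 : ∀ k : D → ℕ, ph (fun i => (k i : ℝ) / P) x *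
      (starRingEnd ℂ) (ph (fun i => (k i : ℝ) / P) y) =
      ∏ i, ee ((k i) * (((x i:ℝ) - y i) / P)) := by
    intro k
    unfold ph
    rw [← ee_neg, ← ee_add, ← ee_sum]
    congr 1
    rw [← Finset.sum_neg_distrib, ← Finset.sum_add_distrib]
    apply Finset.sum_congr rfl
    intro i _
    ring
  simp_rw [h1]
  unfold box
  rw [← Finset.prod_univ_sum (fun _ => range P) (fun i j => ee ((j:ℕ) * (((x i:ℝ) - y i) / P)))]
  have h2 : ∀ i, ∑ j ∈ range P, ee ((j:ℕ) * (((x i:ℝ) - y i) / P)) =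
      if x i = y i then (P : ℂ) else 0 := fun i => geom_zero P hP (x i) (y i) (hx i) (hy i)
  simp_rw [h2]
  split_ifs with h
  · subst h
    simp
  · obtain ⟨i, hi⟩ := Function.ne_iff.1 h
    exact Finset.prod_eq_zero (Finset.mem_univ i) (if_neg hi)

theorem parseval (P : ℕ) (hP : 0 < P) (X : Finset (D → ℕ)) (hX : X ⊆ box D P) (f : (D → ℕ) → ℂ) :
    ∑ k ∈ box D P, ‖∑ s ∈ X, f s * ph (fun i => (k i : ℝ) / P) s‖ ^ 2 =
      (P : ℝ) ^ Fintype.card D * ∑ s ∈ X, ‖f s‖ ^ 2 := by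
  have h1 : ((∑ k ∈ box D P, ‖∑ s ∈ X, f s * ph (fun i => (k i : ℝ) / P) s‖ ^ 2 : ℝ) : ℂ) =
      ((P : ℝ) ^ Fintype.card D * ∑ s ∈ X, ‖f s‖ ^ 2 : ℝ) := by
    push_cast
    have h2 : ∀ k : D → ℕ, ((‖∑ s ∈ X, f s * ph (fun i => (k i : ℝ) / P) s‖ : ℂ)) ^ 2 =
        ∑ s ∈ X, ∑ t ∈ X, (f s * (starRingEnd ℂ) (f t)) *
          (ph (fun i => (k i : ℝ) / P) s * (starRingEnd ℂ) (ph (fun i => (k i : ℝ) / P) t)) := by
      intro k
      rw [← Complex.mul_conj', map_sum, Finset.sum_mul_sum]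
      apply Finset.sum_congr rfl
      intro s _
      apply Finset.sum_congr rfl
      intro t _
      rw [map_mul]; ring
    simp_rw [h2]
    rw [Finset.sum_comm]
    rw [Finset.mul_sum]
    apply Finset.sum_congr rfl
    intro s hs
    rw [Finset.sum_comm]
    simp_rw [← Finset.mul_sum]
    have h3 : ∀ t ∈ X, (f s * (starRingEnd ℂ) (f t)) * ∑ k ∈ box D P,
        (ph (fun i => (k i : ℝ) / P) s * (starRingEnd ℂ) (ph (fun i => (k i : ℝ) / P) t)) =
        if s = t then (P:ℂ) ^ Fintype.card D * (‖f s‖ : ℂ) ^ 2 else 0 := by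
      intro t ht
      rw [orth P hP s t (mem_box.1 (hX hs)) (mem_box.1 (hX ht))]
      split_ifs with hst
      · subst hst
        rw [Complex.mul_conj']; ring
      · rw [mul_zero]
    rw [Finset.sum_congr rfl h3]
    simp [hs]
  exact_mod_cast h1

/-- The wide window estimate. -/
theorem wide {J : Type*} [Fintype J] (k : J → ℂ) (u : J → D → ℕ) (L R : ℕ) (hR : 0 < R)
    (hu : ∀ j i, u j i < L + 1) (F G' : (D → ℕ) → ℂ) (hF : ∀ v, ‖F v‖ ≤ 1) (hG : ∀ v, ‖G' v‖ ≤ 1)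
    (S₀ : ℝ) (hS : ∀ θ : D → ℝ, ‖∑ j, k j * ph θ (u j)‖ ≤ S₀) :
    ‖∑ j, ∑ s ∈ box D R, k j * F s * G' (u j + s)‖ ≤
      S₀ * (Real.sqrt ((R : ℝ) ^ Fintype.card D) * Real.sqrt (((R + L : ℕ) : ℝ) ^ Fintype.card D)) := by
  set P := R + L with hP
  have hP0 : 0 < P := by omega
  have hS0 : 0 ≤ S₀ := (norm_nonneg _).trans (hS 0)
  set κ : (D → ℕ) → D → ℝ := fun m i => (m i : ℝ) / P with hκ
  set Kh : (D → ℕ) → ℂ := fun m => ∑ j, k j * ph (κ m) (u j) with hKh
  set Fh : (D → ℕ) → ℂ := fun m => ∑ s ∈ box D R, F s * ph (κ m) s with hFh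
  set Gh : (D → ℕ) → ℂ := fun m => ∑ t ∈ box D P, (starRingEnd ℂ) (G' t) * ph (κ m) t with hGh
  -- the identity
  have hid : ∑ m ∈ box D P, Kh m * Fh m * (starRingEnd ℂ) (Gh m) =
      (P : ℂ) ^ Fintype.card D * ∑ j, ∑ s ∈ box D R, k j * F s * G' (u j + s) := by
    have h1 : ∀ m, Kh m * Fh m * (starRingEnd ℂ) (Gh m) =
        ∑ j, ∑ s ∈ box D R, ∑ t ∈ box D P, (k j * F s * G' t) *
          (ph (κ m) (u j + s) * (starRingEnd ℂ) (ph (κ m) t)) := by
      intro m
      simp only [hKh, hFh, hGh]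
      rw [map_sum, Finset.sum_mul_sum, Finset.sum_mul]
      apply Finset.sum_congr rfl
      intro j _
      rw [Finset.sum_mul_sum]
      apply Finset.sum_congr rfl
      intro s _
      apply Finset.sum_congr rfl
      intro t _
      rw [map_mul, Complex.conj_conj, ph_add]; ring
    simp_rw [h1]
    rw [Finset.sum_comm, Finset.mul_sum]
    apply Finset.sum_congr rfl
    intro j _
    rw [Finset.sum_comm, Finset.mul_sum]
    apply Finset.sum_congr rfl
    intro s hs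
    rw [Finset.sum_comm]
    simp_rw [← Finset.mul_sum]
    have hus : ∀ i, (u j + s) i < P := by
      intro i
      have h2 := hu j i
      have h3 := mem_box.1 hs i
      simp only [Pi.add_apply]; omega
    have h3 : ∀ t ∈ box D P, (k j * F s * G' t) * ∑ m ∈ box D P,
        (ph (κ m) (u j + s) * (starRingEnd ℂ) (ph (κ m) t)) =
        if u j + s = t then (P:ℂ) ^ Fintype.card D * (k j * F s * G' (u j + s)) else 0 := by
      intro t ht
      rw [orth P hP0 (u j + s) t hus (mem_box.1 ht)]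
      split_ifs with hst
      · rw [← hst]; ring
      · rw [mul_zero]
    rw [Finset.sum_congr rfl h3, Finset.sum_ite_eq, if_pos (mem_box.2 hus)]
  -- bounds
  have hbound : ‖∑ m ∈ box D P, Kh m * Fh m * (starRingEnd ℂ) (Gh m)‖ ≤
      S₀ * (Real.sqrt (∑ m ∈ box D P, ‖Fh m‖ ^ 2) * Real.sqrt (∑ m ∈ box D P, ‖Gh m‖ ^ 2)) := by
    calc ‖∑ m ∈ box D P, Kh m * Fh m * (starRingEnd ℂ) (Gh m)‖
        ≤ ∑ m ∈ box D P, ‖Kh m * Fh m * (starRingEnd ℂ) (Gh m)‖ := norm_sum_le _ _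
      _ ≤ ∑ m ∈ box D P, S₀ * (‖Fh m‖ * ‖Gh m‖) := by
          apply Finset.sum_le_sum
          intro m _
          rw [norm_mul, norm_mul, Complex.norm_conj, mul_assoc]
          exact mul_le_mul_of_nonneg_right (hS (κ m)) (by positivity)
      _ = S₀ * ∑ m ∈ box D P, ‖Fh m‖ * ‖Gh m‖ := by rw [Finset.mul_sum]
      _ ≤ _ := by
          apply mul_le_mul_of_nonneg_left _ hS0
          exact Real.sum_mul_le_sqrt_mul_sqrt _ _ _
  have hsub : box D R ⊆ box D P := by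
    intro v hv
    rw [mem_box] at hv ⊢
    intro i; have := hv i; omega
  have hpF : ∑ m ∈ box D P, ‖Fh m‖ ^ 2 ≤ (P : ℝ) ^ Fintype.card D * (R : ℝ) ^ Fintype.card D := by
    have := parseval P hP0 (box D R) hsub F
    rw [show (∑ m ∈ box D P, ‖Fh m‖ ^ 2) = _ from this]
    apply mul_le_mul_of_nonneg_left _ (by positivity)
    calc ∑ s ∈ box D R, ‖F s‖ ^ 2 ≤ ∑ _s ∈ box D R, (1:ℝ) := by
          apply Finset.sum_le_sum
          intro s _
          exact pow_le_one₀ (norm_nonneg _) (hF s)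
      _ = (R : ℝ) ^ Fintype.card D := by
          rw [Finset.sum_const, card_box]; simp
  have hpG : ∑ m ∈ box D P, ‖Gh m‖ ^ 2 ≤ (P : ℝ) ^ Fintype.card D * (P : ℝ) ^ Fintype.card D := by
    have := parseval P hP0 (box D P) (le_refl _) (fun t => (starRingEnd ℂ) (G' t))
    rw [show (∑ m ∈ box D P, ‖Gh m‖ ^ 2) = _ from this]
    apply mul_le_mul_of_nonneg_left _ (by positivity)
    calc ∑ s ∈ box D P, ‖(starRingEnd ℂ) (G' s)‖ ^ 2 ≤ ∑ _s ∈ box D P, (1:ℝ) := by
          apply Finset.sum_le_sum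
          intro s _
          rw [Complex.norm_conj]
          exact pow_le_one₀ (norm_nonneg _) (hG s)
      _ = (P : ℝ) ^ Fintype.card D := by
          rw [Finset.sum_const, card_box]; simp
  have hPd : (0:ℝ) < (P : ℝ) ^ Fintype.card D := by positivity
  have hfin : (P : ℝ) ^ Fintype.card D * ‖∑ j, ∑ s ∈ box D R, k j * F s * G' (u j + s)‖ ≤
      (P : ℝ) ^ Fintype.card D * (S₀ * (Real.sqrt ((R : ℝ) ^ Fintype.card D) *
        Real.sqrt ((P : ℝ) ^ Fintype.card D))) := by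
    calc (P : ℝ) ^ Fintype.card D * ‖∑ j, ∑ s ∈ box D R, k j * F s * G' (u j + s)‖
        = ‖∑ m ∈ box D P, Kh m * Fh m * (starRingEnd ℂ) (Gh m)‖ := by
          rw [hid, norm_mul, norm_pow, Complex.norm_natCast]
      _ ≤ S₀ * (Real.sqrt (∑ m ∈ box D P, ‖Fh m‖ ^ 2) *
            Real.sqrt (∑ m ∈ box D P, ‖Gh m‖ ^ 2)) := hbound
      _ ≤ S₀ * (Real.sqrt ((P : ℝ) ^ Fintype.card D * (R : ℝ) ^ Fintype.card D) *
            Real.sqrt ((P : ℝ) ^ Fintype.card D * (P : ℝ) ^ Fintype.card D)) := by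
          apply mul_le_mul_of_nonneg_left _ hS0
          exact mul_le_mul (Real.sqrt_le_sqrt hpF) (Real.sqrt_le_sqrt hpG)
            (Real.sqrt_nonneg _) (Real.sqrt_nonneg _)
      _ = _ := by
          rw [Real.sqrt_mul hPd.le, Real.sqrt_mul hPd.le]
          have := Real.mul_self_sqrt hPd.le
          calc S₀ * (Real.sqrt ((P : ℝ) ^ Fintype.card D) * Real.sqrt ((R : ℝ) ^ Fintype.card D) *
                (Real.sqrt ((P : ℝ) ^ Fintype.card D) * Real.sqrt ((P : ℝ) ^ Fintype.card D)))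
              = (Real.sqrt ((P : ℝ) ^ Fintype.card D) * Real.sqrt ((P : ℝ) ^ Fintype.card D)) *
                (S₀ * (Real.sqrt ((R : ℝ) ^ Fintype.card D) *
                  Real.sqrt ((P : ℝ) ^ Fintype.card D))) := by ring
            _ = _ := by rw [this]
  have := le_of_mul_le_mul_left hfin hPd
  exact this

end Pool.Agent.Lib.MP_26bfe6_an
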