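import Pool.Agent.Lib.MP_26bfe6_an.Base
import Pool.Agent.Lib.MP_26bfe6_an.Wide

/-!
# The deterministic one-function estimate
-/

set_option autoImplicit false

namespace Pool.Agent.Lib.MP_26bfe6_an

open Finset

variable {D : Type*} [Fintype D] [DecidableEq D]

/-- the integer representatives of a residue vector -/
def lift (σ : D → ZMod 4) : D → ℕ := fun i => (σ i).val

/-- local Fourier coefficient along a residue class -/
noncomputable def BB (M : ℕ) (φ : (D → ℕ) → ℂ) (θ : D → ℝ) (σ : D → ZMod 4) : ℂ :=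
  ((M : ℂ) ^ Fintype.card D)⁻¹ *
    ∑ m ∈ box D M, φ (lift σ + 4 • m) * ph θ (lift σ + 4 • m)

theorem BB_norm_le (M : ℕ) {φ : (D → ℕ) → ℂ} (hφ : ∀ v, ‖φ v‖ ≤ 1) (θ : D → ℝ)
    (σ : D → ZMod 4) : ‖BB M φ θ σ‖ ≤ 1 := by
  unfold BB
  rw [norm_mul, norm_inv, norm_pow, Complex.norm_natCast]
  have h1 : ‖∑ m ∈ box D M, φ (lift σ + 4 • m) * ph θ (lift σ + 4 • m)‖ ≤
      (M : ℝ) ^ Fintype.card D := by
    calc _ ≤ ∑ m ∈ box D M, ‖φ (lift σ + 4 • m) * ph θ (lift σ + 4 • m)‖ := norm_sum_le _ _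
      _ ≤ ∑ _m ∈ box D M, (1:ℝ) := by
          apply Finset.sum_le_sum
          intro m _
          rw [norm_mul, ph_norm, mul_one]; exact hφ _
      _ = _ := by rw [Finset.sum_const, card_box]; simp
  by_cases h0 : (M : ℝ) ^ Fintype.card D = 0
  · rw [h0]; simp
  · have hpos : 0 < (M : ℝ) ^ Fintype.card D := lt_of_le_of_ne (by positivity) (Ne.symm h0)
    rw [inv_mul_le_iff₀ hpos, mul_one]
    exact h1

variable {K : Type*} [Fintype K]

/-- the averaged local quantity -/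
noncomputable def VV (a : K → D → ZMod 4) (w : K → ℂ) (M : ℕ) (φ : (D → ℕ) → ℂ)
    (Θ : (D → ZMod 4) → D → ℝ) : ℝ :=
  ((4 : ℝ) ^ Fintype.card D)⁻¹ * ∑ ρ, ‖∑ k, w k * BB M φ (Θ ρ) (ρ + a k)‖

/-- splitting a box -/
theorem sum_box_mul {A : Type*} [AddCommMonoid A] (q M : ℕ) (hM : 0 < M) (f : (D → ℕ) → A) :
    ∑ m ∈ box D (q * M), f m = ∑ u ∈ box D q, ∑ m ∈ box D M, f (M • u + m) := by
  rw [← Finset.sum_product']
  symm
  refine Finset.sum_nbij' (fun p => M • p.1 + p.2) (fun m => (fun i => m i / M, fun i => m i % M))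
    ?_ ?_ ?_ ?_ ?_
  · rintro ⟨u, m⟩ h
    rw [Finset.mem_product, mem_box, mem_box] at h
    rw [mem_box]
    intro i
    have h1 := h.1 i
    have h2 := h.2 i
    simp only [Pi.add_apply, Pi.smul_apply, smul_eq_mul]
    calc M * u i + m i < M * u i + M := by simp only at h2 ⊢; omega
      _ = (u i + 1) * M := by ring
      _ ≤ q * M := Nat.mul_le_mul_right _ h1
  · intro m h
    rw [mem_box] at h
    rw [Finset.mem_product, mem_box, mem_box]
    refine ⟨fun i => ?_, fun i => Nat.mod_lt _ hM⟩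
    show m i / M < q
    rw [Nat.div_lt_iff_lt_mul hM]
    exact h i
  · rintro ⟨u, m⟩ h
    rw [Finset.mem_product, mem_box, mem_box] at h
    ext i
    · simp only [Pi.add_apply, Pi.smul_apply, smul_eq_mul]
      have h2 := h.2 i
      simp only at h2
      rw [Nat.mul_add_div hM, Nat.div_eq_of_lt h2, add_zero]
    · simp only [Pi.add_apply, Pi.smul_apply, smul_eq_mul]
      have h2 := h.2 i
      simp only at h2
      rw [Nat.mul_add_mod, Nat.mod_eq_of_lt h2]
  · intro m _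
    funext i
    simp only [Pi.add_apply, Pi.smul_apply, smul_eq_mul]
    exact Nat.div_add_mod _ _
  · intro p _; rfl

theorem BB_mul (q M : ℕ) (hM : 0 < M) (φ : (D → ℕ) → ℂ) (θ : D → ℝ) (σ : D → ZMod 4) :
    BB (q * M) φ θ σ = ((q : ℂ) ^ Fintype.card D)⁻¹ * ∑ u ∈ box D q,
      ph θ (4 • (M • u)) * BB M (fun v => φ (v + 4 • (M • u))) θ σ := by
  unfold BB
  rw [sum_box_mul q M hM]
  rw [Nat.cast_mul, mul_pow, mul_inv, mul_assoc]
  congr 1
  rw [Finset.mul_sum]
  apply Finset.sum_congr rfl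
  intro u _
  rw [← mul_assoc, mul_comm (ph θ (4 • (M • u))), mul_assoc]
  congr 1
  rw [Finset.mul_sum]
  apply Finset.sum_congr rfl
  intro m _
  have h1 : lift σ + 4 • (M • u + m) = (lift σ + 4 • m) + 4 • (M • u) := by
    rw [smul_add]; abel
  rw [h1, ph_add]; ring

theorem VV_mul {a : K → D → ZMod 4} {w : K → ℂ} {M : ℕ} (hM : 0 < M) {q : ℕ} (hq : 0 < q)
    {Θ : (D → ZMod 4) → D → ℝ} {δ : ℝ}
    (h : ∀ φ : (D → ℕ) → ℂ, (∀ v, ‖φ v‖ ≤ 1) → VV a w M φ Θ ≤ δ) (φ : (D → ℕ) → ℂ)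
    (hφ : ∀ v, ‖φ v‖ ≤ 1) : VV a w (q * M) φ Θ ≤ δ := by
  have hqd : (0:ℝ) < (q : ℝ) ^ Fintype.card D := by positivity
  have h4 : (0:ℝ) ≤ ((4 : ℝ) ^ Fintype.card D)⁻¹ := by positivity
  have key : VV a w (q * M) φ Θ ≤ ((q : ℝ) ^ Fintype.card D)⁻¹ * ∑ u ∈ box D q,
      VV a w M (fun v => φ (v + 4 • (M • u))) Θ := by
    unfold VV
    rw [← Finset.mul_sum, Finset.sum_comm, ← mul_assoc, mul_comm (((q : ℝ) ^ Fintype.card D)⁻¹),
      mul_assoc]
    apply mul_le_mul_of_nonneg_left _ h4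
    rw [Finset.mul_sum]
    apply Finset.sum_le_sum
    intro ρ _
    have e1 : ∑ k, w k * BB (q * M) φ (Θ ρ) (ρ + a k) =
        ((q : ℂ) ^ Fintype.card D)⁻¹ * ∑ u ∈ box D q, ph (Θ ρ) (4 • (M • u)) *
          ∑ k, w k * BB M (fun v => φ (v + 4 • (M • u))) (Θ ρ) (ρ + a k) := by
      simp_rw [BB_mul q M hM, Finset.mul_sum]
      rw [Finset.sum_comm]
      apply Finset.sum_congr rfl
      intro u _
      apply Finset.sum_congr rfl
      intro k _
      ring
    rw [e1, norm_mul, norm_inv, norm_pow, Complex.norm_natCast]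
    apply mul_le_mul_of_nonneg_left _ (by positivity)
    refine (norm_sum_le _ _).trans (Finset.sum_le_sum fun u _ => ?_)
    rw [norm_mul, ph_norm, one_mul]
  refine key.trans ?_
  rw [inv_mul_le_iff₀ hqd]
  calc ∑ u ∈ box D q, VV a w M (fun v => φ (v + 4 • (M • u))) Θ ≤ ∑ _u ∈ box D q, δ := by
        apply Finset.sum_le_sum
        intro u _
        exact h _ fun v => hφ _
    _ = (q : ℝ) ^ Fintype.card D * δ := by rw [Finset.sum_const, card_box]; simp

/-- continuity in the frequencies -/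
theorem BB_lip (M : ℕ) {φ : (D → ℕ) → ℂ} (hφ : ∀ v, ‖φ v‖ ≤ 1) (θ θ' : D → ℝ) {η : ℝ}
    (hη : ∀ i, |θ i - θ' i| ≤ η) (σ : D → ZMod 4) :
    ‖BB M φ θ σ - BB M φ θ' σ‖ ≤ 2 * Real.pi * (Fintype.card D * (η * (4 * M + 4))) := by
  unfold BB
  rw [← mul_sub, ← Finset.sum_sub_distrib, norm_mul, norm_inv, norm_pow, Complex.norm_natCast]
  have h1 : ‖∑ m ∈ box D M, (φ (lift σ + 4 • m) * ph θ (lift σ + 4 • m) -
      φ (lift σ + 4 • m) * ph θ' (lift σ + 4 • m))‖ ≤
      (M : ℝ) ^ Fintype.card D * (2 * Real.pi * (Fintype.card D * (η * (4 * M + 4)))) := by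
    calc _ ≤ ∑ m ∈ box D M, ‖φ (lift σ + 4 • m) * ph θ (lift σ + 4 • m) -
          φ (lift σ + 4 • m) * ph θ' (lift σ + 4 • m)‖ := norm_sum_le _ _
      _ ≤ ∑ _m ∈ box D M, (2 * Real.pi * (Fintype.card D * (η * (4 * M + 4)))) := by
          apply Finset.sum_le_sum
          intro m hm
          rw [← mul_sub, norm_mul]
          have h2 : ‖ph θ (lift σ + 4 • m) - ph θ' (lift σ + 4 • m)‖ ≤
              2 * Real.pi * (Fintype.card D * (η * (4 * M + 4))) := by
            unfold ph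
            refine (ee_lip _ _).trans ?_
            apply mul_le_mul_of_nonneg_left _ (by positivity)
            rw [← Finset.sum_sub_distrib]
            calc |∑ i, (θ i * ((lift σ + 4 • m) i : ℕ) - θ' i * ((lift σ + 4 • m) i : ℕ))|
                ≤ ∑ i, |θ i * ((lift σ + 4 • m) i : ℕ) - θ' i * ((lift σ + 4 • m) i : ℕ)| :=
                  Finset.abs_sum_le_sum_abs _ _
              _ ≤ ∑ _i : D, η * (4 * M + 4) := by
                  apply Finset.sum_le_sum
                  intro i _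
                  rw [← sub_mul, abs_mul]
                  have h3 : ((lift σ + 4 • m) i : ℕ) ≤ 4 * M + 4 := by
                    have h4 : (σ i).val < 4 := ZMod.val_lt _
                    have h5 := mem_box.1 hm i
                    simp only [Pi.add_apply, Pi.smul_apply, smul_eq_mul, lift]
                    omega
                  have h6 : |(((lift σ + 4 • m) i : ℕ) : ℝ)| ≤ 4 * M + 4 := by
                    rw [abs_of_nonneg (by positivity)]
                    exact_mod_cast h3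
                  exact mul_le_mul (hη i) h6 (abs_nonneg _) ((abs_nonneg _).trans (hη i))
              _ = _ := by rw [Finset.sum_const, Finset.card_univ]; simp
          calc ‖φ (lift σ + 4 • m)‖ * ‖ph θ (lift σ + 4 • m) - ph θ' (lift σ + 4 • m)‖
              ≤ 1 * (2 * Real.pi * (Fintype.card D * (η * (4 * M + 4)))) :=
                mul_le_mul (hφ _) h2 (norm_nonneg _) zero_le_one
            _ = _ := one_mul _
      _ = _ := by rw [Finset.sum_const, card_box]; simp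
  by_cases h0 : (M : ℝ) ^ Fintype.card D = 0
  · rw [h0]; simp only [inv_zero, zero_mul]
    by_cases hD : Nonempty D
    · obtain ⟨i⟩ := hD
      have : 0 ≤ η := (abs_nonneg _).trans (hη i)
      positivity
    · have : Fintype.card D = 0 := Fintype.card_eq_zero_iff.2 (not_nonempty_iff.1 hD)
      rw [this]; simp
  · have hpos : 0 < (M : ℝ) ^ Fintype.card D := lt_of_le_of_ne (by positivity) (Ne.symm h0)
    rw [inv_mul_le_iff₀ hpos]
    exact h1

theorem VV_lip (a : K → D → ZMod 4) (w : K → ℂ) (M : ℕ) {φ : (D → ℕ) → ℂ}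
    (hφ : ∀ v, ‖φ v‖ ≤ 1) (Θ Θ' : (D → ZMod 4) → D → ℝ) {η : ℝ}
    (hη : ∀ ρ i, |Θ' ρ i - Θ ρ i| ≤ η) :
    VV a w M φ Θ' ≤ VV a w M φ Θ +
      (∑ k, ‖w k‖) * (2 * Real.pi * (Fintype.card D * (η * (4 * M + 4)))) := by
  unfold VV
  have h4 : (0:ℝ) < (4 : ℝ) ^ Fintype.card D := by positivity
  set E := (∑ k, ‖w k‖) * (2 * Real.pi * (Fintype.card D * (η * (4 * M + 4)))) with hE
  have h1 : ∀ ρ, ‖∑ k, w k * BB M φ (Θ' ρ) (ρ + a k)‖ ≤
      ‖∑ k, w k * BB M φ (Θ ρ) (ρ + a k)‖ + E := by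
    intro ρ
    have h2 : ‖∑ k, w k * BB M φ (Θ' ρ) (ρ + a k) - ∑ k, w k * BB M φ (Θ ρ) (ρ + a k)‖ ≤ E := by
      rw [← Finset.sum_sub_distrib, hE, Finset.sum_mul]
      refine (norm_sum_le _ _).trans (Finset.sum_le_sum fun k _ => ?_)
      rw [← mul_sub, norm_mul]
      exact mul_le_mul_of_nonneg_left (BB_lip M hφ _ _ (hη ρ) _) (norm_nonneg _)
    calc _ = ‖(∑ k, w k * BB M φ (Θ ρ) (ρ + a k)) +
          (∑ k, w k * BB M φ (Θ' ρ) (ρ + a k) - ∑ k, w k * BB M φ (Θ ρ) (ρ + a k))‖ := by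
          congr 1; ring
      _ ≤ _ := (norm_add_le _ _).trans (by linarith)
  calc ((4 : ℝ) ^ Fintype.card D)⁻¹ * ∑ ρ, ‖∑ k, w k * BB M φ (Θ' ρ) (ρ + a k)‖
      ≤ ((4 : ℝ) ^ Fintype.card D)⁻¹ * ∑ ρ, (‖∑ k, w k * BB M φ (Θ ρ) (ρ + a k)‖ + E) :=
        mul_le_mul_of_nonneg_left (Finset.sum_le_sum fun ρ _ => h1 ρ) (by positivity)
    _ = _ := by
        rw [Finset.sum_add_distrib, mul_add]
        congr 1
        rw [Finset.sum_const, Finset.card_univ, Fintype.card_fun, ZMod.card]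
        rw [nsmul_eq_mul]
        push_cast
        field_simp

/-- reduction of frequencies modulo one -/
theorem ph_fract (θ : D → ℝ) (v : D → ℕ) : ph (fun i => Int.fract (θ i)) v = ph θ v := by
  unfold ph
  rw [ee_sum, ee_sum]
  apply Finset.prod_congr rfl
  intro i _
  have : θ i * (v i : ℝ) = Int.fract (θ i) * v i + ((⌊θ i⌋ * (v i : ℤ) : ℤ) : ℝ) := by
    push_cast
    rw [← add_mul, Int.fract_add_floor]
  rw [this, ee_add, ee_int, mul_one]

theorem VV_fract (a : K → D → ZMod 4) (w : K → ℂ) (M : ℕ) (φ : (D → ℕ) → ℂ)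
    (Θ : (D → ZMod 4) → D → ℝ) :
    VV a w M φ (fun ρ i => Int.fract (Θ ρ i)) = VV a w M φ Θ := by
  unfold VV BB
  simp_rw [ph_fract]

end Pool.Agent.Lib.MP_26bfe6_an
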