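import Pool.Agent.Lib.MP_26bfe6_an.DL

/-!
# Almost orthogonality and the pointwise (in the frequencies) estimate
-/

set_option autoImplicit false

namespace Pool.Agent.Lib.MP_26bfe6_an

open Finset Filter Topology

/-- An approximate Bessel inequality. -/
theorem bessel {ι R : Type*} [DecidableEq R] (B : Finset ι) (hB : 0 < B.card) (C : Finset R)
    (U : R → ι → ℂ) (φ : ι → ℂ) (hφ : ∀ m, ‖φ m‖ ≤ 1) (hU : ∀ c m, ‖U c m‖ = 1) (η : ℝ)
    (h0 : 0 ≤ η)
    (hη : ∀ c ∈ C, ∀ c' ∈ C, c ≠ c' →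
      ‖(B.card : ℂ)⁻¹ * ∑ m ∈ B, U c m * (starRingEnd ℂ) (U c' m)‖ ≤ η)
    (h2 : (C.card : ℝ) ^ 2 * η ≤ 2) :
    ∑ c ∈ C, ‖(B.card : ℂ)⁻¹ * ∑ m ∈ B, φ m * U c m‖ ^ 2 ≤ 2 := by
  have hN : (0:ℝ) < B.card := by exact_mod_cast hB
  have hNc : (B.card : ℂ) ≠ 0 := by exact_mod_cast hB.ne'
  set b : R → ℂ := fun c => (B.card : ℂ)⁻¹ * ∑ m ∈ B, φ m * U c m with hb
  have hb1 : ∀ c, ‖b c‖ ≤ 1 := by
    intro c
    simp only [hb]
    rw [norm_mul, norm_inv, Complex.norm_natCast, inv_mul_le_iff₀ hN, mul_one]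
    calc ‖∑ m ∈ B, φ m * U c m‖ ≤ ∑ m ∈ B, ‖φ m * U c m‖ := norm_sum_le _ _
      _ ≤ ∑ _m ∈ B, (1:ℝ) := by
          apply Finset.sum_le_sum
          intro m _
          rw [norm_mul, hU, mul_one]; exact hφ m
      _ = B.card := by simp
  set S : ℝ := ∑ c ∈ C, ‖b c‖ ^ 2 with hS
  have hS0 : 0 ≤ S := Finset.sum_nonneg fun c _ => by positivity
  set V : ι → ℂ := fun m => ∑ c ∈ C, (starRingEnd ℂ) (b c) * U c m with hV
  have e1 : (S : ℂ) = (B.card : ℂ)⁻¹ * ∑ m ∈ B, φ m * V m := by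
    simp only [hS, hV]
    push_cast
    have : ∀ c ∈ C, ((‖b c‖ : ℂ)) ^ 2 = (B.card : ℂ)⁻¹ * ∑ m ∈ B, φ m *
        ((starRingEnd ℂ) (b c) * U c m) := by
      intro c _
      rw [← Complex.mul_conj']
      conv_lhs => rw [hb]
      simp only
      rw [mul_assoc]
      congr 1
      rw [Finset.sum_mul]
      apply Finset.sum_congr rfl
      intro m _
      ring
    rw [Finset.sum_congr rfl this, ← Finset.mul_sum, Finset.sum_comm]
    congr 1
    apply Finset.sum_congr rfl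
    intro m _
    rw [Finset.mul_sum]
  have e2 : S ≤ (B.card : ℝ)⁻¹ * ∑ m ∈ B, ‖V m‖ := by
    have : S = ‖(S : ℂ)‖ := by rw [Complex.norm_real, Real.norm_eq_abs, abs_of_nonneg hS0]
    rw [this, e1, norm_mul, norm_inv, Complex.norm_natCast]
    apply mul_le_mul_of_nonneg_left _ (by positivity)
    refine (norm_sum_le _ _).trans (Finset.sum_le_sum fun m _ => ?_)
    rw [norm_mul]
    exact mul_le_of_le_one_left (norm_nonneg _) (hφ m)
  have e3 : S ^ 2 ≤ (B.card : ℝ)⁻¹ * ∑ m ∈ B, ‖V m‖ ^ 2 := by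
    calc S ^ 2 ≤ ((B.card : ℝ)⁻¹ * ∑ m ∈ B, ‖V m‖) ^ 2 := pow_le_pow_left₀ hS0 e2 2
      _ = (B.card : ℝ)⁻¹ * ((B.card : ℝ)⁻¹ * (∑ m ∈ B, ‖V m‖) ^ 2) := by ring
      _ ≤ (B.card : ℝ)⁻¹ * ((B.card : ℝ)⁻¹ * (B.card * ∑ m ∈ B, ‖V m‖ ^ 2)) := by
          apply mul_le_mul_of_nonneg_left _ (by positivity)
          apply mul_le_mul_of_nonneg_left _ (by positivity)
          exact sq_sum_le_card_mul_sum_sq
      _ = _ := by
          rw [← mul_assoc ((B.card : ℝ)⁻¹) (B.card : ℝ), inv_mul_cancel₀ hN.ne', one_mul]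
  have e4 : (((B.card : ℝ)⁻¹ * ∑ m ∈ B, ‖V m‖ ^ 2 : ℝ) : ℂ) =
      ∑ c ∈ C, ∑ c' ∈ C, ((starRingEnd ℂ) (b c) * b c') *
        ((B.card : ℂ)⁻¹ * ∑ m ∈ B, U c m * (starRingEnd ℂ) (U c' m)) := by
    push_cast
    have h1 : ∀ m ∈ B, ((‖V m‖ : ℂ)) ^ 2 = ∑ c ∈ C, ∑ c' ∈ C,
        ((starRingEnd ℂ) (b c) * b c') * (U c m * (starRingEnd ℂ) (U c' m)) := by
      intro m _
      rw [← Complex.mul_conj']
      simp only [hV]
      rw [map_sum, Finset.sum_mul_sum]
      apply Finset.sum_congr rfl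
      intro c _
      apply Finset.sum_congr rfl
      intro c' _
      rw [map_mul (starRingEnd ℂ) ((starRingEnd ℂ) (b c')), Complex.conj_conj]; ring
    rw [Finset.sum_congr rfl h1, Finset.sum_comm, Finset.mul_sum]
    apply Finset.sum_congr rfl
    intro c _
    rw [Finset.sum_comm, Finset.mul_sum]
    apply Finset.sum_congr rfl
    intro c' _
    rw [← Finset.mul_sum]; ring
  have e5 : (B.card : ℝ)⁻¹ * ∑ m ∈ B, ‖V m‖ ^ 2 ≤ S + (C.card : ℝ) ^ 2 * η := by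
    have h1 : (B.card : ℝ)⁻¹ * ∑ m ∈ B, ‖V m‖ ^ 2 =
        ‖(((B.card : ℝ)⁻¹ * ∑ m ∈ B, ‖V m‖ ^ 2 : ℝ) : ℂ)‖ := by
      rw [Complex.norm_real, Real.norm_eq_abs, abs_of_nonneg (by positivity)]
    rw [h1, e4]
    calc _ ≤ ∑ c ∈ C, ∑ c' ∈ C, ‖((starRingEnd ℂ) (b c) * b c') *
        ((B.card : ℂ)⁻¹ * ∑ m ∈ B, U c m * (starRingEnd ℂ) (U c' m))‖ :=
          (norm_sum_le _ _).trans (Finset.sum_le_sum fun c _ => norm_sum_le _ _)
      _ ≤ ∑ c ∈ C, ∑ c' ∈ C, ((if c = c' then ‖b c‖ ^ 2 else 0) + η) := by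
          apply Finset.sum_le_sum
          intro c hc
          apply Finset.sum_le_sum
          intro c' hc'
          rw [norm_mul, norm_mul, Complex.norm_conj]
          split_ifs with h
          · subst h
            have h3 : (B.card : ℂ)⁻¹ * ∑ m ∈ B, U c m * (starRingEnd ℂ) (U c m) = 1 := by
              have : ∀ m ∈ B, U c m * (starRingEnd ℂ) (U c m) = 1 := by
                intro m _
                rw [Complex.mul_conj', hU]; simp
              rw [Finset.sum_congr rfl this]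
              simp [hNc]
            rw [h3, norm_one, mul_one]
            nlinarith [norm_nonneg (b c)]
          · have h4 := hη c hc c' hc' h
            calc ‖b c‖ * ‖b c'‖ * ‖(B.card : ℂ)⁻¹ * ∑ m ∈ B, U c m * (starRingEnd ℂ) (U c' m)‖
                ≤ 1 * η := by
                  apply mul_le_mul _ h4 (norm_nonneg _) zero_le_one
                  exact mul_le_one₀ (hb1 c) (norm_nonneg _) (hb1 c')
              _ = 0 + η := by ring
      _ = S + (C.card : ℝ) ^ 2 * η := by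
          simp_rw [Finset.sum_add_distrib]
          congr 1
          · rw [hS]
            apply Finset.sum_congr rfl
            intro c hc
            rw [Finset.sum_ite_eq, if_pos hc]
          · simp only [Finset.sum_const, nsmul_eq_mul]; ring
  have e6 : S ^ 2 ≤ S + 2 := by linarith
  show S ≤ 2
  nlinarith

variable {D : Type*} [Fintype D] [DecidableEq D]

/-- Gram entries for inequivalent frequencies tend to zero. -/
theorem gram_small (θ θ' : D → ℝ) (h : ¬ ∀ i, ∃ n : ℤ, 4 * (θ i - θ' i) = n)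
    (σ : D → ZMod 4) {ε : ℝ} (hε : 0 < ε) :
    ∀ᶠ M : ℕ in atTop, ‖((box D M).card : ℂ)⁻¹ * ∑ m ∈ box D M,
      ph θ (lift σ + 4 • m) * (starRingEnd ℂ) (ph θ' (lift σ + 4 • m))‖ ≤ ε := by
  push Not at h
  obtain ⟨i₀, hi₀⟩ := h
  have hne : ee (4 * (θ i₀ - θ' i₀)) ≠ 1 := by
    intro h1
    obtain ⟨n, hn⟩ := (ee_eq_one_iff _).1 h1
    exact hi₀ n hn
  set κ : ℝ := 2 / ‖ee (4 * (θ i₀ - θ' i₀)) - 1‖ with hκ
  have hκ0 : 0 ≤ κ := by positivity
  have hlim : ∀ᶠ M : ℕ in atTop, κ / ε ≤ (M : ℝ) :=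
    (tendsto_natCast_atTop_atTop (R := ℝ)).eventually_ge_atTop (κ / ε)
  filter_upwards [hlim, eventually_gt_atTop 0] with M hM hM0
  have hMR : (0:ℝ) < M := by exact_mod_cast hM0
  have h1 : ∀ m : D → ℕ, ph θ (lift σ + 4 • m) * (starRingEnd ℂ) (ph θ' (lift σ + 4 • m)) =
      ee (∑ i, (θ i - θ' i) * (lift σ i)) * ∏ i, ee ((m i : ℝ) * (4 * (θ i - θ' i))) := by
    intro m
    unfold ph
    rw [← ee_neg, ← ee_add, ← ee_sum, ← ee_add]
    congr 1
    rw [← Finset.sum_neg_distrib, ← Finset.sum_add_distrib, ← Finset.sum_add_distrib]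
    apply Finset.sum_congr rfl
    intro i _
    simp only [Pi.add_apply, Pi.smul_apply, smul_eq_mul]
    push_cast; ring
  simp_rw [h1]
  rw [← Finset.mul_sum, card_box]
  unfold box
  rw [← Finset.prod_univ_sum (fun _ => range M) (fun i j => ee ((j:ℝ) * (4 * (θ i - θ' i))))]
  rw [norm_mul, norm_mul, ee_norm, one_mul, norm_inv, Complex.norm_natCast, norm_prod]
  push_cast
  have h2 : ((M:ℝ) ^ Fintype.card D)⁻¹ * ∏ i, ‖∑ j ∈ range M, ee ((j:ℝ) * (4 * (θ i - θ' i)))‖ =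
      ∏ i, ((M:ℝ)⁻¹ * ‖∑ j ∈ range M, ee ((j:ℝ) * (4 * (θ i - θ' i)))‖) := by
    rw [Finset.prod_mul_distrib, Finset.prod_const, Finset.card_univ, inv_pow]
  rw [h2, ← Finset.mul_prod_erase Finset.univ _ (Finset.mem_univ i₀)]
  have h3 : (M:ℝ)⁻¹ * ‖∑ j ∈ range M, ee ((j:ℝ) * (4 * (θ i₀ - θ' i₀)))‖ ≤ ε := by
    rw [inv_mul_le_iff₀ hMR]
    refine (geom_norm_le _ hne M).trans ?_
    rw [div_le_iff₀ hε] at hM
    exact hM
  have h4 : ∏ i ∈ Finset.univ.erase i₀,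
      ((M:ℝ)⁻¹ * ‖∑ j ∈ range M, ee ((j:ℝ) * (4 * (θ i - θ' i)))‖) ≤ 1 := by
    apply Finset.prod_le_one
    · intro i _; positivity
    · intro i _
      rw [inv_mul_le_iff₀ hMR, mul_one]
      calc _ ≤ ∑ j ∈ range M, ‖ee ((j:ℝ) * (4 * (θ i - θ' i)))‖ := norm_sum_le _ _
        _ = M := by simp [ee_norm]
  calc _ ≤ ε * 1 := mul_le_mul h3 h4 (Finset.prod_nonneg fun i _ => by positivity) hε.le
    _ = ε := mul_one _

/-- change of representative frequency -/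
theorem BB_chi (M : ℕ) (φ : (D → ℕ) → ℂ) (θ θ' : D → ℝ) (n : D → ℤ)
    (h : ∀ i, 4 * (θ i - θ' i) = n i) (σ : D → ZMod 4) :
    BB M φ θ σ = chi (fun i => (n i : ZMod 4)) σ * BB M φ θ' σ := by
  unfold BB
  rw [← mul_assoc, mul_comm (chi _ σ), mul_assoc]
  congr 1
  rw [Finset.mul_sum]
  apply Finset.sum_congr rfl
  intro m _
  have h1 : ph θ (lift σ + 4 • m) = chi (fun i => (n i : ZMod 4)) σ * ph θ' (lift σ + 4 • m) := by
    have h2 : chi (fun i => (n i : ZMod 4)) σ = ee (∑ i, (n i : ℝ) * (σ i).val / 4) := by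
      unfold chi
      rw [ee_sum]
      apply Finset.prod_congr rfl
      intro i _
      have h3 : Complex.I = ee (1/4) := by
        unfold ee
        have : (2 * Real.pi * Complex.I * ((1/4 : ℝ) : ℂ)) = Real.pi / 2 * Complex.I := by
          push_cast; ring
        rw [this, Complex.exp_pi_div_two_mul_I]
      rw [h3, ← ee_nat_mul]
      -- `n i = val + 4 k`
      have h4 : ((4:ℕ):ℤ) ∣ n i - (((n i : ZMod 4).val : ℕ) : ℤ) := by
        rw [← ZMod.intCast_zmod_eq_zero_iff_dvd]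
        · push_cast
          rw [ZMod.natCast_zmod_val]; simp
      obtain ⟨k, hk⟩ := h4
      have h5 : (n i : ℝ) = ((n i : ZMod 4).val : ℕ) + 4 * k := by
        have : (n i) = (((n i : ZMod 4).val : ℕ) : ℤ) + 4 * k := by
          push_cast at hk; linarith
        exact_mod_cast this
      have h6 : (n i : ℝ) * (σ i).val / 4 =
          (((n i : ZMod 4).val * (σ i).val : ℕ) : ℝ) * (1/4) + ((k * ((σ i).val : ℤ) : ℤ) : ℝ) := by
        push_cast
        rw [h5]; ring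
      rw [h6, ee_add, ee_int, mul_one]
    rw [h2]
    unfold ph
    rw [← ee_add]
    have h7 : ∑ i, θ i * (((lift σ + 4 • m) i : ℕ) : ℝ) =
        (∑ i, (n i : ℝ) * (σ i).val / 4 + ∑ i, θ' i * (((lift σ + 4 • m) i : ℕ) : ℝ)) +
          ((∑ i, n i * (m i : ℤ) : ℤ) : ℝ) := by
      push_cast
      rw [← Finset.sum_add_distrib, ← Finset.sum_add_distrib]
      apply Finset.sum_congr rfl
      intro i _
      have := h i
      simp only [Pi.add_apply, Pi.smul_apply, smul_eq_mul, lift]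
      push_cast
      have h8 : θ i = θ' i + (n i : ℝ) / 4 := by linarith
      rw [h8]; ring
    rw [h7, ee_add, ee_int, mul_one]
  rw [h1]; ring

end Pool.Agent.Lib.MP_26bfe6_an
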