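import Pool.Agent.Lib.MP_26bfe6_an.DL2

/-!
# The uniform deterministic estimate
-/

set_option autoImplicit false

namespace Pool.Agent.Lib.MP_26bfe6_an

open Finset Filter Topology

variable {D : Type*} [Fintype D] [DecidableEq D] {K : Type*} [Fintype K]

theorem VV_nonneg (a : K → D → ZMod 4) (w : K → ℂ) (M : ℕ) (φ : (D → ℕ) → ℂ)
    (Θ : (D → ZMod 4) → D → ℝ) : 0 ≤ VV a w M φ Θ := by
  unfold VV
  positivity

/-- the pointwise estimate -/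
theorem VV_pointwise {a : K → D → ZMod 4} {w : K → ℂ} {p : ℕ} {c : ℝ} (hp : 2 ≤ p)
    (hc : 0 ≤ c) (hLp : LpB p c a w (chi (D := D))) (Θ : (D → ZMod 4) → D → ℝ) :
    ∀ᶠ M : ℕ in atTop, ∀ φ : (D → ℕ) → ℂ, (∀ v, ‖φ v‖ ≤ 1) → VV a w M φ Θ ^ p ≤ 2 * c := by
  classical
  -- the equivalence relation
  let s : Setoid (D → ZMod 4) :=
    { r := fun ρ ρ' => ∀ i, ∃ n : ℤ, 4 * (Θ ρ i - Θ ρ' i) = n
      iseqv :=
        { refl := fun ρ i => ⟨0, by simp⟩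
          symm := fun {ρ ρ'} h i => by
            obtain ⟨n, hn⟩ := h i
            exact ⟨-n, by push_cast; linarith⟩
          trans := fun {ρ ρ' ρ''} h h' i => by
            obtain ⟨n, hn⟩ := h i
            obtain ⟨n', hn'⟩ := h' i
            exact ⟨n + n', by push_cast; linarith⟩ } }
  let rep : (D → ZMod 4) → (D → ZMod 4) := fun ρ => (Quotient.mk s ρ).out
  have hrep : ∀ ρ, ∀ i, ∃ n : ℤ, 4 * (Θ ρ i - Θ (rep ρ) i) = n := by
    intro ρ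
    have : s.r (rep ρ) ρ := Quotient.exact (Quotient.out_eq (Quotient.mk s ρ))
    exact s.symm this
  choose nn hnn using hrep
  let C : Finset (D → ZMod 4) := Finset.univ.image rep
  have hC : ∀ c ∈ C, ∀ c' ∈ C, c ≠ c' → ¬ ∀ i, ∃ n : ℤ, 4 * (Θ c i - Θ c' i) = n := by
    intro c hc c' hc' hne h
    obtain ⟨x, _, rfl⟩ := Finset.mem_image.1 hc
    obtain ⟨y, _, rfl⟩ := Finset.mem_image.1 hc'
    apply hne
    have h1 : Quotient.mk s (rep x) = Quotient.mk s (rep y) := Quotient.sound h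
    have h2 : Quotient.mk s (rep x) = Quotient.mk s x := Quotient.out_eq _
    have h3 : Quotient.mk s (rep y) = Quotient.mk s y := Quotient.out_eq _
    have h4 : Quotient.mk s x = Quotient.mk s y := by rw [← h2, ← h3, h1]
    show (Quotient.mk s x).out = (Quotient.mk s y).out
    rw [h4]
  set η : ℝ := 2 / ((C.card : ℝ) ^ 2 + 1) with hη
  have hη0 : 0 < η := by positivity
  have hη2 : (C.card : ℝ) ^ 2 * η ≤ 2 := by
    rw [hη, mul_div_assoc', div_le_iff₀ (by positivity)]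
    nlinarith [sq_nonneg (C.card : ℝ)]
  have hev : ∀ᶠ M : ℕ in atTop, ∀ σ : D → ZMod 4, ∀ c : D → ZMod 4, ∀ c' : D → ZMod 4,
      (c ∈ C ∧ c' ∈ C ∧ c ≠ c') →
      ‖((box D M).card : ℂ)⁻¹ * ∑ m ∈ box D M,
        ph (Θ c) (lift σ + 4 • m) * (starRingEnd ℂ) (ph (Θ c') (lift σ + 4 • m))‖ ≤ η := by
    rw [eventually_all]; intro σ
    rw [eventually_all]; intro c
    rw [eventually_all]; intro c'
    by_cases hcc : c ∈ C ∧ c' ∈ C ∧ c ≠ c'
    · have := gram_small (Θ c) (Θ c') (hC c hcc.1 c' hcc.2.1 hcc.2.2) σ hη0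
      filter_upwards [this] with M hM _
      exact hM
    · exact Eventually.of_forall fun M h => absurd h hcc
  filter_upwards [hev, eventually_gt_atTop 0] with M hM hM0 φ hφ
  have hcard : 0 < (box D M).card := by rw [card_box]; positivity
  -- Bessel
  have hbes : ∀ σ : D → ZMod 4, ∑ c ∈ C, ‖BB M φ (Θ c) σ‖ ^ 2 ≤ 2 := by
    intro σ
    have := bessel (box D M) hcard C (fun c m => ph (Θ c) (lift σ + 4 • m))
      (fun m => φ (lift σ + 4 • m)) (fun m => hφ _) (fun c m => ph_norm _ _) η hη0.le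
      (fun c hc c' hc' hne => hM σ c c' ⟨hc, hc', hne⟩) hη2
    rw [card_box] at this
    unfold BB
    push_cast at this
    exact this
  -- reduction to representatives
  have hred : ∀ ρ : D → ZMod 4, ‖∑ k, w k * BB M φ (Θ ρ) (ρ + a k)‖ =
      ‖∑ k, w k * chi (fun i => (nn ρ i : ZMod 4)) (a k) * BB M φ (Θ (rep ρ)) (ρ + a k)‖ := by
    intro ρ
    have h1 : ∑ k, w k * BB M φ (Θ ρ) (ρ + a k) = chi (fun i => (nn ρ i : ZMod 4)) ρ *
        ∑ k, w k * chi (fun i => (nn ρ i : ZMod 4)) (a k) * BB M φ (Θ (rep ρ)) (ρ + a k) := by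
      rw [Finset.mul_sum]
      apply Finset.sum_congr rfl
      intro k _
      rw [BB_chi M φ (Θ ρ) (Θ (rep ρ)) (nn ρ) (hnn ρ), chi_add]
      ring
    rw [h1, norm_mul, chi_norm, one_mul]
  have hmain : ∑ ρ, ‖∑ k, w k * BB M φ (Θ ρ) (ρ + a k)‖ ^ p ≤ 2 * c * (4:ℝ) ^ Fintype.card D := by
    calc ∑ ρ, ‖∑ k, w k * BB M φ (Θ ρ) (ρ + a k)‖ ^ p
        ≤ ∑ ρ, ∑ c' ∈ C, ∑ ξ, ‖∑ k, w k * chi ξ (a k) * BB M φ (Θ c') (ρ + a k)‖ ^ p := by
          apply Finset.sum_le_sum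
          intro ρ _
          rw [hred ρ]
          have h1 : ‖∑ k, w k * chi (fun i => (nn ρ i : ZMod 4)) (a k) *
              BB M φ (Θ (rep ρ)) (ρ + a k)‖ ^ p ≤
              ∑ ξ, ‖∑ k, w k * chi ξ (a k) * BB M φ (Θ (rep ρ)) (ρ + a k)‖ ^ p :=
            Finset.single_le_sum (f := fun ξ => ‖∑ k, w k * chi ξ (a k) *
              BB M φ (Θ (rep ρ)) (ρ + a k)‖ ^ p) (fun ξ _ => by positivity)
              (Finset.mem_univ (fun i => (nn ρ i : ZMod 4)))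
          refine h1.trans ?_
          exact Finset.single_le_sum (f := fun c' => ∑ ξ, ‖∑ k, w k * chi ξ (a k) *
              BB M φ (Θ c') (ρ + a k)‖ ^ p)
              (fun ξ _ => Finset.sum_nonneg fun _ _ => by positivity)
              (Finset.mem_image_of_mem rep (Finset.mem_univ ρ))
      _ = ∑ c' ∈ C, ∑ ρ, ∑ ξ, ‖∑ k, w k * chi ξ (a k) * BB M φ (Θ c') (ρ + a k)‖ ^ p :=
          Finset.sum_comm
      _ ≤ ∑ c' ∈ C, c * ∑ σ, ‖BB M φ (Θ c') σ‖ ^ p := by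
          apply Finset.sum_le_sum
          intro c' _
          exact hLp (fun σ => BB M φ (Θ c') σ)
      _ = c * ∑ σ, ∑ c' ∈ C, ‖BB M φ (Θ c') σ‖ ^ p := by
          rw [← Finset.mul_sum, Finset.sum_comm]
      _ ≤ c * ∑ σ : D → ZMod 4, (2:ℝ) := by
          apply mul_le_mul_of_nonneg_left _ hc
          apply Finset.sum_le_sum
          intro σ _
          refine le_trans (Finset.sum_le_sum fun c' _ => ?_) (hbes σ)
          exact pow_le_pow_of_le_one (norm_nonneg _) (BB_norm_le M hφ _ _) hp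
      _ = _ := by
          rw [Finset.sum_const, Finset.card_univ, Fintype.card_fun, ZMod.card, nsmul_eq_mul]
          push_cast; ring
  have h4 : (0:ℝ) < (4 : ℝ) ^ Fintype.card D := by positivity
  have hcardR : ((Finset.univ : Finset (D → ZMod 4)).card : ℝ) = (4:ℝ) ^ Fintype.card D := by
    rw [Finset.card_univ, Fintype.card_fun, ZMod.card]; push_cast; rfl
  have hjen : VV a w M φ Θ ^ p ≤ ((4 : ℝ) ^ Fintype.card D)⁻¹ *
      ∑ ρ, ‖∑ k, w k * BB M φ (Θ ρ) (ρ + a k)‖ ^ p := by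
    have := Real.pow_arith_mean_le_arith_mean_pow (Finset.univ : Finset (D → ZMod 4))
      (fun _ => ((4 : ℝ) ^ Fintype.card D)⁻¹) (fun ρ => ‖∑ k, w k * BB M φ (Θ ρ) (ρ + a k)‖)
      (fun _ _ => by positivity) (by
        rw [Finset.sum_const, nsmul_eq_mul, hcardR]; field_simp)
      (fun _ _ => norm_nonneg _) p
    rw [← Finset.mul_sum, ← Finset.mul_sum] at this
    exact this
  refine hjen.trans ?_
  rw [inv_mul_le_iff₀ h4]
  linarith

/-- the uniform estimate -/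
theorem VV_uniform {a : K → D → ZMod 4} {w : K → ℂ} (hw : ∑ k, ‖w k‖ ≤ 1) {p : ℕ} {c : ℝ}
    (hp : 2 ≤ p) (hc : 0 ≤ c) (hLp : LpB p c a w (chi (D := D))) {δ : ℝ} (hδ : 0 < δ)
    (hcδ : 2 * c ≤ (δ / 2) ^ p) :
    ∃ M : ℕ, 0 < M ∧ ∀ φ : (D → ℕ) → ℂ, (∀ v, ‖φ v‖ ≤ 1) →
      ∀ Θ : (D → ZMod 4) → D → ℝ, VV a w M φ Θ ≤ δ := by
  have h1 : ∀ Θ : (D → ZMod 4) → D → ℝ, ∃ M : ℕ, 0 < M ∧ ∀ φ : (D → ℕ) → ℂ,
      (∀ v, ‖φ v‖ ≤ 1) → VV a w M φ Θ ≤ δ / 2 := by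
    intro Θ
    obtain ⟨M, hM, hM0⟩ := ((VV_pointwise hp hc hLp Θ).and (eventually_gt_atTop 0)).exists
    refine ⟨M, hM0, fun φ hφ => ?_⟩
    have h2 := (hM φ hφ).trans hcδ
    exact le_of_pow_le_pow_left₀ (by omega) (by positivity) h2
  choose M₀ hM₀ hM₁ using h1
  -- radius
  have h3 : ∀ Θ : (D → ZMod 4) → D → ℝ, ∃ r : ℝ, 0 < r ∧ ∀ Θ', dist Θ' Θ < r →
      ∀ φ : (D → ℕ) → ℂ, (∀ v, ‖φ v‖ ≤ 1) → VV a w (M₀ Θ) φ Θ' ≤ δ := by
    intro Θ
    set E : ℝ := 2 * Real.pi * (Fintype.card D * (4 * M₀ Θ + 4)) + 1 with hE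
    have hE0 : 0 < E := by positivity
    refine ⟨δ / 2 / E, by positivity, fun Θ' hΘ' φ hφ => ?_⟩
    have hr : ∀ ρ i, |Θ' ρ i - Θ ρ i| ≤ δ / 2 / E := by
      intro ρ i
      rw [← Real.dist_eq]
      exact ((dist_le_pi_dist (Θ' ρ) (Θ ρ) i).trans (dist_le_pi_dist Θ' Θ ρ)).trans hΘ'.le
    have h4 := VV_lip a w (M₀ Θ) hφ Θ Θ' hr
    have h5 : (∑ k, ‖w k‖) * (2 * Real.pi * (Fintype.card D * (δ / 2 / E * (4 * M₀ Θ + 4)))) ≤
        δ / 2 := by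
      calc _ ≤ 1 * (2 * Real.pi * (Fintype.card D * (δ / 2 / E * (4 * M₀ Θ + 4)))) :=
            mul_le_mul_of_nonneg_right hw (by positivity)
        _ = (δ / 2) * ((E - 1) / E) := by rw [hE]; ring
        _ ≤ (δ / 2) * 1 := by
            apply mul_le_mul_of_nonneg_left _ (by positivity)
            rw [div_le_one hE0]; linarith
        _ = δ / 2 := mul_one _
    have h6 := hM₁ Θ φ hφ
    linarith
  choose r hr0 hr using h3
  have hcomp : IsCompact (Set.Icc (0 : (D → ZMod 4) → D → ℝ) 1) := isCompact_Icc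
  obtain ⟨t, _, ht⟩ := hcomp.elim_nhds_subcover (fun Θ => Metric.ball Θ (r Θ))
    (fun Θ _ => Metric.ball_mem_nhds _ (hr0 Θ))
  refine ⟨∏ Θ ∈ t, M₀ Θ, Finset.prod_pos fun Θ _ => hM₀ Θ, fun φ hφ Θ => ?_⟩
  rw [← VV_fract]
  set Θ' : (D → ZMod 4) → D → ℝ := fun ρ i => Int.fract (Θ ρ i) with hΘ'
  have hmem : Θ' ∈ Set.Icc (0 : (D → ZMod 4) → D → ℝ) 1 := by
    constructor
    · intro ρ i; exact Int.fract_nonneg _
    · intro ρ i; exact (Int.fract_lt_one _).le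
  obtain ⟨Θ₀, hΘ₀t, hΘ₀⟩ := Set.mem_iUnion₂.1 (ht hmem)
  classical
  have hprod : ∏ Θ ∈ t, M₀ Θ = (∏ Θ ∈ t.erase Θ₀, M₀ Θ) * M₀ Θ₀ := by
    rw [mul_comm, Finset.mul_prod_erase t _ hΘ₀t]
  rw [hprod]
  apply VV_mul (hM₀ Θ₀) (Finset.prod_pos fun Θ _ => hM₀ Θ) _ φ hφ
  intro φ' hφ'
  exact hr Θ₀ Θ' hΘ₀ φ' hφ'

end Pool.Agent.Lib.MP_26bfe6_an
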