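import Mathlib

/-!
# MP_26bfe6_an: the classes of correlation sequences

The definitions of the problem file: the class `𝓑_ℓ` of single-transformation correlation
sequences with exponents `k_i = ℓ!/i`, the class `𝓒_ℓ` of correlation sequences of `ℓ` commuting
transformations, and the closure in the supremum norm over `n = 1, 2, 3, …`.
-/

set_option autoImplicit false

open MeasureTheory

namespace Pool.Agent.MP_26bfe6_an

/-- The class `𝓑_ℓ`: the sequences `n ↦ ∫ T^{k_1 n} f_1 ⋯ T^{k_ℓ n} f_ℓ dμ` with `k_i = ℓ!/i`, where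
`(X, μ)` is a probability space, `T` is an invertible measure-preserving map and `f_i ∈ L^∞(μ)`. The
index `i : Fin ℓ` runs over `0, …, ℓ - 1`, so `k_i` is written `ℓ! / (i + 1)`. -/
def BSeq.{u} (ℓ : ℕ) : Set (ℕ → ℂ) :=
  {a | ∃ (X : Type u) (_ : MeasurableSpace X) (μ : Measure X) (_ : IsProbabilityMeasure μ)
    (T : X ≃ᵐ X) (f : Fin ℓ → X → ℂ), MeasurePreserving T μ μ ∧ (∀ i, MemLp (f i) ⊤ μ) ∧
      ∀ n : ℕ, a n = ∫ x, ∏ i : Fin ℓ, f i (T^[ℓ.factorial / ((i : ℕ) + 1) * n] x) ∂μ}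

/-- The class `𝓒_ℓ`: the sequences `n ↦ ∫ T_1^n f_1 ⋯ T_ℓ^n f_ℓ dμ`, where `(X, μ)` is a probability
space, `T_1, …, T_ℓ` are commuting invertible measure-preserving maps and `f_i ∈ L^∞(μ)`. -/
def CSeq.{u} (ℓ : ℕ) : Set (ℕ → ℂ) :=
  {a | ∃ (X : Type u) (_ : MeasurableSpace X) (μ : Measure X) (_ : IsProbabilityMeasure μ)
    (T : Fin ℓ → X ≃ᵐ X) (f : Fin ℓ → X → ℂ), (∀ i, MeasurePreserving (T i) μ μ) ∧
      (∀ i j x, T i (T j x) = T j (T i x)) ∧ (∀ i, MemLp (f i) ⊤ μ) ∧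
      ∀ n : ℕ, a n = ∫ x, ∏ i : Fin ℓ, f i ((T i)^[n] x) ∂μ}

/-- The closure in the supremum norm over `n ≥ 1`. -/
def supClosure (S : Set (ℕ → ℂ)) : Set (ℕ → ℂ) :=
  {a | ∀ ε : ℝ, 0 < ε → ∃ b ∈ S, ∀ n, 1 ≤ n → ‖a n - b n‖ ≤ ε}

end Pool.Agent.MP_26bfe6_an
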