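import Pool.Agent.Lib.MP_26bfe6_an.Table

/-!
# Sparse digits
-/

set_option autoImplicit false

namespace Pool.Agent.Lib.MP_26bfe6_an

open Finset

/-- the units -/
def qq (j : ℕ) : ℕ := 4 ^ (j ^ 2)

theorem qq_pos (j : ℕ) : 0 < qq j := by unfold qq; positivity

theorem qq_dvd {i j : ℕ} (h : i < j) : 4 * qq i ∣ qq j := by
  unfold qq
  rw [← pow_succ']
  apply pow_dvd_pow
  nlinarith

theorem qq_sum (j : ℕ) : 2 ^ j * ∑ i ∈ range j, qq i ≤ qq j := by
  induction j with
  | zero => simp
  | succ j ih =>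
    rw [Finset.sum_range_succ]
    have h1 : qq (j + 1) = qq j * (4 * (2 ^ j * 2 ^ j * (2 ^ j * 2 ^ j))) := by
      unfold qq
      have h4 : (4:ℕ) ^ j = 2 ^ j * 2 ^ j := by rw [← mul_pow]; rfl
      rw [← h4, ← pow_add, ← pow_succ', ← pow_add]
      congr 1
      ring
    have h2 : 1 ≤ 2 ^ j := Nat.one_le_two_pow
    have h3 : (2:ℕ) ^ (j+1) = 2 * 2 ^ j := by ring
    rw [h1, h3]
    set t := 2 ^ j with ht
    have h4 : t ≤ t * t * (t * t) := by nlinarith [Nat.mul_le_mul h2 h2, Nat.mul_le_mul (Nat.mul_le_mul h2 h2) h2]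
    calc 2 * t * (∑ i ∈ range j, qq i + qq j) = 2 * (t * ∑ i ∈ range j, qq i) + 2 * t * qq j := by
          ring
      _ ≤ 2 * qq j + 2 * t * qq j := by omega
      _ = qq j * (2 + 2 * t) := by ring
      _ ≤ qq j * (4 * (t * t * (t * t))) := by
          apply Nat.mul_le_mul_left
          omega

/-- the digit at position `j` -/
def dg (j x : ℕ) : ZMod 4 := ((x / qq j : ℕ) : ZMod 4)

theorem dg_mod {j Q : ℕ} (h : 4 * qq j ∣ Q) (x : ℕ) : dg j (x % Q) = dg j x := by
  unfold dg
  obtain ⟨k, rfl⟩ := h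
  conv_rhs => rw [← Nat.mod_add_div x (4 * qq j * k)]
  have : x % (4 * qq j * k) + 4 * qq j * k * (x / (4 * qq j * k)) =
      x % (4 * qq j * k) + (4 * k * (x / (4 * qq j * k))) * qq j := by ring
  rw [this, Nat.add_mul_div_right _ _ (qq_pos j)]
  push_cast
  have h4 : (4 : ZMod 4) = 0 := rfl
  rw [h4]; ring

/-- no carry -/
theorem dg_add {j x n V e h : ℕ} (hn : n = e + V * qq j + 4 * qq j * h)
    (hx : x % qq j + e < qq j) : dg j (x + n) = dg j x + V := by
  unfold dg
  have h1 : x + n = (x % qq j + e) + qq j * (x / qq j + V + 4 * h) := by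
    conv_lhs => rw [← Nat.mod_add_div x (qq j), hn]
    ring
  rw [h1, Nat.add_mul_div_left _ _ (qq_pos j), Nat.div_eq_of_lt hx]
  push_cast
  have h4 : (4 : ZMod 4) = 0 := rfl
  rw [h4]; ring

/-- lower part -/
def low (V : ℕ → ℕ) (j : ℕ) : ℕ := ∑ i ∈ range j, V i * qq i

theorem low_split (V : ℕ → ℕ) {j J : ℕ} (h : j < J) :
    ∃ k, low V J = low V j + V j * qq j + 4 * qq j * k := by
  induction J with
  | zero => omega
  | succ J ih =>
    rcases Nat.lt_succ_iff_lt_or_eq.1 h with h1 | h1
    · obtain ⟨k, hk⟩ := ih h1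
      obtain ⟨k', hk'⟩ := qq_dvd h1
      refine ⟨k + V J * k', ?_⟩
      have : low V (J + 1) = low V J + V J * qq J := by
        unfold low; rw [Finset.sum_range_succ]
      rw [this, hk, hk']; ring
    · subst h1
      refine ⟨0, ?_⟩
      unfold low; rw [Finset.sum_range_succ]; ring

/-- good points -/
def good (V : ℕ → ℕ) (J x : ℕ) : Prop := ∀ j < J, x % qq j + low V j < qq j

instance (V : ℕ → ℕ) (J x : ℕ) : Decidable (good V J x) := by unfold good; infer_instance

theorem dg_good {V : ℕ → ℕ} {J x : ℕ} (h : good V J x) {j : ℕ} (hj : j < J) :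
    dg j (x + low V J) = dg j x + V j := by
  obtain ⟨k, hk⟩ := low_split V hj
  exact dg_add hk (h j hj)

theorem count_bad {q Q e : ℕ} (hq : 0 < q) (hQ : q ∣ Q) :
    ((range Q).filter fun x => ¬ (x % q + e < q)).card * q ≤ Q * e := by
  obtain ⟨m, rfl⟩ := hQ
  have : ((range (q * m)).filter fun x => ¬ (x % q + e < q)).card ≤
      (range m ×ˢ range e).card := by
    apply Finset.card_le_card_of_injOn (fun x => (x / q, q - 1 - x % q))
    · intro x hx
      simp only [Finset.coe_filter, Finset.mem_range, Set.mem_ofPred_eq] at hx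
      simp only [Finset.coe_product, Set.mem_prod, Finset.mem_coe, Finset.mem_range]
      have h1 := Nat.mod_lt x hq
      exact ⟨Nat.div_lt_of_lt_mul hx.1, by omega⟩
    · intro x hx y hy hxy
      simp only [Prod.mk.injEq] at hxy
      have h1 := Nat.mod_lt x hq
      have h2 := Nat.mod_lt y hq
      have h3 : x % q = y % q := by omega
      rw [← Nat.mod_add_div x q, ← Nat.mod_add_div y q, h3, hxy.1]
  rw [Finset.card_product, Finset.card_range, Finset.card_range] at this
  calc _ ≤ m * e * q := Nat.mul_le_mul_right _ this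
    _ = _ := by ring

theorem low_le {V : ℕ → ℕ} {r : ℕ} (hV : ∀ i, V i ≤ r) (j : ℕ) : low V j * 2 ^ j ≤ r * qq j := by
  calc low V j * 2 ^ j ≤ (∑ i ∈ range j, r * qq i) * 2 ^ j :=
        Nat.mul_le_mul_right _ (Finset.sum_le_sum fun i _ => Nat.mul_le_mul_right _ (hV i))
    _ = r * (2 ^ j * ∑ i ∈ range j, qq i) := by rw [← Finset.mul_sum]; ring
    _ ≤ r * qq j := Nat.mul_le_mul_left _ (qq_sum j)

theorem low_zero {V : ℕ → ℕ} {j₀ : ℕ} (hV : ∀ i < j₀, V i = 0) {j : ℕ} (hj : j ≤ j₀) :
    low V j = 0 := by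
  unfold low
  apply Finset.sum_eq_zero
  intro i hi
  rw [hV i (by have := Finset.mem_range.1 hi; omega), zero_mul]

/-- fraction of bad points -/
theorem bad_frac {V : ℕ → ℕ} {r j₀ : ℕ} (hV : ∀ i, V i ≤ r) (h0 : ∀ i < j₀, V i = 0) (J : ℕ) :
    (((range (qq J)).filter fun x => ¬ good V J x).card : ℝ) ≤ (qq J : ℝ) * (r * (1/2) ^ j₀) := by
  -- union bound
  have h1 : (((range (qq J)).filter fun x => ¬ good V J x).card : ℝ) ≤
      ∑ j ∈ range J, (((range (qq J)).filter fun x => ¬ (x % qq j + low V j < qq j)).card : ℝ) := by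
    have : ((range (qq J)).filter fun x => ¬ good V J x) ⊆
        (range J).biUnion fun j => (range (qq J)).filter fun x => ¬ (x % qq j + low V j < qq j) := by
      intro x hx
      rw [Finset.mem_filter] at hx
      obtain ⟨hx1, hx2⟩ := hx
      unfold good at hx2
      push Not at hx2
      obtain ⟨j, hj, hj2⟩ := hx2
      rw [Finset.mem_biUnion]
      refine ⟨j, Finset.mem_range.2 hj, ?_⟩
      rw [Finset.mem_filter]
      exact ⟨hx1, by omega⟩
    have h2 := (Finset.card_le_card this).trans Finset.card_biUnion_le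
    exact_mod_cast h2
  -- each term
  have h2 : ∀ j ∈ range J, (((range (qq J)).filter fun x => ¬ (x % qq j + low V j < qq j)).card : ℝ) ≤
      (qq J : ℝ) * (if j₀ < j then (r:ℝ) * (1/2) ^ j else 0) := by
    intro j hj
    have hqj : (0:ℝ) < qq j := by exact_mod_cast qq_pos j
    have hdvd : qq j ∣ qq J := (Dvd.intro_left 4 rfl).trans (qq_dvd (Finset.mem_range.1 hj))
    have h3 := count_bad (e := low V j) (qq_pos j) hdvd
    have h4 : (((range (qq J)).filter fun x => ¬ (x % qq j + low V j < qq j)).card : ℝ) * qq j ≤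
        qq J * low V j := by exact_mod_cast h3
    split_ifs with hjj
    · have h5 : (low V j : ℝ) * 2 ^ j ≤ r * qq j := by exact_mod_cast low_le hV j
      have h6 : (low V j : ℝ) ≤ r * (1/2) ^ j * qq j := by
        rw [one_div, inv_pow]
        calc (low V j : ℝ) = (low V j : ℝ) * 2 ^ j * (2 ^ j)⁻¹ := by field_simp
          _ ≤ r * qq j * (2 ^ j)⁻¹ := mul_le_mul_of_nonneg_right h5 (by positivity)
          _ = _ := by ring
      have h7 : (((range (qq J)).filter fun x => ¬ (x % qq j + low V j < qq j)).card : ℝ) * qq j ≤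
          ((qq J : ℝ) * (r * (1/2) ^ j)) * qq j := by
        calc _ ≤ (qq J : ℝ) * low V j := h4
          _ ≤ (qq J : ℝ) * (r * (1/2) ^ j * qq j) := mul_le_mul_of_nonneg_left h6 (by positivity)
          _ = _ := by ring
      exact le_of_mul_le_mul_right h7 hqj
    · have h8 : ((range (qq J)).filter fun x => ¬ (x % qq j + low V j < qq j)) = ∅ := by
        apply Finset.filter_eq_empty_iff.2
        intro x _
        rw [low_zero h0 (by omega), add_zero, not_not]
        exact Nat.mod_lt _ (qq_pos j)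
      rw [h8]; simp
  -- geometric sum
  have h3 : ∀ J : ℕ, ∑ j ∈ range J, (if j₀ < j then (1/2 : ℝ) ^ j else 0) ≤
      (1/2) ^ j₀ - (if j₀ < J then (1/2 : ℝ) ^ (J-1) else 0) := by
    intro J
    induction J with
    | zero => simp
    | succ J ih =>
      rw [Finset.sum_range_succ]
      by_cases hJ : j₀ < J
      · rw [if_pos hJ] at ih ⊢
        rw [if_pos (by omega)]
        have : (1/2 : ℝ) ^ (J - 1) = 2 * (1/2) ^ J := by
          have h5 : J = (J - 1) + 1 := by omega
          conv_rhs => rw [h5, pow_succ]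
          ring
        rw [this] at ih
        simp only [Nat.add_sub_cancel]
        linarith
      · rw [if_neg hJ] at ih ⊢
        by_cases hJ2 : j₀ < J + 1
        · rw [if_pos hJ2]
          have : J = j₀ := by omega
          subst this
          simp only [Nat.add_sub_cancel, add_zero]
          have h6 : ∑ j ∈ range J, (if J < j then (1/2 : ℝ) ^ j else 0) = 0 := by
            apply Finset.sum_eq_zero
            intro j hj
            rw [if_neg]
            have := Finset.mem_range.1 hj
            omega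
          rw [h6]; simp
        · rw [if_neg hJ2]
          simpa using ih
  calc _ ≤ _ := h1
    _ ≤ ∑ j ∈ range J, (qq J : ℝ) * (if j₀ < j then (r:ℝ) * (1/2) ^ j else 0) := Finset.sum_le_sum h2
    _ = (qq J : ℝ) * (r * ∑ j ∈ range J, (if j₀ < j then (1/2 : ℝ) ^ j else 0)) := by
        rw [← Finset.mul_sum, Finset.mul_sum (range J) _ (r : ℝ)]
        congr 1
        apply Finset.sum_congr rfl
        intro j _
        split_ifs <;> simp
    _ ≤ (qq J : ℝ) * (r * (1/2) ^ j₀) := by
        apply mul_le_mul_of_nonneg_left _ (by positivity)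
        apply mul_le_mul_of_nonneg_left _ (by positivity)
        have := h3 J
        have h7 : (0:ℝ) ≤ (if j₀ < J then (1/2 : ℝ) ^ (J-1) else 0) := by split_ifs <;> positivity
        linarith

end Pool.Agent.Lib.MP_26bfe6_an
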