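import Mathlib

/-!
# An `L^p → L^p` inequality and its tensor powers

`LpB p c a w χ` says that for all `H : G → ℂ`,
`∑_ρ ∑_ξ |∑_k w_k χ(ξ, a_k) H(ρ + a_k)|^p ≤ c ∑_σ |H σ|^p`.
It tensorizes.
-/

set_option autoImplicit false

namespace Pool.Agent.Lib.MP_26bfe6_an

open Finset

variable {K G Ξ K₁ G₁ Ξ₁ K₂ G₂ Ξ₂ : Type*}

/-- The `L^p` inequality. -/
def LpB [Fintype K] [Fintype G] [Fintype Ξ] [Add G] (p : ℕ) (c : ℝ) (a : K → G) (w : K → ℂ)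
    (χ : Ξ → G → ℂ) : Prop :=
  ∀ H : G → ℂ, ∑ ρ, ∑ ξ, ‖∑ k, w k * χ ξ (a k) * H (ρ + a k)‖ ^ p ≤ c * ∑ σ, ‖H σ‖ ^ p

theorem LpB.prod [Fintype K₁] [Fintype G₁] [Fintype Ξ₁] [Add G₁]
    [Fintype K₂] [Fintype G₂] [Fintype Ξ₂] [Add G₂] {p : ℕ} {c₁ c₂ : ℝ}
    {a₁ : K₁ → G₁} {w₁ : K₁ → ℂ} {χ₁ : Ξ₁ → G₁ → ℂ}
    {a₂ : K₂ → G₂} {w₂ : K₂ → ℂ} {χ₂ : Ξ₂ → G₂ → ℂ}
    (hc₂ : 0 ≤ c₂)
    (h₁ : LpB p c₁ a₁ w₁ χ₁) (h₂ : LpB p c₂ a₂ w₂ χ₂) :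
    LpB p (c₁ * c₂) (fun k : K₁ × K₂ => (a₁ k.1, a₂ k.2)) (fun k => w₁ k.1 * w₂ k.2)
      (fun (ξ : Ξ₁ × Ξ₂) (r : G₁ × G₂) => χ₁ ξ.1 r.1 * χ₂ ξ.2 r.2) := by
  intro H
  -- inner function after applying the first operator
  let H₁ : G₁ → Ξ₁ → G₂ → ℂ := fun ρ₁ ξ₁ y =>
    ∑ k₁, w₁ k₁ * χ₁ ξ₁ (a₁ k₁) * H (ρ₁ + a₁ k₁, y)
  have key : ∀ (ρ : G₁ × G₂) (ξ : Ξ₁ × Ξ₂),
      ∑ k : K₁ × K₂, w₁ k.1 * w₂ k.2 * (χ₁ ξ.1 (a₁ k.1) * χ₂ ξ.2 (a₂ k.2)) *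
        H (ρ + (a₁ k.1, a₂ k.2)) =
      ∑ k₂, w₂ k₂ * χ₂ ξ.2 (a₂ k₂) * H₁ ρ.1 ξ.1 (ρ.2 + a₂ k₂) := by
    intro ρ ξ
    rw [Fintype.sum_prod_type_right]
    apply Finset.sum_congr rfl
    intro k₂ _
    simp only [H₁, Finset.mul_sum]
    apply Finset.sum_congr rfl
    intro k₁ _
    have : ρ + (a₁ k₁, a₂ k₂) = (ρ.1 + a₁ k₁, ρ.2 + a₂ k₂) := rfl
    rw [this]
    ring
  calc ∑ ρ : G₁ × G₂, ∑ ξ : Ξ₁ × Ξ₂, ‖∑ k : K₁ × K₂, w₁ k.1 * w₂ k.2 *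
        (χ₁ ξ.1 (a₁ k.1) * χ₂ ξ.2 (a₂ k.2)) * H (ρ + (a₁ k.1, a₂ k.2))‖ ^ p
      = ∑ ρ : G₁ × G₂, ∑ ξ : Ξ₁ × Ξ₂,
          ‖∑ k₂, w₂ k₂ * χ₂ ξ.2 (a₂ k₂) * H₁ ρ.1 ξ.1 (ρ.2 + a₂ k₂)‖ ^ p := by
        simp_rw [key]
    _ = ∑ ρ₁, ∑ ξ₁, ∑ ρ₂, ∑ ξ₂,
          ‖∑ k₂, w₂ k₂ * χ₂ ξ₂ (a₂ k₂) * H₁ ρ₁ ξ₁ (ρ₂ + a₂ k₂)‖ ^ p := by
        rw [Fintype.sum_prod_type]
        apply Finset.sum_congr rfl
        intro ρ₁ _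
        simp_rw [Fintype.sum_prod_type]
        rw [Finset.sum_comm]
    _ ≤ ∑ ρ₁, ∑ ξ₁, c₂ * ∑ y, ‖H₁ ρ₁ ξ₁ y‖ ^ p := by
        apply Finset.sum_le_sum
        intro ρ₁ _
        apply Finset.sum_le_sum
        intro ξ₁ _
        exact h₂ (H₁ ρ₁ ξ₁)
    _ = c₂ * ∑ y, ∑ ρ₁, ∑ ξ₁, ‖H₁ ρ₁ ξ₁ y‖ ^ p := by
        simp_rw [Finset.mul_sum]
        rw [Finset.sum_comm]
        conv_rhs => rw [Finset.sum_comm]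
        rw [Finset.sum_comm]
        apply Finset.sum_congr rfl
        intro ρ₁ _
        rw [Finset.sum_comm]
    _ ≤ c₂ * ∑ y, c₁ * ∑ x, ‖H (x, y)‖ ^ p := by
        apply mul_le_mul_of_nonneg_left _ hc₂
        apply Finset.sum_le_sum
        intro y _
        exact h₁ (fun x => H (x, y))
    _ = c₁ * c₂ * ∑ σ : G₁ × G₂, ‖H σ‖ ^ p := by
        rw [Fintype.sum_prod_type_right, ← Finset.mul_sum]
        ring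

/-- transfer along equivalences -/
theorem LpB.transfer [Fintype K₁] [Fintype G₁] [Fintype Ξ₁] [Add G₁]
    [Fintype K₂] [Fintype G₂] [Fintype Ξ₂] [Add G₂] {p : ℕ} {c : ℝ}
    {a₁ : K₁ → G₁} {w₁ : K₁ → ℂ} {χ₁ : Ξ₁ → G₁ → ℂ}
    {a₂ : K₂ → G₂} {w₂ : K₂ → ℂ} {χ₂ : Ξ₂ → G₂ → ℂ}
    (eK : K₁ ≃ K₂) (eG : G₁ ≃+ G₂) (eΞ : Ξ₁ ≃ Ξ₂)
    (ha : ∀ k, a₂ (eK k) = eG (a₁ k)) (hw : ∀ k, w₂ (eK k) = w₁ k)
    (hχ : ∀ ξ r, χ₂ (eΞ ξ) (eG r) = χ₁ ξ r)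
    (h₁ : LpB p c a₁ w₁ χ₁) : LpB p c a₂ w₂ χ₂ := by
  intro H
  have := h₁ (fun x => H (eG x))
  calc ∑ ρ, ∑ ξ, ‖∑ k, w₂ k * χ₂ ξ (a₂ k) * H (ρ + a₂ k)‖ ^ p
      = ∑ ρ, ∑ ξ, ‖∑ k, w₁ k * χ₁ ξ (a₁ k) * H (eG (ρ + a₁ k))‖ ^ p := by
        rw [← Equiv.sum_comp eG.toEquiv]
        apply Finset.sum_congr rfl
        intro ρ _
        rw [← Equiv.sum_comp eΞ]
        apply Finset.sum_congr rfl
        intro ξ _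
        rw [← Equiv.sum_comp eK]
        congr 2
        apply Finset.sum_congr rfl
        intro k _
        rw [ha, hw, hχ, map_add]
        rfl
    _ ≤ c * ∑ σ, ‖H (eG σ)‖ ^ p := this
    _ = c * ∑ σ, ‖H σ‖ ^ p := by
        rw [← Equiv.sum_comp eG.toEquiv (fun σ => ‖H σ‖ ^ p)]
        rfl

/-- `N`-fold tensor power -/
theorem LpB.pow [Fintype K] [Fintype G] [Fintype Ξ] [AddCommGroup G] {p : ℕ} {c : ℝ}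
    {a : K → G} {w : K → ℂ} {χ : Ξ → G → ℂ} (hc : 0 ≤ c) (h : LpB p c a w χ) (N : ℕ) :
    LpB p (c ^ N) (fun (k : Fin N → K) i => a (k i)) (fun k => ∏ i, w (k i))
      (fun (ξ : Fin N → Ξ) (r : Fin N → G) => ∏ i, χ (ξ i) (r i)) := by
  induction N with
  | zero =>
    intro H
    simp only [Finset.univ_eq_empty, Finset.prod_empty, pow_zero, one_mul]
    have e : ∀ x y : Fin 0 → G, x = y := fun x y => Subsingleton.elim _ _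
    simp only [Fintype.sum_unique, Finset.univ_unique, Finset.sum_singleton]
    apply le_of_eq
    congr 3
    exact e _ _
  | succ N ih =>
    have h2 := LpB.prod (pow_nonneg hc N) h ih
    rw [← pow_succ'] at h2
    let eG : (G × (Fin N → G)) ≃+ (Fin (N+1) → G) :=
      { Fin.consEquiv (fun _ => G) with
        map_add' := by
          intro x y
          funext i
          refine Fin.cases ?_ (fun j => ?_) i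
          · simp [Fin.consEquiv]
          · simp [Fin.consEquiv] }
    refine LpB.transfer (Fin.consEquiv (fun _ => K)) eG (Fin.consEquiv (fun _ => Ξ))
      ?_ ?_ ?_ h2
    · intro k
      funext i
      refine Fin.cases ?_ (fun j => ?_) i
      · simp [eG, Fin.consEquiv]
      · simp [eG, Fin.consEquiv]
    · intro k
      rw [Fin.prod_univ_succ]
      simp [Fin.consEquiv]
    · intro ξ r
      rw [Fin.prod_univ_succ]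
      simp [eG, Fin.consEquiv]

end Pool.Agent.Lib.MP_26bfe6_an
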