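import Pool.Agent.Lib.MP_26bfe6_an.DL3
import Pool.Agent.Lib.MP_26bfe6_an.Base2

/-!
# The estimate along an orbit
-/

set_option autoImplicit false

namespace Pool.Agent.Lib.MP_26bfe6_an

open Finset Filter Topology

/-- shifts for `N` blocks -/
def aN (N : ℕ) (κ : Fin N → Fin 4) : Fin N × Fin 2 → ZMod 4 := fun p => a0 (κ p.1) p.2

/-- weights for `N` blocks -/
noncomputable def wN (N : ℕ) (κ : Fin N → Fin 4) : ℂ := ∏ i, w0 (κ i)

theorem wN_norm_sum (N : ℕ) : ∑ κ : Fin N → Fin 4, ‖wN N κ‖ = 1 := by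
  unfold wN
  simp_rw [norm_prod, w0_norm]
  simp

theorem LpB_N {p : ℕ} {c : ℝ} (hc : 0 ≤ c) (h : LpB p c a0 w0 (chi (D := Fin 2))) (N : ℕ) :
    LpB p (c ^ N) (aN N) (wN N) (chi (D := Fin N × Fin 2)) := by
  have h1 := LpB.pow hc h N
  let eG : (Fin N → Fin 2 → ZMod 4) ≃+ (Fin N × Fin 2 → ZMod 4) :=
    { (Equiv.curry (Fin N) (Fin 2) (ZMod 4)).symm with
      map_add' := by
        intro x y
        funext i
        rfl }
  refine LpB.transfer (Equiv.refl _) eG eG.toEquiv ?_ ?_ ?_ h1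
  · intro k
    funext i
    rfl
  · intro k
    rfl
  · intro ξ r
    unfold chi
    rw [Fintype.prod_prod_type]
    rfl

/-- the uniform deterministic estimate for suitable `N`, `M` -/
theorem VV_small {δ : ℝ} (hδ : 0 < δ) : ∃ N M : ℕ, 0 < N ∧ 0 < M ∧
    ∀ φ : (Fin N × Fin 2 → ℕ) → ℂ, (∀ v, ‖φ v‖ ≤ 1) →
      ∀ Θ : (Fin N × Fin 2 → ZMod 4) → Fin N × Fin 2 → ℝ, VV (aN N) (wN N) M φ Θ ≤ δ := by
  obtain ⟨m, hm, c, hc0, hc1, hLp⟩ := base_ineq
  have hpos : 0 < (δ / 2) ^ (2 * m) / 2 := by positivity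
  obtain ⟨N, hN⟩ := exists_pow_lt_of_lt_one hpos hc1
  have h0 : c ^ (N + 1) ≤ c ^ N := pow_le_pow_of_le_one hc0 hc1.le (Nat.le_succ N)
  have h1 : 2 * c ^ (N + 1) ≤ (δ / 2) ^ (2 * m) := by linarith
  obtain ⟨M, hM0, hM⟩ := VV_uniform (wN_norm_sum (N + 1)).le (by omega)
    (pow_nonneg hc0 (N + 1)) (LpB_N hc0 hLp (N + 1)) hδ h1
  exact ⟨N + 1, M, Nat.succ_pos N, hM0, hM⟩

/-- exchanging suprema and sums -/
theorem sum_sup_le {R Θ : Type*} [Fintype R] [Nonempty Θ] (f : R → Θ → ℝ) (C : ℝ)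
    (h : ∀ T : R → Θ, ∑ ρ, f ρ (T ρ) ≤ C) :
    ∑ ρ, ⨆ θ, f ρ θ ≤ C := by
  apply le_of_forall_pos_le_add
  intro ε hε
  have hcard : (0:ℝ) < Fintype.card R + 1 := by positivity
  have h1 : ∀ ρ, ∃ θ, (⨆ θ, f ρ θ) - ε / (Fintype.card R + 1) < f ρ θ := by
    intro ρ
    apply exists_lt_of_lt_ciSup
    have : 0 < ε / (Fintype.card R + 1) := by positivity
    linarith
  choose T hT using h1
  calc ∑ ρ, ⨆ θ, f ρ θ ≤ ∑ ρ, (f ρ (T ρ) + ε / (Fintype.card R + 1)) := by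
        apply Finset.sum_le_sum
        intro ρ _
        linarith [hT ρ]
    _ = ∑ ρ, f ρ (T ρ) + Fintype.card R * (ε / (Fintype.card R + 1)) := by
        rw [Finset.sum_add_distrib, Finset.sum_const, Finset.card_univ, nsmul_eq_mul]
    _ ≤ C + ε := by
        apply add_le_add (h T)
        rw [mul_div_assoc', div_le_iff₀ hcard]
        nlinarith

variable {D : Type*} [Fintype D] [DecidableEq D] {K : Type*} [Fintype K]

/-- pairing with the units -/
def dot (q v : D → ℕ) : ℕ := ∑ i, v i * q i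

omit [DecidableEq D] in
theorem dot_add (q v w : D → ℕ) : dot q (v + w) = dot q v + dot q w := by
  unfold dot
  rw [← Finset.sum_add_distrib]
  apply Finset.sum_congr rfl
  intro i _
  simp only [Pi.add_apply]; ring

omit [DecidableEq D] in
theorem dot_smul (q : D → ℕ) (k : ℕ) (v : D → ℕ) : dot q (k • v) = k * dot q v := by
  unfold dot
  rw [Finset.mul_sum]
  apply Finset.sum_congr rfl
  intro i _
  simp only [Pi.smul_apply, smul_eq_mul]; ring

/-- the middle index -/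
def uu (a : K → D → ZMod 4) (ρ : D → ZMod 4) (κ : K) (m : D → ℕ) : D → ℕ :=
  lift (ρ + a κ) + 4 • m

/-- the outer index -/
def vv (ρ : D → ZMod 4) (s : D → ℕ) : D → ℕ := lift ρ + 4 • s + 4

theorem orbit_bound {a : K → D → ZMod 4} {w : K → ℂ} {M : ℕ} (hM : 0 < M) {δ : ℝ}
    (hVV : ∀ φ : (D → ℕ) → ℂ, (∀ v, ‖φ v‖ ≤ 1) → ∀ Θ, VV a w M φ Θ ≤ δ) (R : ℕ) (hR : 0 < R)
    (q : D → ℕ) (Z : ℕ) (F Φ G : ℕ → ℂ) (hF : ∀ j, ‖F j‖ ≤ 1) (hΦ : ∀ j, ‖Φ j‖ ≤ 1)
    (hG : ∀ j, ‖G j‖ ≤ 1) :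
    ‖∑ ρ : D → ZMod 4, ∑ κ, ∑ m ∈ box D M, ∑ s ∈ box D R, w κ *
      (F (Z - dot q (vv ρ s)) * Φ (Z + 3 * dot q (uu a ρ κ m)) *
        G (Z + 12 * dot q (uu a ρ κ m) + 3 * dot q (vv ρ s)))‖ ≤
      (4:ℝ) ^ Fintype.card D * δ * (M:ℝ) ^ Fintype.card D *
        (Real.sqrt ((R : ℝ) ^ Fintype.card D) *
          Real.sqrt (((R + 4 * M : ℕ) : ℝ) ^ Fintype.card D)) := by
  set φ : (D → ℕ) → ℂ := fun v => Φ (Z + 3 * dot q v) with hφd
  have hφ : ∀ v, ‖φ v‖ ≤ 1 := fun v => hΦ _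
  set S : (D → ZMod 4) → ℝ := fun ρ => ⨆ θ : D → ℝ, ‖∑ k, w k * BB M φ θ (ρ + a k)‖ with hS
  have hbdd : ∀ ρ, BddAbove (Set.range fun θ : D → ℝ => ‖∑ k, w k * BB M φ θ (ρ + a k)‖) := by
    intro ρ
    refine ⟨∑ k, ‖w k‖, ?_⟩
    rintro _ ⟨θ, rfl⟩
    refine (norm_sum_le _ _).trans (Finset.sum_le_sum fun k _ => ?_)
    rw [norm_mul]
    exact mul_le_of_le_one_right (norm_nonneg _) (BB_norm_le M hφ _ _)
  have hsum : ∑ ρ, S ρ ≤ (4:ℝ) ^ Fintype.card D * δ := by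
    apply sum_sup_le
    intro Θ
    have := hVV φ hφ Θ
    unfold VV at this
    rwa [inv_mul_le_iff₀ (by positivity)] at this
  have hMd : (0:ℝ) < (M:ℝ) ^ Fintype.card D := by positivity
  set W : ℝ := Real.sqrt ((R : ℝ) ^ Fintype.card D) *
          Real.sqrt (((R + 4 * M : ℕ) : ℝ) ^ Fintype.card D) with hW
  have hρ : ∀ ρ : D → ZMod 4, ‖∑ κ, ∑ m ∈ box D M, ∑ s ∈ box D R, w κ *
      (F (Z - dot q (vv ρ s)) * Φ (Z + 3 * dot q (uu a ρ κ m)) *
        G (Z + 12 * dot q (uu a ρ κ m) + 3 * dot q (vv ρ s)))‖ ≤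
      ((M:ℝ) ^ Fintype.card D * S ρ) * W := by
    intro ρ
    have key := wide (J := K × (box D M)) (fun j => w j.1 * φ (uu a ρ j.1 j.2))
      (fun j => uu a ρ j.1 j.2) (4 * M) R hR ?_
      (fun s => F (Z - dot q (vv ρ s))) (fun v => G (Z + dot q (3 • lift ρ + 12 • v + 12)))
      (fun _ => hF _) (fun _ => hG _) ((M:ℝ) ^ Fintype.card D * S ρ) ?_
    · refine le_of_eq_of_le ?_ key
      congr 1
      rw [Fintype.sum_prod_type]
      apply Finset.sum_congr rfl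
      intro κ _
      rw [← Finset.sum_coe_sort (box D M)]
      apply Finset.sum_congr rfl
      intro m _
      apply Finset.sum_congr rfl
      intro s _
      have h1 : Z + 12 * dot q (uu a ρ κ m) + 3 * dot q (vv ρ s) =
          Z + dot q (3 • lift ρ + 12 • (uu a ρ κ m + s) + 12) := by
        have h12 : (12 : D → ℕ) = 3 • (4 : D → ℕ) := by
          funext i; rfl
        unfold vv
        rw [h12]
        simp only [dot_add, dot_smul]
        ring
      rw [h1]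
      ring
    · rintro ⟨κ, m, hm⟩ i
      have h1 := mem_box.1 hm i
      have h2 : ((ρ + a κ) i).val < 4 := ZMod.val_lt _
      simp only [uu, Pi.add_apply, Pi.smul_apply, smul_eq_mul, lift]
      simp only [Pi.add_apply] at h2
      omega
    · intro θ
      have h1 : ∑ j : K × (box D M), w j.1 * φ (uu a ρ j.1 j.2) * ph θ (uu a ρ j.1 j.2) =
          (M : ℂ) ^ Fintype.card D * ∑ k, w k * BB M φ θ (ρ + a k) := by
        rw [Fintype.sum_prod_type, Finset.mul_sum]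
        apply Finset.sum_congr rfl
        intro κ _
        unfold BB
        rw [Finset.sum_coe_sort (box D M) (fun m => w κ * φ (uu a ρ κ m) * ph θ (uu a ρ κ m))]
        have hne : (M : ℂ) ^ Fintype.card D ≠ 0 := by
          have : (M : ℂ) ≠ 0 := by exact_mod_cast hM.ne'
          exact pow_ne_zero _ this
        have h2 : (M : ℂ) ^ Fintype.card D * (w κ * (((M : ℂ) ^ Fintype.card D)⁻¹ *
            ∑ m ∈ box D M, φ (lift (ρ + a κ) + 4 • m) * ph θ (lift (ρ + a κ) + 4 • m))) =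
            w κ * ∑ m ∈ box D M, φ (lift (ρ + a κ) + 4 • m) * ph θ (lift (ρ + a κ) + 4 • m) := by
          field_simp
        rw [h2, Finset.mul_sum]
        apply Finset.sum_congr rfl
        intro m _
        unfold uu
        ring
      rw [h1, norm_mul, norm_pow, Complex.norm_natCast]
      apply mul_le_mul_of_nonneg_left _ hMd.le
      exact le_ciSup (hbdd ρ) θ
  calc _ ≤ ∑ ρ : D → ZMod 4, ((M:ℝ) ^ Fintype.card D * S ρ) * W :=
        (norm_sum_le _ _).trans (Finset.sum_le_sum fun ρ _ => hρ ρ)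
    _ = (M:ℝ) ^ Fintype.card D * W * ∑ ρ, S ρ := by
        rw [Finset.mul_sum]
        apply Finset.sum_congr rfl
        intro ρ _
        ring
    _ ≤ (M:ℝ) ^ Fintype.card D * W * ((4:ℝ) ^ Fintype.card D * δ) := by
        apply mul_le_mul_of_nonneg_left hsum (by positivity)
    _ = _ := by ring

end Pool.Agent.Lib.MP_26bfe6_an
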