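import Pool.Agent.Lib.MP_26bfe6_an.Base

/-!
# The three functions on `(ℤ/4)² × (ℤ/4)²`
-/

set_option autoImplicit false

namespace Pool.Agent.Lib.MP_26bfe6_an

/-- table 0, four bits per entry -/
def tab0 : ℕ := 0x9fdb9fdb1fd39f53c0c0c0c0c0c0c0c013d713d71b579bd7fff71991bb3b5d5d06c2a8e4ca8664a0bfb7d159f3739d9d024624e8c60ae0a4c4c48080c4c48080531717dbd31f17538c8cc0c08c8cc0c0579393df5f131bdff77755553b3311998e4a6ca8ca86a0ec37b71515f3fb59d182c6682cce02ac60

/-- table 1, four bits per entry -/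
def tab1 : ℕ := 0x7fff7fffff7f77f74c444c44444cccc4ffffffffffffffff199991999111919900000000000000005dd5555555dd5d5d00808000088800804c44c4444c444cccb3b3bb3333333bb38888008880800880bb3bb3bbbb3b3b3311111111111111118880800000088000ddd55d555d55555d8800000008808080

/-- table 2, four bits per entry -/
def tab2 : ℕ := 0x246024602ce0ac6040c040c0c04848c0e4a0e4a06ca864a088066e6c4c4222a0a4e682c468aac600484ea62c8c026260e4a6c28428e20ec0008cc4c000844c40a464e020acece0a0c0c40c8040448c00e42ca8606c2ca0e0888aaaac4ccee660a4624684682e0240c84aea6c0c062e2064aa8e44a8ee420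

/-- table lookup -/
def look (t : ℕ) (x y : Fin 2 → ZMod 4) : ℕ :=
  (t >>> (4 * (16 * (4 * (x 0).val + (x 1).val) + (4 * (y 0).val + (y 1).val)))) % 16

/-- exponents of the target values -/
def texp : Fin 4 → ℕ := ![0, 1, 15, 0]

theorem tab_check : ∀ x0 x1 y0 y1 : ZMod 4, ∀ k : Fin 4,
    (look tab0 ![x0, x1] ![y0, y1] + look tab1 ![x0 - a0 k 0, x1 - a0 k 1] ![y0, y1] +
      look tab2 ![x0, x1] ![y0 - a0 k 0, y1 - a0 k 1]) % 16 = texp k := by
  decide +kernel

theorem tab_rel (x y : Fin 2 → ZMod 4) (k : Fin 4) :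
    (look tab0 x y + look tab1 (x - a0 k) y + look tab2 x (y - a0 k)) % 16 = texp k := by
  have h := tab_check (x 0) (x 1) (y 0) (y 1) k
  have e1 : ∀ z : Fin 2 → ZMod 4, ![z 0, z 1] = z := by
    intro z; funext i; fin_cases i <;> rfl
  have e2 : ![x 0 - a0 k 0, x 1 - a0 k 1] = x - a0 k := by
    funext i; fin_cases i <;> rfl
  have e3 : ![y 0 - a0 k 0, y 1 - a0 k 1] = y - a0 k := by
    funext i; fin_cases i <;> rfl
  rw [e1, e1, e2, e3] at h
  exact h

theorem tau_eq (k : Fin 4) : tau k = zeta ^ texp k := by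
  fin_cases k
  · simp [tau, texp]
  · simp [tau, texp]
  · show zeta⁻¹ = zeta ^ 15
    rw [inv_eq_iff_eq_inv, ← one_div, eq_div_iff (pow_ne_zero _ zeta_ne), ← pow_succ']
    exact zeta_pow_16
  · simp [tau, texp]

theorem zeta_pow_mod (n : ℕ) : zeta ^ n = zeta ^ (n % 16) := by
  conv_lhs => rw [← Nat.div_add_mod n 16, pow_add, pow_mul, zeta_pow_16, one_pow, one_mul]

theorem tab_zeta (x y : Fin 2 → ZMod 4) (k : Fin 4) :
    zeta ^ look tab0 x y * zeta ^ look tab1 (x - a0 k) y * zeta ^ look tab2 x (y - a0 k) =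
      tau k := by
  rw [tau_eq, ← tab_rel x y k, ← zeta_pow_mod, pow_add, pow_add]

end Pool.Agent.Lib.MP_26bfe6_an
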